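import Mathlib

set_option autoImplicit false

open Finset

namespace Pool.Agent.Lib.MP_cd40e2_lc

/-- The sign attached to a Boolean value. -/
noncomputable def sg (b : Bool) : ℝ := if b then 1 else -1

@[simp] lemma sg_true : sg true = 1 := by simp [sg]
@[simp] lemma sg_false : sg false = -1 := by simp [sg]
lemma sg_not (b : Bool) : sg (!b) = - sg b := by cases b <;> simp
lemma sg_mul_self (b : Bool) : sg b * sg b = 1 := by cases b <;> simp
lemma sg_sq (b : Bool) : sg b ^ 2 = 1 := by cases b <;> simp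
lemma abs_sg (b : Bool) : |sg b| = 1 := by cases b <;> simp
lemma sg_beq (a b : Bool) : sg (a == b) = sg a * sg b := by cases a <;> cases b <;> simp

variable {ι : Type*} [Fintype ι] [DecidableEq ι]

/-- Flip one coordinate of a point of the cube. -/
def flip (i : ι) (y : ι → Bool) : ι → Bool := Function.update y i (!y i)

omit [Fintype ι] in
lemma flip_self (i : ι) (y : ι → Bool) : flip i y i = !y i := by simp [flip]

omit [Fintype ι] in
lemma flip_ne {i j : ι} (h : j ≠ i) (y : ι → Bool) : flip i y j = y j := by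
  simp [flip, h]

omit [Fintype ι] in
lemma flip_flip (i : ι) (y : ι → Bool) : flip i (flip i y) = y := by
  funext j
  by_cases h : j = i
  · subst h; simp [flip]
  · rw [flip_ne h, flip_ne h]

lemma sum_flip (i : ι) (F : (ι → Bool) → ℝ) : ∑ y, F (flip i y) = ∑ y, F y := by
  have hinv : Function.Involutive (flip i : (ι → Bool) → (ι → Bool)) := flip_flip i
  exact Equiv.sum_comp hinv.toPerm F

lemma sum_mul_sg_eq_zero (i : ι) (F : (ι → Bool) → ℝ) (hF : ∀ y, F (flip i y) = F y) :
    ∑ y, F y * sg (y i) = 0 := by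
  have h := sum_flip i (fun y => F y * sg (y i))
  simp only [hF, flip_self, sg_not, mul_neg, Finset.sum_neg_distrib] at h
  linarith

lemma sum_const_cube (c : ℝ) : ∑ _y : ι → Bool, c = 2 ^ Fintype.card ι * c := by
  simp [Finset.card_univ]

/-- Second and fourth moments of a signed sum over a set of coordinates. -/
lemma moments (c : ι → ℝ) (J : Finset ι) :
    (∑ y : ι → Bool, (∑ j ∈ J, c j * sg (y j)) ^ 2 = 2 ^ Fintype.card ι * ∑ j ∈ J, c j ^ 2) ∧
    (∑ y : ι → Bool, (∑ j ∈ J, c j * sg (y j)) ^ 4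
      ≤ 2 ^ Fintype.card ι * (3 * (∑ j ∈ J, c j ^ 2) ^ 2)) := by
  induction J using Finset.induction_on with
  | empty => simp
  | insert i J hi ih =>
    obtain ⟨ih2, ih4⟩ := ih
    have hL : ∀ y, (∑ j ∈ J, c j * sg (flip i y j)) = ∑ j ∈ J, c j * sg (y j) := by
      intro y
      refine Finset.sum_congr rfl fun j hj => ?_
      rw [flip_ne (by rintro rfl; exact hi hj)]
    have h1 : ∑ y : ι → Bool, (∑ j ∈ J, c j * sg (y j)) * sg (y i) = 0 :=
      sum_mul_sg_eq_zero i _ hL
    have h3 : ∑ y : ι → Bool, (∑ j ∈ J, c j * sg (y j)) ^ 3 * sg (y i) = 0 :=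
      sum_mul_sg_eq_zero i _ (fun y => by rw [hL])
    simp only [Finset.sum_insert hi]
    constructor
    · have : ∀ y : ι → Bool, (c i * sg (y i) + ∑ j ∈ J, c j * sg (y j)) ^ 2
          = c i ^ 2 + 2 * c i * ((∑ j ∈ J, c j * sg (y j)) * sg (y i))
            + (∑ j ∈ J, c j * sg (y j)) ^ 2 := by
        intro y
        have := sg_sq (y i)
        linear_combination (c i ^ 2) * this
      simp only [this, Finset.sum_add_distrib, ← Finset.mul_sum, h1, ih2, sum_const_cube]
      ring
    · have : ∀ y : ι → Bool, (c i * sg (y i) + ∑ j ∈ J, c j * sg (y j)) ^ 4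
          = c i ^ 4 + 4 * c i ^ 3 * ((∑ j ∈ J, c j * sg (y j)) * sg (y i))
            + 6 * c i ^ 2 * (∑ j ∈ J, c j * sg (y j)) ^ 2
            + 4 * c i * ((∑ j ∈ J, c j * sg (y j)) ^ 3 * sg (y i))
            + (∑ j ∈ J, c j * sg (y j)) ^ 4 := by
        intro y
        have := sg_sq (y i)
        set L := ∑ j ∈ J, c j * sg (y j)
        set s := sg (y i)
        linear_combination (c i ^ 4 * (s ^ 2 + 1) + 4 * c i ^ 3 * L * s + 6 * c i ^ 2 * L ^ 2) * this
      simp only [this, Finset.sum_add_distrib, ← Finset.mul_sum, h1, h3, ih2, sum_const_cube]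
      have hT : (0:ℝ) < 2 ^ Fintype.card ι := by positivity
      have hc : 0 ≤ c i ^ 4 := by positivity
      nlinarith [mul_nonneg hT.le hc]

/-- Clipping a real number to the interval of radius r. -/
noncomputable def clip (r s : ℝ) : ℝ := max (-r) (min r s)

lemma clip_neg {r : ℝ} (hr : 0 ≤ r) (s : ℝ) : clip r (-s) = - clip r s := by
  unfold clip
  rcases le_total s r with h | h <;> rcases le_total (-r) s with h' | h' <;>
    simp only [max_def, min_def] <;> split_ifs <;> linarith

lemma abs_clip_le {r : ℝ} (hr : 0 ≤ r) (s : ℝ) : |clip r s| ≤ r := by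
  unfold clip
  rw [abs_le]
  constructor
  · exact le_max_left _ _
  · exact max_le (by linarith) (min_le_left _ _)

lemma clip_mono (r : ℝ) {s t : ℝ} (h : s ≤ t) : clip r s ≤ clip r t :=
  max_le_max le_rfl (min_le_min le_rfl h)

lemma clip_of_abs_le {r s : ℝ} (h : |s| ≤ r) : clip r s = s := by
  rw [abs_le] at h
  unfold clip
  rw [min_eq_right h.2, max_eq_right h.1]

lemma clip_of_le {r s : ℝ} (hr : 0 ≤ r) (h : r ≤ s) : clip r s = r := by
  unfold clip
  rw [min_eq_left h, max_eq_right (by linarith)]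

lemma clip_mul_sg {r : ℝ} (hr : 0 ≤ r) (s : ℝ) (b : Bool) :
    clip r s * sg b = clip r (s * sg b) := by
  cases b
  · simp [clip_neg hr]
  · simp

lemma step_pos {r s a : ℝ} (hr : 0 < r) (ha : 0 ≤ a) :
    0 ≤ (clip r s - clip r (s - 2 * a)) * clip (r / 4) a ∧
    (|s| < r / 2 → 2 * clip (r / 4) a ^ 2 ≤ (clip r s - clip r (s - 2 * a)) * clip (r / 4) a) := by
  have h0 : 0 ≤ clip (r / 4) a := by
    have := clip_mono (r / 4) ha
    rwa [clip_of_abs_le (by simp; positivity)] at this
  have h1 : clip (r / 4) a ≤ a := by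
    unfold clip
    exact max_le (by linarith) (min_le_right _ _)
  have h2 : clip (r / 4) a ≤ r / 4 := (abs_le.mp (abs_clip_le (by positivity) a)).2
  refine ⟨mul_nonneg (sub_nonneg.mpr (clip_mono r (by linarith))) h0, fun hs => ?_⟩
  rw [abs_lt] at hs
  have e1 : clip r s = s := clip_of_abs_le (abs_le.mpr ⟨by linarith, by linarith⟩)
  have e2 : clip r (s - 2 * a) ≤ s - 2 * clip (r / 4) a := by
    have := clip_mono r (show s - 2 * a ≤ s - 2 * clip (r / 4) a by linarith)
    rwa [clip_of_abs_le (s := s - 2 * clip (r / 4) a)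
      (abs_le.mpr ⟨by linarith, by linarith⟩)] at this
  rw [e1]
  nlinarith

lemma step_all {r : ℝ} (hr : 0 < r) (s a : ℝ) :
    0 ≤ (clip r s - clip r (s - 2 * a)) * clip (r / 4) a ∧
    (|s| < r / 2 → 2 * clip (r / 4) a ^ 2 ≤ (clip r s - clip r (s - 2 * a)) * clip (r / 4) a) := by
  rcases le_total 0 a with ha | ha
  · exact step_pos hr ha
  · have := step_pos (s := -s) (a := -a) hr (by linarith)
    rw [clip_neg hr.le, clip_neg (by positivity), show -s - 2 * -a = -(s - 2 * a) by ring,
      clip_neg hr.le, abs_neg] at this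
    obtain ⟨h1, h2⟩ := this
    refine ⟨by linarith, fun hs => ?_⟩
    have := h2 hs
    linarith

/-- Anti-concentration of signed sums. -/
lemma anti (w : ι → ℝ) (θ r : ℝ) (hr : 0 < r) :
    (∑ y : ι → Bool, (if |∑ i, w i * sg (y i) - θ| < r / 2 then (1:ℝ) else 0)) ^ 2
      * ∑ i, clip (r / 4) (w i) ^ 2 ≤ (2 ^ Fintype.card ι * r) ^ 2 := by
  set P := ∑ y : ι → Bool, (if |∑ i, w i * sg (y i) - θ| < r / 2 then (1:ℝ) else 0) with hP
  set C := ∑ i, clip (r / 4) (w i) ^ 2 with hC
  set T : ℝ := 2 ^ Fintype.card ι with hT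
  have hT0 : 0 < T := by positivity
  let S : (ι → Bool) → ℝ := fun y => ∑ i, w i * sg (y i) - θ
  let F : (ι → Bool) → ℝ := fun y => clip r (S y)
  have hS : ∀ i y, S (flip i y) = S y - 2 * (w i * sg (y i)) := by
    intro i y
    simp only [S]
    rw [← Finset.add_sum_erase _ _ (Finset.mem_univ i),
      ← Finset.add_sum_erase _ (fun j => w j * sg (y j)) (Finset.mem_univ i), flip_self, sg_not]
    have : ∑ j ∈ univ.erase i, w j * sg (flip i y j) = ∑ j ∈ univ.erase i, w j * sg (y j) :=
      Finset.sum_congr rfl fun j hj => by rw [flip_ne (Finset.ne_of_mem_erase hj)]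
    rw [this]; ring
  have hi : ∀ i, P * clip (r / 4) (w i) ^ 2 ≤ ∑ y, F y * (clip (r / 4) (w i) * sg (y i)) := by
    intro i
    have e := sum_flip i (fun y => F y * (clip (r / 4) (w i) * sg (y i)))
    simp only [flip_self, sg_not] at e
    have e2 : 2 * ∑ y, F y * (clip (r / 4) (w i) * sg (y i))
        = ∑ y, (F y - F (flip i y)) * (clip (r / 4) (w i) * sg (y i)) := by
      simp only [sub_mul, Finset.sum_sub_distrib]
      simp only [mul_neg, Finset.sum_neg_distrib] at e
      linarith
    have e3 : 2 * (P * clip (r / 4) (w i) ^ 2)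
        ≤ ∑ y, (F y - F (flip i y)) * (clip (r / 4) (w i) * sg (y i)) := by
      rw [hP, Finset.sum_mul, Finset.mul_sum]
      refine Finset.sum_le_sum fun y _ => ?_
      have hst := step_all hr (S y) (w i * sg (y i))
      have hsq : clip (r / 4) (w i * sg (y i)) ^ 2 = clip (r / 4) (w i) ^ 2 := by
        rw [← clip_mul_sg (by positivity), mul_pow, sg_sq, mul_one]
      simp only [F, hS, clip_mul_sg (show (0:ℝ) ≤ r / 4 by positivity)]
      split_ifs with h
      · have := hst.2 h
        rw [hsq] at this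
        linarith
      · have := hst.1
        linarith
    linarith
  have h1 : P * C ≤ ∑ y, F y * ∑ i, clip (r / 4) (w i) * sg (y i) := by
    rw [hC, Finset.mul_sum]
    simp only [Finset.mul_sum]
    rw [Finset.sum_comm]
    exact Finset.sum_le_sum fun i _ => hi i
  have h2 : (∑ y, F y * ∑ i, clip (r / 4) (w i) * sg (y i)) ^ 2 ≤ (T * r ^ 2) * (T * C) := by
    refine (Finset.sum_mul_sq_le_sq_mul_sq _ _ _).trans ?_
    rw [(moments (fun i => clip (r / 4) (w i)) univ).1]
    refine mul_le_mul_of_nonneg_right ?_ (by positivity)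
    rw [← sum_const_cube (ι := ι)]
    refine Finset.sum_le_sum fun y _ => ?_
    have := abs_clip_le hr.le (S y)
    exact sq_le_sq' (abs_le.mp this).1 (abs_le.mp this).2
  have hP0 : 0 ≤ P := Finset.sum_nonneg fun y _ => by split_ifs <;> norm_num
  have hC0 : 0 ≤ C := Finset.sum_nonneg fun i _ => sq_nonneg _
  have h3 : (P * C) ^ 2 ≤ (T * r ^ 2) * (T * C) :=
    (pow_le_pow_left₀ (mul_nonneg hP0 hC0) h1 2).trans h2
  rcases hC0.eq_or_lt with h | h
  · rw [← h]; simp only [mul_zero]; positivity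
  · have : (P ^ 2 * C) * C ≤ (T * r) ^ 2 * C := by nlinarith
    exact le_of_mul_le_mul_right this h

end Pool.Agent.Lib.MP_cd40e2_lc
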