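import Mathlib

set_option autoImplicit false

open Finset Filter Topology

namespace Pool.Agent.Lib.MP_cd40e2_lc

section
variable {E : Type*} [NormedAddCommGroup E] [NormedSpace ℝ E] [FiniteDimensional ℝ E]
variable {X : Type*} [Fintype X] [DecidableEq X]

omit [Fintype X] [DecidableEq X] in
lemma bounded_section (ev : X → E →ₗ[ℝ] ℝ) (A : Finset X) :
    ∃ K : ℝ, 0 ≤ K ∧ ∀ u : E, (∀ a ∈ A, |ev a u| ≤ 1) →
      ∃ u0 : E, ‖u0‖ ≤ K ∧ ∀ a ∈ A, ev a u0 = ev a u := by
  let T : E →ₗ[ℝ] (A → ℝ) := LinearMap.pi fun a : A => ev a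
  let T' : E →L[ℝ] (LinearMap.range T) := LinearMap.toContinuousLinearMap T.rangeRestrict
  have hsurj : Function.Surjective T' := T.surjective_rangeRestrict
  have : CompleteSpace E := FiniteDimensional.complete ℝ E
  have : CompleteSpace (LinearMap.range T) := FiniteDimensional.complete ℝ _
  obtain ⟨C, hC, h⟩ := T'.exists_preimage_norm_le hsurj
  refine ⟨C, hC.le, fun u hu => ?_⟩
  obtain ⟨u0, h1, h2⟩ := h (T' u)
  refine ⟨u0, ?_, fun a ha => ?_⟩
  · have : ‖T' u‖ ≤ 1 := by
      change ‖T u‖ ≤ 1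
      refine (pi_norm_le_iff_of_nonneg zero_le_one).mpr fun a => ?_
      exact hu a a.2
    nlinarith
  · have h3 : T u0 = T u := congrArg Subtype.val h1
    exact congrFun h3 ⟨a, ha⟩

/-- A bounded vector realising the same small values and the same large signs. -/
lemma hoffman (ev : X → E →ₗ[ℝ] ℝ) :
    ∃ K : ℝ, 0 ≤ K ∧ ∀ w : E, ∃ u : E, ‖u‖ ≤ K ∧ ∀ a,
      (|ev a w| < 1 → ev a u = ev a w) ∧ (1 ≤ ev a w → 1 ≤ ev a u) ∧
        (ev a w ≤ -1 → ev a u ≤ -1) := by
  choose K hK0 hK using bounded_section ev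
  refine ⟨∑ A : Finset X, K A, Finset.sum_nonneg fun A _ => hK0 A, fun w => ?_⟩
  have hcont : ∀ a, Continuous (ev a) := fun a => LinearMap.continuous_of_finiteDimensional _
  let P : Set E := {u | ∀ a, (|ev a w| < 1 → ev a u = ev a w) ∧ (1 ≤ ev a w → 1 ≤ ev a u) ∧
        (ev a w ≤ -1 → ev a u ≤ -1)}
  have hPc : IsClosed P := by
    have : P = ⋂ a, ({u | |ev a w| < 1 → ev a u = ev a w} ∩ ({u | 1 ≤ ev a w → 1 ≤ ev a u} ∩
        {u | ev a w ≤ -1 → ev a u ≤ -1})) := by
      ext u; simp [P]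
    rw [this]
    refine isClosed_iInter fun a => IsClosed.inter ?_ (IsClosed.inter ?_ ?_)
    · by_cases h : |ev a w| < 1
      · simpa [h] using isClosed_eq (hcont a) continuous_const
      · simp [h]
    · by_cases h : 1 ≤ ev a w
      · simpa [h] using isClosed_le continuous_const (hcont a)
      · simp [h]
    · by_cases h : ev a w ≤ -1
      · simpa [h] using isClosed_le (hcont a) continuous_const
      · simp [h]
  have hwP : w ∈ P := fun a => ⟨fun _ => rfl, id, id⟩
  have : ProperSpace E := FiniteDimensional.proper_real E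
  have hcomp : IsCompact (P ∩ Metric.closedBall 0 ‖w‖) :=
    (isCompact_closedBall 0 ‖w‖).inter_left hPc
  obtain ⟨u, ⟨huP, huB⟩, hmin⟩ := hcomp.exists_isMinOn ⟨w, hwP, by simp⟩
    (continuous_norm.continuousOn)
  refine ⟨u, ?_, huP⟩
  let A : Finset X := univ.filter fun a => |ev a u| ≤ 1
  obtain ⟨u0, hu0, hA⟩ := hK A u (fun a ha => (Finset.mem_filter.mp ha).2)
  have hle : K A ≤ ∑ A : Finset X, K A :=
    Finset.single_le_sum (fun A _ => hK0 A) (Finset.mem_univ A)
  by_contra hcon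
  have hlt : ‖u0‖ < ‖u‖ := by linarith [not_le.mp hcon]
  let γ : ℝ → E := fun t => u + t • (u0 - u)
  have hγ : Continuous γ := by fun_prop
  have hγ0 : γ 0 = u := by simp [γ]
  have hev : ∀ a, ∀ᶠ t in 𝓝 (0:ℝ), (|ev a w| < 1 → ev a (γ t) = ev a w) ∧
      (1 ≤ ev a w → 1 ≤ ev a (γ t)) ∧ (ev a w ≤ -1 → ev a (γ t) ≤ -1) := by
    intro a
    by_cases ha : a ∈ A
    · have : ∀ t, ev a (γ t) = ev a u := by
        intro t
        simp [γ, hA a ha]
      simp only [this]
      exact Eventually.of_forall fun _ => huP a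
    · have ha' : 1 < |ev a u| := by
        simpa [A] using ha
      have hc : Continuous fun t => ev a (γ t) := (hcont a).comp hγ
      have ht : Tendsto (fun t => ev a (γ t)) (𝓝 0) (𝓝 (ev a u)) := by
        have := hc.tendsto 0
        rwa [hγ0] at this
      obtain ⟨h1, h2, h3⟩ := huP a
      rcases lt_abs.mp ha' with hp | hn
      · filter_upwards [ht.eventually (lt_mem_nhds hp)] with t ht'
        refine ⟨fun h => ?_, fun _ => ht'.le, fun h => ?_⟩
        · have := h1 h
          rw [← this] at h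
          linarith
        · linarith [h3 h]
      · have hn' : ev a u < -1 := by linarith
        filter_upwards [ht.eventually (gt_mem_nhds hn')] with t ht'
        refine ⟨fun h => ?_, fun h => ?_, fun _ => ht'.le⟩
        · have := h1 h
          rw [← this] at h
          linarith
        · linarith [h2 h]
  have hall : ∀ᶠ t in 𝓝 (0:ℝ), γ t ∈ P := eventually_all.mpr hev
  have hsmall : ∀ᶠ t in 𝓝 (0:ℝ), t < 1 := gt_mem_nhds zero_lt_one
  have hfin : ∀ᶠ t in 𝓝[>] (0:ℝ), (γ t ∈ P ∧ t < 1) ∧ 0 < t :=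
    ((hall.and hsmall).filter_mono nhdsWithin_le_nhds).and self_mem_nhdsWithin
  obtain ⟨t, ⟨htP, ht1⟩, ht0⟩ := hfin.exists
  have hnorm : ‖γ t‖ < ‖u‖ := by
    have e : γ t = (1 - t) • u + t • u0 := by
      simp only [γ, smul_sub, sub_smul, one_smul]; abel
    rw [e]
    calc ‖(1 - t) • u + t • u0‖ ≤ ‖(1 - t) • u‖ + ‖t • u0‖ := norm_add_le _ _
      _ = (1 - t) * ‖u‖ + t * ‖u0‖ := by
        rw [norm_smul, norm_smul, Real.norm_of_nonneg (by linarith), Real.norm_of_nonneg ht0.le]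
      _ < ‖u‖ := by nlinarith
  have hB : γ t ∈ Metric.closedBall (0:E) ‖w‖ := by
    simp only [mem_closedBall_zero_iff] at huB ⊢
    linarith
  have := hmin ⟨htP, hB⟩
  simp only [Set.mem_ofPred_eq] at this
  linarith

end

end Pool.Agent.Lib.MP_cd40e2_lc
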