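import Mathlib
import Pool.Agent.Lib.MP_cd40e2_lc.Basic
import Pool.Agent.Lib.MP_cd40e2_lc.Hoffman

set_option autoImplicit false

open Finset Filter Topology

namespace Pool.Agent.Lib.MP_cd40e2_lc

lemma exists_top {ι : Type*} [Fintype ι] [DecidableEq ι] (f : ι → ℝ) (N : ℕ)
    (hN : N ≤ Fintype.card ι) : ∃ H : Finset ι, #H = N ∧ ∀ i ∈ H, ∀ j, j ∉ H → f j ≤ f i := by
  induction N with
  | zero => exact ⟨∅, rfl, by simp⟩
  | succ N ih =>
    obtain ⟨H, hH, h⟩ := ih (by omega)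
    have hne : (Hᶜ).Nonempty := by
      rw [← Finset.card_pos, Finset.card_compl]; omega
    obtain ⟨j, hj, hmax⟩ := Finset.exists_max_image Hᶜ f hne
    have hj' : j ∉ H := Finset.mem_compl.mp hj
    refine ⟨insert j H, by rw [Finset.card_insert_of_notMem hj', hH], fun i hi k hk => ?_⟩
    have hk' : k ∉ H := fun h' => hk (Finset.mem_insert_of_mem h')
    rcases Finset.mem_insert.mp hi with rfl | hi
    · exact hmax k (Finset.mem_compl.mpr hk')
    · exact h i hi k hk'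

lemma exists_gap {Y : Type*} [Fintype Y] (L : Y → ℝ) (θ : ℝ) :
    ∃ θ' δ : ℝ, 0 < δ ∧ ∀ y, (θ ≤ L y → δ ≤ L y - θ') ∧ (¬ θ ≤ L y → L y - θ' ≤ -δ) := by
  have hev : ∀ y, ∀ᶠ δ in 𝓝 (0:ℝ), L y < θ → 2 * δ < θ - L y := by
    intro y
    by_cases h : L y < θ
    · have ht : Tendsto (fun δ : ℝ => 2 * δ) (𝓝 0) (𝓝 0) := by
        have : Continuous (fun δ : ℝ => 2 * δ) := by fun_prop
        simpa using this.tendsto 0
      filter_upwards [ht.eventually (gt_mem_nhds (show (0:ℝ) < θ - L y by linarith))] with δ hδ _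
      exact hδ
    · simp [h]
  have hfin : ∀ᶠ δ in 𝓝[>] (0:ℝ), (∀ y, L y < θ → 2 * δ < θ - L y) ∧ 0 < δ :=
    ((eventually_all.mpr hev).filter_mono nhdsWithin_le_nhds).and self_mem_nhdsWithin
  obtain ⟨δ, h1, h0⟩ := hfin.exists
  refine ⟨θ - δ, δ, h0, fun y => ⟨fun h => by linarith, fun h => ?_⟩⟩
  have := h1 y (not_le.mp h)
  linarith

lemma head_tail {ι : Type*} [Fintype ι] [DecidableEq ι] {κ : ℝ} (hκ : 0 < κ) (N : ℕ)
    (hN : N ≤ Fintype.card ι) (hN' : 16 ≤ κ ^ 2 * N) (W : ι → ℝ) (θ δ : ℝ) (hδ : 0 < δ)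
    (hgap : ∀ y : ι → Bool, δ ≤ |∑ j, W j * sg (y j) - θ|) :
    ∃ H : Finset ι, #H = N ∧ ∃ σ : ℝ, 0 < σ ∧ ∑ j ∈ Hᶜ, W j ^ 2 ≤ σ ^ 2 ∧
      (∑ y : ι → Bool, (if |∑ i, W i * sg (y i) - θ| < κ * σ / 2 then (1:ℝ) else 0))
        ≤ κ * 2 ^ Fintype.card ι := by
  obtain ⟨H, hH, htop⟩ := exists_top (fun j => |W j|) N hN
  refine ⟨H, hH, ?_⟩
  have h0 : 0 ≤ ∑ j ∈ Hᶜ, W j ^ 2 := Finset.sum_nonneg fun j _ => sq_nonneg _
  rcases h0.eq_or_lt with h | h
  · refine ⟨δ / κ, by positivity, by rw [← h]; positivity, ?_⟩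
    have : ∀ y : ι → Bool, ¬ |∑ i, W i * sg (y i) - θ| < κ * (δ / κ) / 2 := by
      intro y
      have e : κ * (δ / κ) = δ := by field_simp
      rw [e]
      linarith [hgap y]
    simp only [this, if_false, Finset.sum_const_zero]
    positivity
  · set σ := √(∑ j ∈ Hᶜ, W j ^ 2) with hσ
    have hσ0 : 0 < σ := Real.sqrt_pos.mpr h
    have hσ2 : σ ^ 2 = ∑ j ∈ Hᶜ, W j ^ 2 := Real.sq_sqrt h0
    refine ⟨σ, hσ0, hσ2.ge, ?_⟩
    have hr : 0 < κ * σ := by positivity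
    have ha := anti W θ (κ * σ) hr
    set P := ∑ y : ι → Bool, (if |∑ i, W i * sg (y i) - θ| < κ * σ / 2 then (1:ℝ) else 0)
    set T : ℝ := 2 ^ Fintype.card ι
    have hT : 0 < T := by positivity
    have hC : σ ^ 2 ≤ ∑ i, clip (κ * σ / 4) (W i) ^ 2 := by
      by_cases hc : ∀ i ∈ H, κ * σ / 4 ≤ |W i|
      · have h1 : ∑ i ∈ H, clip (κ * σ / 4) (W i) ^ 2 ≤ ∑ i, clip (κ * σ / 4) (W i) ^ 2 :=
          Finset.sum_le_sum_of_subset_of_nonneg (Finset.subset_univ _) fun i _ _ => sq_nonneg _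
        have h2 : ∀ i ∈ H, clip (κ * σ / 4) (W i) ^ 2 = (κ * σ / 4) ^ 2 := by
          intro i hi
          have hi' := hc i hi
          rcases le_total 0 (W i) with hw | hw
          · rw [abs_of_nonneg hw] at hi'
            rw [clip_of_le (by positivity) hi']
          · rw [abs_of_nonpos hw] at hi'
            have := clip_neg (show 0 ≤ κ * σ / 4 by positivity) (- W i)
            rw [neg_neg, clip_of_le (by positivity) hi'] at this
            rw [this]; ring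
        rw [Finset.sum_congr rfl h2, Finset.sum_const, hH, nsmul_eq_mul] at h1
        nlinarith [sq_nonneg σ]
      · push Not at hc
        obtain ⟨i, hi, hlt⟩ := hc
        have h1 : ∑ i ∈ Hᶜ, clip (κ * σ / 4) (W i) ^ 2 ≤ ∑ i, clip (κ * σ / 4) (W i) ^ 2 :=
          Finset.sum_le_sum_of_subset_of_nonneg (Finset.subset_univ _) fun i _ _ => sq_nonneg _
        have h2 : ∀ j ∈ Hᶜ, clip (κ * σ / 4) (W j) ^ 2 = W j ^ 2 := by
          intro j hj
          rw [clip_of_abs_le ((htop i hi j (Finset.mem_compl.mp hj)).trans hlt.le)]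
        rw [Finset.sum_congr rfl h2] at h1
        linarith
    have h3 : P ^ 2 * σ ^ 2 ≤ (κ * T) ^ 2 * σ ^ 2 := by
      calc P ^ 2 * σ ^ 2 ≤ P ^ 2 * ∑ i, clip (κ * σ / 4) (W i) ^ 2 :=
            mul_le_mul_of_nonneg_left hC (sq_nonneg _)
        _ ≤ (T * (κ * σ)) ^ 2 := ha
        _ = (κ * T) ^ 2 * σ ^ 2 := by ring
    have h4 : P ^ 2 ≤ (κ * T) ^ 2 := le_of_mul_le_mul_right h3 (by positivity)
    exact (abs_le_of_sq_le_sq' h4 (by positivity)).2

lemma pointwise {η K t v τ s : ℝ} (hη : η ≤ 1 / 2) (hη0 : 0 ≤ η) (hK : |v| ≤ K)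
    (h1 : |t| < 1 → v = t) (h2 : 1 ≤ t → 1 ≤ v) (h3 : t ≤ -1 → v ≤ -1)
    (hs : (s = 1 ∧ 0 ≤ t + τ) ∨ (s = -1 ∧ t + τ ≤ 0)) :
    η * (1 - (if |t + τ| < η then (1:ℝ) else 0)) - (K + 2) * τ ^ 2 ≤ s * (v + τ) := by
  have hK0 : 0 ≤ K := (abs_nonneg v).trans hK
  have hτ : 0 ≤ (K + 2) * τ ^ 2 := by positivity
  have hind : η * (1 - (if |t + τ| < η then (1:ℝ) else 0)) ≤ η := by
    split_ifs <;> simp [hη0]
  by_cases ht : |t| < 1
  · rw [h1 ht]
    have : s * (t + τ) = |t + τ| := by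
      rcases hs with ⟨rfl, h⟩ | ⟨rfl, h⟩
      · rw [abs_of_nonneg h, one_mul]
      · rw [abs_of_nonpos h, neg_one_mul]
    rw [this]
    split_ifs with h
    · have := abs_nonneg (t + τ)
      linarith
    · linarith [not_lt.mp h]
  · obtain ⟨hv1, hv2⟩ := abs_le.mp hK
    have ht' : 1 ≤ t ∨ t ≤ -1 := by
      rcases le_abs.mp (not_lt.mp ht) with h | h
      · exact Or.inl h
      · exact Or.inr (by linarith)
    have key : η - (K + 2) * τ ^ 2 ≤ s * (v + τ) := by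
      rcases ht' with h | h
      · have hv := h2 h
        rcases hs with ⟨rfl, h'⟩ | ⟨rfl, h'⟩
        · nlinarith [sq_nonneg (τ + 1 / 4), mul_nonneg hK0 (sq_nonneg τ)]
        · have : 1 ≤ τ ^ 2 := by nlinarith
          nlinarith
      · have hv := h3 h
        rcases hs with ⟨rfl, h'⟩ | ⟨rfl, h'⟩
        · have : 1 ≤ τ ^ 2 := by nlinarith
          nlinarith
        · nlinarith [sq_nonneg (τ - 1 / 4), mul_nonneg hK0 (sq_nonneg τ)]
    linarith

/-- Evaluation of an affine form at a point of the cube. -/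
noncomputable def evl (N : ℕ) (a : Fin N → Bool) : ((Fin N → ℝ) × ℝ) →ₗ[ℝ] ℝ where
  toFun u := ∑ k, u.1 k * sg (a k) - u.2
  map_add' u v := by
    simp only [Prod.fst_add, Prod.snd_add, Pi.add_apply, add_mul, Finset.sum_add_distrib]; ring
  map_smul' c u := by
    simp only [Prod.smul_fst, Prod.smul_snd, Pi.smul_apply, smul_eq_mul, RingHom.id_apply,
      mul_sub, Finset.mul_sum, mul_assoc]

lemma evl_apply (N : ℕ) (a : Fin N → Bool) (u : (Fin N → ℝ) × ℝ) :
    evl N a u = ∑ k, u.1 k * sg (a k) - u.2 := rfl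

/-- The dimension-free robust form of Chow's theorem. -/
theorem robust_chow (ε : ℝ) (hε : 0 < ε) : ∃ N : ℕ, ∃ κ : ℝ, 0 < κ ∧ ∀ m : ℕ, N ≤ m →
    ∀ (W : Fin m → ℝ) (θ : ℝ) (g : (Fin m → Bool) → Bool),
      (∀ y, g y = true ↔ θ ≤ ∑ j, W j * sg (y j)) →
      ∀ lam : (Fin m → Bool) → ℝ, (∀ y, 0 ≤ lam y) → (∀ y, lam y ≤ 1) →
        ε * 2 ^ m ≤ ∑ y, lam y →
        (κ * 2 ^ m) ^ 2 ≤ (∑ y, lam y * sg (g y)) ^ 2
          + ∑ j, (∑ y, lam y * sg (g y) * sg (y j)) ^ 2 := by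
  set κ := ε / 4 with hκ
  have hκ0 : 0 < κ := by positivity
  obtain ⟨N, hN⟩ := exists_nat_ge (16 / κ ^ 2)
  have hN' : 16 ≤ κ ^ 2 * N := by
    rw [div_le_iff₀ (by positivity)] at hN
    linarith
  obtain ⟨K, hK0, hK⟩ := hoffman (evl N)
  set K' : ℝ := (N + 1) * K with hK'
  have hK'0 : 0 ≤ K' := by positivity
  set R : ℝ := κ + 8 * (K' + 2) / (κ * ε) with hR
  have hR0 : 0 < R := by positivity
  have hRκ : κ ≤ R := by
    have : 0 ≤ 8 * (K' + 2) / (κ * ε) := by positivity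
    linarith
  have hR2 : 8 * (K' + 2) ≤ R * (κ * ε) := by
    have : 8 * (K' + 2) / (κ * ε) ≤ R := by linarith
    rwa [div_le_iff₀ (by positivity)] at this
  refine ⟨N, κ * ε / (4 * R) / (K' + 1 / R), by positivity, ?_⟩
  intro m hm W θ g hg lam hl0 hl1 hl
  obtain ⟨θ', δ, hδ, hgap⟩ := exists_gap (fun y : Fin m → Bool => ∑ j, W j * sg (y j)) θ
  have hgap' : ∀ y : Fin m → Bool, δ ≤ |∑ j, W j * sg (y j) - θ'| := by
    intro y
    by_cases h : θ ≤ ∑ j, W j * sg (y j)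
    · exact ((hgap y).1 h).trans (le_abs_self _)
    · have := (hgap y).2 h
      exact le_abs.mpr (Or.inr (by linarith))
  obtain ⟨H, hH, σ, hσ, hσ2, hP⟩ := head_tail hκ0 N (by simpa using hm) hN' W θ' δ hδ hgap'
  simp only [Fintype.card_fin] at hP
  set T : ℝ := 2 ^ m with hT
  have hT0 : 0 < T := by positivity
  let e : Fin N ↪o Fin m := H.orderEmbOfFin hH
  have hsumH : ∀ F : Fin m → ℝ, ∑ j ∈ H, F j = ∑ k, F (e k) := by
    intro F
    rw [← Finset.map_orderEmbOfFin_univ H hH, Finset.sum_map]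
    rfl
  set ρ := R * σ with hρ
  have hρ0 : 0 < ρ := by positivity
  obtain ⟨u, hu, hu'⟩ := hK (fun k => W (e k) / ρ, θ' / ρ)
  have hu1 : ∀ k, |u.1 k| ≤ K := fun k =>
    ((norm_le_pi_norm u.1 k).trans (norm_fst_le u)).trans hu
  have hu2 : |u.2| ≤ K := (norm_snd_le u).trans hu
  let τ : (Fin m → Bool) → ℝ := fun y => ∑ j ∈ Hᶜ, W j / ρ * sg (y j)
  let v : (Fin m → Bool) → ℝ := fun y => evl N (fun k => y (e k)) u
  have hv : ∀ y, |v y| ≤ K' := by
    intro y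
    simp only [v, evl_apply]
    calc |∑ k, u.1 k * sg (y (e k)) - u.2| ≤ |∑ k, u.1 k * sg (y (e k))| + |u.2| := abs_sub _ _
      _ ≤ ∑ k, |u.1 k * sg (y (e k))| + K := add_le_add (Finset.abs_sum_le_sum_abs _ _) hu2
      _ ≤ ∑ _k : Fin N, K + K := by
        refine add_le_add (Finset.sum_le_sum fun k _ => ?_) le_rfl
        rw [abs_mul, abs_sg, mul_one]; exact hu1 k
      _ = K' := by simp [hK']; ring
  have hsplit : ∀ y : Fin m → Bool,
      evl N (fun k => y (e k)) (fun k => W (e k) / ρ, θ' / ρ) + τ y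
        = (∑ j, W j * sg (y j) - θ') / ρ := by
    intro y
    rw [evl_apply, ← Finset.sum_add_sum_compl H, hsumH]
    simp only [τ, sub_div, add_div, Finset.sum_div]
    have e1 : ∀ j, W j / ρ * sg (y j) = W j * sg (y j) / ρ := fun j => by ring
    simp only [e1]
    ring
  set η := κ / (2 * R) with hη
  have hη0 : 0 ≤ η := by positivity
  have hη1 : η ≤ 1 / 2 := by
    rw [hη, div_le_iff₀ (by positivity)]; linarith
  have hpt : ∀ y, η * (1 - (if |∑ j, W j * sg (y j) - θ'| < κ * σ / 2 then (1:ℝ) else 0))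
      - (K' + 2) * τ y ^ 2 ≤ sg (g y) * (v y + τ y) := by
    intro y
    obtain ⟨a1, a2, a3⟩ := hu' (fun k => y (e k))
    have hs : (sg (g y) = 1 ∧ 0 ≤ evl N (fun k => y (e k)) (fun k => W (e k) / ρ, θ' / ρ) + τ y) ∨
        (sg (g y) = -1 ∧ evl N (fun k => y (e k)) (fun k => W (e k) / ρ, θ' / ρ) + τ y ≤ 0) := by
      rw [hsplit]
      by_cases h : θ ≤ ∑ j, W j * sg (y j)
      · left
        refine ⟨by rw [(hg y).mpr h, sg_true], div_nonneg ?_ hρ0.le⟩
        linarith [(hgap y).1 h]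
      · right
        have hf : g y = false := by
          cases hgy : g y
          · rfl
          · exact absurd ((hg y).mp hgy) h
        refine ⟨by rw [hf, sg_false], div_nonpos_of_nonpos_of_nonneg ?_ hρ0.le⟩
        linarith [(hgap y).2 h]
    have := pointwise hη1 hη0 (hv y) a1 a2 a3 hs
    rw [hsplit] at this
    have hiff : (|(∑ j, W j * sg (y j) - θ') / ρ| < η) ↔
        (|∑ j, W j * sg (y j) - θ'| < κ * σ / 2) := by
      rw [abs_div, abs_of_pos hρ0, div_lt_iff₀ hρ0]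
      have : η * ρ = κ * σ / 2 := by rw [hη, hρ]; field_simp
      rw [this]
    simpa only [hiff] using this
  have hτ2 : ∑ y, τ y ^ 2 ≤ T / R ^ 2 := by
    have := (moments (fun j => W j / ρ) Hᶜ).1
    simp only [Fintype.card_fin] at this
    simp only [τ]
    rw [this, div_eq_mul_one_div T]
    refine mul_le_mul_of_nonneg_left ?_ hT0.le
    simp only [div_pow, ← Finset.sum_div]
    rw [div_le_div_iff₀ (by positivity) (by positivity), hρ]
    nlinarith [sq_nonneg R]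
  have hlow : κ * ε / (4 * R) * T ≤ ∑ y, lam y * sg (g y) * (v y + τ y) := by
    have h1 : ∑ y, (η * lam y
        - η * (if |∑ j, W j * sg (y j) - θ'| < κ * σ / 2 then (1:ℝ) else 0)
        - (K' + 2) * τ y ^ 2) ≤ ∑ y, lam y * sg (g y) * (v y + τ y) := by
      refine Finset.sum_le_sum fun y _ => ?_
      have h2 := mul_le_mul_of_nonneg_left (hpt y) (hl0 y)
      have h3 : 0 ≤ (K' + 2) * τ y ^ 2 := by positivity
      have h4 := hl0 y
      have h5 := hl1 y
      have h6 : 0 ≤ η * (if |∑ j, W j * sg (y j) - θ'| < κ * σ / 2 then (1:ℝ) else 0) := by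
        split_ifs <;> simp [hη0]
      nlinarith [mul_nonneg h3 (sub_nonneg.mpr h5), mul_nonneg h6 (sub_nonneg.mpr h5)]
    simp only [Finset.sum_sub_distrib, ← Finset.mul_sum] at h1
    have h2 : η * (ε * T) ≤ η * ∑ y, lam y := mul_le_mul_of_nonneg_left hl hη0
    have h3 := mul_le_mul_of_nonneg_left hP hη0
    have h4 := mul_le_mul_of_nonneg_left hτ2 (show 0 ≤ K' + 2 by positivity)
    have h5 : (K' + 2) * (T / R ^ 2) ≤ κ * ε / (8 * R) * T := by
      rw [show (K' + 2) * (T / R ^ 2) = (K' + 2) / R ^ 2 * T by ring]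
      refine mul_le_mul_of_nonneg_right ?_ hT0.le
      rw [div_le_div_iff₀ (by positivity) (by positivity)]
      nlinarith
    have h6 : η * (ε * T) - η * (κ * T) - κ * ε / (8 * R) * T = κ * ε / (4 * R) * T := by
      rw [hη, hκ]; field_simp; ring
    linarith
  set b0 := ∑ y, lam y * sg (g y) with hb0
  set b : Fin m → ℝ := fun j => ∑ y, lam y * sg (g y) * sg (y j) with hb
  set B := √(b0 ^ 2 + ∑ j, b j ^ 2) with hB
  have hbs : 0 ≤ ∑ j, b j ^ 2 := Finset.sum_nonneg fun j _ => sq_nonneg _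
  have hB2 : B ^ 2 = b0 ^ 2 + ∑ j, b j ^ 2 := Real.sq_sqrt (by positivity)
  have hB0 : 0 ≤ B := Real.sqrt_nonneg _
  have hb0B : |b0| ≤ B := abs_le_of_sq_le_sq' (by linarith) hB0 |> abs_le.mpr
  have hbB : ∀ j, |b j| ≤ B := by
    intro j
    have : b j ^ 2 ≤ ∑ j, b j ^ 2 :=
      Finset.single_le_sum (f := fun j => b j ^ 2) (fun j _ => sq_nonneg _) (Finset.mem_univ j)
    exact abs_le_of_sq_le_sq' (by nlinarith [sq_nonneg b0]) hB0 |> abs_le.mpr
  have hexp : ∑ y, lam y * sg (g y) * (v y + τ y)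
      = ∑ k, u.1 k * b (e k) - u.2 * b0 + ∑ j ∈ Hᶜ, W j / ρ * b j := by
    simp only [v, τ, evl_apply, hb, hb0, mul_add, mul_sub, Finset.sum_add_distrib,
      Finset.sum_sub_distrib, Finset.mul_sum]
    rw [Finset.sum_comm, Finset.sum_comm (s := univ) (t := Hᶜ)]
    congr 1
    · congr 1
      · exact Finset.sum_congr rfl fun k _ => Finset.sum_congr rfl fun y _ => by ring
      · exact Finset.sum_congr rfl fun y _ => by ring
    · exact Finset.sum_congr rfl fun k _ => Finset.sum_congr rfl fun y _ => by ring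
  have hup : ∑ y, lam y * sg (g y) * (v y + τ y) ≤ (K' + 1 / R) * B := by
    rw [hexp]
    have h1 : ∑ k, u.1 k * b (e k) ≤ N * (K * B) := by
      calc ∑ k, u.1 k * b (e k) ≤ ∑ _k : Fin N, K * B := by
            refine Finset.sum_le_sum fun k _ => (le_abs_self _).trans ?_
            rw [abs_mul]
            exact mul_le_mul (hu1 k) (hbB _) (abs_nonneg _) hK0
        _ = N * (K * B) := by simp
    have h2 : -(u.2 * b0) ≤ K * B := by
      refine (neg_le_abs _).trans ?_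
      rw [abs_mul]
      exact mul_le_mul hu2 hb0B (abs_nonneg _) hK0
    have h3 : ∑ j ∈ Hᶜ, W j / ρ * b j ≤ 1 / R * B := by
      have h4 := Finset.sum_mul_sq_le_sq_mul_sq Hᶜ (fun j => W j / ρ) b
      have h5 : ∑ j ∈ Hᶜ, (W j / ρ) ^ 2 ≤ (1 / R) ^ 2 := by
        simp only [div_pow, ← Finset.sum_div]
        rw [div_le_div_iff₀ (by positivity) (by positivity), hρ]
        nlinarith [sq_nonneg R]
      have h6 : ∑ j ∈ Hᶜ, b j ^ 2 ≤ B ^ 2 := by
        have : ∑ j ∈ Hᶜ, b j ^ 2 ≤ ∑ j, b j ^ 2 :=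
          Finset.sum_le_sum_of_subset_of_nonneg (Finset.subset_univ _) fun i _ _ => sq_nonneg _
        nlinarith [sq_nonneg b0]
      have h7 : (∑ j ∈ Hᶜ, W j / ρ * b j) ^ 2 ≤ (1 / R * B) ^ 2 := by
        rw [mul_pow]
        exact h4.trans (mul_le_mul h5 h6 (Finset.sum_nonneg fun j _ => sq_nonneg _)
          (by positivity))
      exact (abs_le_of_sq_le_sq' h7 (by positivity)).2
    rw [hK']
    linarith
  rw [← hB2]
  refine pow_le_pow_left₀ (by positivity) ?_ 2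
  have hpos : 0 < K' + 1 / R := by positivity
  rw [div_mul_eq_mul_div, div_le_iff₀ hpos]
  linarith

end Pool.Agent.Lib.MP_cd40e2_lc
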