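import Mathlib
import Pool.Agent.Lib.MP_cd40e2_lc.Basic

set_option autoImplicit false

open Finset

namespace Pool.Agent.Lib.MP_cd40e2_lc

/-- A function far from all halfspaces has a bounded sign-agreeing witness of large mass whose
Fourier coefficients of degree at most one vanish. -/
theorem dual_witness {n : ℕ} (f : (Fin n → Bool) → Bool) (c : ℝ)
    (hfar : ∀ (w : Fin n → ℝ) (θ : ℝ), ∃ μ : (Fin n → Bool) → ℝ,
      (∀ x, 0 ≤ μ x) ∧ (∀ x, μ x ≤ 1) ∧ c ≤ ∑ x, μ x ∧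
      ∀ x, μ x * sg (f x) * (∑ i, w i * sg (x i) - θ) ≤ 0) :
    ∃ lam : (Fin n → Bool) → ℝ, (∀ x, 0 ≤ lam x) ∧ (∀ x, lam x ≤ 1) ∧ c ≤ ∑ x, lam x ∧
      ∑ x, lam x * sg (f x) = 0 ∧ ∀ i, ∑ x, lam x * sg (f x) * sg (x i) = 0 := by
  let Λ : Set ((Fin n → Bool) → ℝ) := Set.Icc 0 1 ∩ {lam | c ≤ ∑ x, lam x}
  have hΛc : IsCompact Λ := isCompact_Icc.inter_right
    (isClosed_le continuous_const (by fun_prop))
  have hne : Λ.Nonempty := by
    obtain ⟨μ, h0, h1, h2, -⟩ := hfar 0 0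
    exact ⟨μ, ⟨h0, h1⟩, h2⟩
  let a0 : ((Fin n → Bool) → ℝ) → ℝ := fun lam => ∑ x, lam x * sg (f x)
  let a : ((Fin n → Bool) → ℝ) → Fin n → ℝ := fun lam i => ∑ x, lam x * sg (f x) * sg (x i)
  let Q : ((Fin n → Bool) → ℝ) → ℝ := fun lam => a0 lam ^ 2 + ∑ i, a lam i ^ 2
  have hQ : Continuous Q := by
    simp only [Q, a0, a]
    fun_prop
  obtain ⟨lam, ⟨⟨hl0, hl1⟩, hlc⟩, hmin⟩ := hΛc.exists_isMinOn hne hQ.continuousOn
  obtain ⟨μ, h0, h1, h2, h3⟩ := hfar (a lam) (- a0 lam)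
  have hin : a0 lam * a0 μ + ∑ i, a lam i * a μ i ≤ 0 := by
    have : a0 lam * a0 μ + ∑ i, a lam i * a μ i
        = ∑ x, μ x * sg (f x) * (∑ i, a lam i * sg (x i) - - a0 lam) := by
      set b := a lam
      set b0 := a0 lam
      simp only [a0, a, sub_neg_eq_add, mul_add, Finset.sum_add_distrib, Finset.mul_sum]
      rw [add_comm, Finset.sum_comm]
      congr 1
      · exact Finset.sum_congr rfl fun x _ => Finset.sum_congr rfl fun i _ => by ring
      · exact Finset.sum_congr rfl fun x _ => by ring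
    rw [this]
    exact Finset.sum_nonpos fun x _ => h3 x
  have hQ0 : 0 ≤ Q lam := add_nonneg (sq_nonneg _) (Finset.sum_nonneg fun i _ => sq_nonneg _)
  have hQμ : 0 ≤ Q μ := add_nonneg (sq_nonneg _) (Finset.sum_nonneg fun i _ => sq_nonneg _)
  have hstep : ∀ t : ℝ, 0 ≤ t → t ≤ 1 → Q lam ≤ (1 - t) ^ 2 * Q lam + t ^ 2 * Q μ := by
    intro t ht0 ht1
    let ν : (Fin n → Bool) → ℝ := fun x => (1 - t) * lam x + t * μ x
    have hν : ν ∈ Λ := by
      refine ⟨⟨fun x => ?_, fun x => ?_⟩, ?_⟩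
      · have := hl0 x
        have := h0 x
        simp only [Pi.zero_apply, ν] at *
        nlinarith
      · have := hl1 x
        have := h1 x
        simp only [Pi.one_apply, ν] at *
        nlinarith
      · change c ≤ ∑ x, ((1 - t) * lam x + t * μ x)
        have hlc' : c ≤ ∑ x, lam x := hlc
        rw [Finset.sum_add_distrib, ← Finset.mul_sum, ← Finset.mul_sum]
        nlinarith
    have hle : Q lam ≤ Q ν := hmin hν
    have e0 : a0 ν = (1 - t) * a0 lam + t * a0 μ := by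
      simp only [a0, ν, add_mul, Finset.sum_add_distrib, Finset.mul_sum, mul_assoc]
    have e1 : ∀ i, a ν i = (1 - t) * a lam i + t * a μ i := by
      intro i
      simp only [a, ν, add_mul, Finset.sum_add_distrib, Finset.mul_sum, mul_assoc]
    have e2 : Q ν = (1 - t) ^ 2 * Q lam + t ^ 2 * Q μ
        + 2 * t * (1 - t) * (a0 lam * a0 μ + ∑ i, a lam i * a μ i) := by
      have : ∀ i, a ν i ^ 2 = (1 - t) ^ 2 * a lam i ^ 2 + t ^ 2 * a μ i ^ 2
          + 2 * t * (1 - t) * (a lam i * a μ i) := fun i => by rw [e1]; ring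
      simp only [Q, this, e0, Finset.sum_add_distrib, ← Finset.mul_sum]
      ring
    have : 2 * t * (1 - t) * (a0 lam * a0 μ + ∑ i, a lam i * a μ i) ≤ 0 :=
      mul_nonpos_of_nonneg_of_nonpos (by nlinarith) hin
    linarith
  have hz : Q lam = 0 := by
    by_contra hne
    have hp : 0 < Q lam := lt_of_le_of_ne hQ0 (Ne.symm hne)
    have hs : 0 < Q lam + Q μ := by linarith
    have := hstep (Q lam / (Q lam + Q μ)) (by positivity)
      (by rw [div_le_one hs]; linarith)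
    have e : (1 - Q lam / (Q lam + Q μ)) ^ 2 * Q lam + (Q lam / (Q lam + Q μ)) ^ 2 * Q μ
        = Q lam - Q lam ^ 2 / (Q lam + Q μ) := by
      field_simp; ring
    rw [e] at this
    have : 0 < Q lam ^ 2 / (Q lam + Q μ) := by positivity
    linarith
  have hs0 : 0 ≤ ∑ i, a lam i ^ 2 := Finset.sum_nonneg fun i _ => sq_nonneg _
  have hz' : a0 lam ^ 2 + ∑ i, a lam i ^ 2 = 0 := hz
  refine ⟨lam, hl0, hl1, hlc, ?_, fun i => ?_⟩
  · have : a0 lam ^ 2 = 0 := by nlinarith [sq_nonneg (a0 lam)]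
    exact pow_eq_zero_iff (two_ne_zero) |>.mp this
  · have h5 : ∑ i, a lam i ^ 2 = 0 := by nlinarith [sq_nonneg (a0 lam)]
    have := (Finset.sum_eq_zero_iff_of_nonneg (fun i _ => sq_nonneg (a lam i))).mp h5 i
      (Finset.mem_univ i)
    exact pow_eq_zero_iff (two_ne_zero) |>.mp this

end Pool.Agent.Lib.MP_cd40e2_lc
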