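import Mathlib
import Pool.Agent.Lib.MP_cd40e2_lc.Basic

set_option autoImplicit false

open Finset

namespace Pool.Agent.Lib.MP_cd40e2_lc

/-- A signed identification of n variables into m blocks. -/
def emb {n m : ℕ} (p : Fin n → Fin m × Bool) (y : Fin m → Bool) : Fin n → Bool :=
  fun i => ((p i).2 == y (p i).1)

lemma sg_emb {n m : ℕ} (p : Fin n → Fin m × Bool) (y : Fin m → Bool) (i : Fin n) :
    sg (emb p y i) = sg (p i).2 * sg (y (p i).1) := sg_beq _ _

/-- The unnormalised Fourier coefficient. -/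
noncomputable def fc {n : ℕ} (h : (Fin n → Bool) → ℝ) (S : Finset (Fin n)) : ℝ :=
  ∑ x, h x * ∏ i ∈ S, sg (x i)

/-- The inner product of two sign vectors. -/
noncomputable def tau {m : ℕ} (y y' : Fin m → Bool) : ℝ := ∑ j, sg (y j) * sg (y' j)

lemma delta_eq {n : ℕ} (u x : Fin n → Bool) :
    ∏ i, (1 + sg (u i) * sg (x i)) = if u = x then 2 ^ n else 0 := by
  split_ifs with h
  · subst h
    simp only [sg_mul_self]
    norm_num
  · obtain ⟨i, hi⟩ := Function.ne_iff.mp h
    refine Finset.prod_eq_zero (Finset.mem_univ i) ?_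
    revert hi
    cases u i <;> cases x i <;> simp

lemma noise {n : ℕ} (h : (Fin n → Bool) → ℝ) (ρ : ℝ) :
    ∑ x, ∑ x', h x * h x' * ∏ i, (1 + ρ * (sg (x i) * sg (x' i)))
      = ∑ S : Finset (Fin n), ρ ^ #S * fc h S ^ 2 := by
  have e : ∀ x x' : Fin n → Bool, ∏ i, (1 + ρ * (sg (x i) * sg (x' i)))
      = ∑ S : Finset (Fin n), ρ ^ #S * ((∏ i ∈ S, sg (x i)) * ∏ i ∈ S, sg (x' i)) := by
    intro x x'
    rw [Finset.prod_one_add, Finset.powerset_univ]
    refine Finset.sum_congr rfl fun S _ => ?_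
    rw [Finset.prod_mul_distrib, Finset.prod_const, Finset.prod_mul_distrib]
  simp only [e, Finset.mul_sum]
  have e2 : ∀ S : Finset (Fin n), ρ ^ #S * fc h S ^ 2
      = ∑ x, ∑ x', h x * h x' * (ρ ^ #S * ((∏ i ∈ S, sg (x i)) * ∏ i ∈ S, sg (x' i))) := by
    intro S
    rw [fc, sq, Finset.sum_mul_sum, Finset.mul_sum]
    refine Finset.sum_congr rfl fun x _ => ?_
    rw [Finset.mul_sum]
    exact Finset.sum_congr rfl fun x' _ => by ring
  simp only [e2]
  rw [Finset.sum_comm (s := (univ : Finset (Finset (Fin n))))]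
  refine Finset.sum_congr rfl fun x _ => ?_
  rw [Finset.sum_comm]

lemma parseval {n : ℕ} (h : (Fin n → Bool) → ℝ) :
    ∑ S : Finset (Fin n), fc h S ^ 2 = 2 ^ n * ∑ x, h x ^ 2 := by
  have := noise h 1
  simp only [one_mul, one_pow, delta_eq, mul_ite, mul_zero, Finset.sum_ite_eq,
    Finset.mem_univ, if_true] at this
  rw [← this, Finset.mul_sum]
  exact Finset.sum_congr rfl fun x _ => by ring

lemma kernel {n m : ℕ} (hm : 0 < m) (h : (Fin n → Bool) → ℝ) (y y' : Fin m → Bool) :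
    (4:ℝ) ^ n * ∑ p : Fin n → Fin m × Bool, h (emb p y) * h (emb p y')
      = (2 * m) ^ n * ∑ S : Finset (Fin n), (tau y y' / m) ^ #S * fc h S ^ 2 := by
  have hm' : (m:ℝ) ≠ 0 := by positivity
  have e1 : ∀ u : Fin n → Bool, 2 ^ n * h u = ∑ x, h x * ∏ i, (1 + sg (u i) * sg (x i)) := by
    intro u
    simp only [delta_eq, mul_ite, mul_zero, Finset.sum_ite_eq, Finset.mem_univ, if_true]
    ring
  have e2 : ∀ p : Fin n → Fin m × Bool, (4:ℝ) ^ n * (h (emb p y) * h (emb p y'))
      = ∑ x, ∑ x', h x * h x' * ∏ i, ((1 + sg (p i).2 * sg (y (p i).1) * sg (x i)) *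
          (1 + sg (p i).2 * sg (y' (p i).1) * sg (x' i))) := by
    intro p
    have : (4:ℝ) ^ n * (h (emb p y) * h (emb p y'))
        = (2 ^ n * h (emb p y)) * (2 ^ n * h (emb p y')) := by
      rw [show (4:ℝ) = 2 * 2 by norm_num, mul_pow]; ring
    rw [this, e1, e1, Finset.sum_mul_sum]
    refine Finset.sum_congr rfl fun x _ => Finset.sum_congr rfl fun x' _ => ?_
    simp only [sg_emb, Finset.prod_mul_distrib]
    ring
  have e3 : ∀ x x' : Fin n → Bool, ∑ p : Fin n → Fin m × Bool,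
      ∏ i, ((1 + sg (p i).2 * sg (y (p i).1) * sg (x i)) *
          (1 + sg (p i).2 * sg (y' (p i).1) * sg (x' i)))
      = (2 * m) ^ n * ∏ i, (1 + tau y y' / m * (sg (x i) * sg (x' i))) := by
    intro x x'
    rw [← Fintype.prod_sum (fun (i : Fin n) (q : Fin m × Bool) =>
      (1 + sg q.2 * sg (y q.1) * sg (x i)) * (1 + sg q.2 * sg (y' q.1) * sg (x' i)))]
    have : ∀ i : Fin n, ∑ q : Fin m × Bool,
        (1 + sg q.2 * sg (y q.1) * sg (x i)) * (1 + sg q.2 * sg (y' q.1) * sg (x' i))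
        = (2 * m) * (1 + tau y y' / m * (sg (x i) * sg (x' i))) := by
      intro i
      rw [Fintype.sum_prod_type]
      have : ∀ j : Fin m, ∑ b : Bool,
          (1 + sg b * sg (y j) * sg (x i)) * (1 + sg b * sg (y' j) * sg (x' i))
          = 2 + 2 * (sg (x i) * sg (x' i)) * (sg (y j) * sg (y' j)) := by
        intro j
        simp only [Fintype.sum_bool, sg_true, sg_false]
        ring
      simp only [this, Finset.sum_add_distrib, ← Finset.mul_sum]
      simp only [tau, Finset.sum_const, Finset.card_univ, Fintype.card_fin, nsmul_eq_mul]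
      field_simp
    simp only [this]
    rw [Finset.prod_mul_distrib, Finset.prod_const, Finset.card_univ, Fintype.card_fin]
  rw [Finset.mul_sum]
  simp only [e2]
  rw [Finset.sum_comm, ← noise, Finset.mul_sum]
  refine Finset.sum_congr rfl fun x _ => ?_
  rw [Finset.sum_comm, Finset.mul_sum]
  refine Finset.sum_congr rfl fun x' _ => ?_
  rw [← Finset.mul_sum, e3]
  ring

lemma tau_moments {m : ℕ} :
    (∑ y : Fin m → Bool, ∑ y' : Fin m → Bool, tau y y' ^ 2 = 4 ^ m * m) ∧
    (∑ y : Fin m → Bool, ∑ y' : Fin m → Bool, tau y y' ^ 4 ≤ 4 ^ m * (3 * m ^ 2)) := by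
  have h : ∀ y : Fin m → Bool, (∑ y' : Fin m → Bool, tau y y' ^ 2 = 2 ^ m * m) ∧
      (∑ y' : Fin m → Bool, tau y y' ^ 4 ≤ 2 ^ m * (3 * m ^ 2)) := by
    intro y
    have := moments (fun j => sg (y j)) (univ : Finset (Fin m))
    simpa only [tau, sg_sq, Fintype.card_fin, Finset.sum_const, Finset.card_univ, nsmul_eq_mul,
      mul_one] using this
  have e4 : (4:ℝ) ^ m = 2 ^ m * 2 ^ m := by rw [← mul_pow]; norm_num
  constructor
  · simp only [fun y => (h y).1, sum_const_cube, Fintype.card_fin, e4]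
    ring
  · refine (Finset.sum_le_sum fun y _ => (h y).2).trans (le_of_eq ?_)
    simp only [sum_const_cube, Fintype.card_fin, e4]
    ring

lemma abs_tau_le {m : ℕ} (y y' : Fin m → Bool) : |tau y y'| ≤ m := by
  refine (Finset.abs_sum_le_sum_abs _ _).trans (le_of_eq ?_)
  simp [abs_mul, abs_sg]

/-- Variance bound for the average over the random subcube. -/
lemma bound_mean {n M : ℕ} (hM : 0 < M) (h : (Fin n → Bool) → ℝ) (hb : ∀ x, h x ^ 2 ≤ 1)
    (h0 : ∑ x, h x = 0) :
    ∑ p : Fin n → Fin (M * M) × Bool, (∑ y, h (emb p y)) ^ 2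
      ≤ (2 * (M * M : ℕ)) ^ n * (4 ^ (M * M) * (1 / M)) := by
  set m := M * M with hmdef
  have hm : 0 < m := Nat.mul_pos hM hM
  have hM' : (0:ℝ) < M := by positivity
  have hm' : (0:ℝ) < m := by positivity
  have hmM : (m:ℝ) = M * M := by rw [hmdef]; push_cast; ring
  have hA : ∑ S : Finset (Fin n), fc h S ^ 2 ≤ 4 ^ n := by
    rw [parseval, show (4:ℝ) ^ n = 2 ^ n * 2 ^ n by rw [← mul_pow]; norm_num]
    refine mul_le_mul_of_nonneg_left ?_ (by positivity)
    have := sum_const_cube (ι := Fin n) 1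
    rw [Fintype.card_fin, mul_one] at this
    rw [← this]
    exact Finset.sum_le_sum fun x _ => hb x
  have hpt : ∀ y y' : Fin m → Bool, ∑ S : Finset (Fin n), (tau y y' / m) ^ #S * fc h S ^ 2
      ≤ (tau y y' ^ 2 / M + M) / (2 * m) * 4 ^ n := by
    intro y y'
    have hρ : |tau y y' / m| ≤ 1 := by
      rw [abs_div, abs_of_pos hm', div_le_one hm']; exact abs_tau_le y y'
    have hρ2 : |tau y y' / m| ≤ (tau y y' ^ 2 / M + M) / (2 * m) := by
      rw [abs_div, abs_of_pos hm', div_le_div_iff₀ hm' (by positivity), ← sq_abs (tau y y')]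
      have : 2 * |tau y y'| ≤ |tau y y'| ^ 2 / M + M := by
        rw [div_add' _ _ _ hM'.ne', le_div_iff₀ hM']
        nlinarith [sq_nonneg (|tau y y'| - M)]
      nlinarith
    refine le_trans ?_ (mul_le_mul_of_nonneg_left hA (by positivity))
    rw [Finset.mul_sum]
    refine Finset.sum_le_sum fun S _ => ?_
    rcases S.eq_empty_or_nonempty with rfl | hS
    · simp [fc, h0]
    · refine mul_le_mul_of_nonneg_right ?_ (sq_nonneg _)
      refine (le_abs_self _).trans (le_trans ?_ hρ2)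
      rw [abs_pow]
      exact pow_le_of_le_one (abs_nonneg _) hρ (Finset.card_pos.mpr hS).ne'
  have h4 : (0:ℝ) < 4 ^ n := by positivity
  refine le_of_mul_le_mul_left ?_ h4
  have e : (4:ℝ) ^ n * ∑ p : Fin n → Fin m × Bool, (∑ y, h (emb p y)) ^ 2
      = ∑ y, ∑ y', 4 ^ n * ∑ p : Fin n → Fin m × Bool, h (emb p y) * h (emb p y') := by
    simp only [sq, Finset.sum_mul_sum, ← Finset.mul_sum]
    congr 1
    rw [Finset.sum_comm]
    refine Finset.sum_congr rfl fun y _ => ?_
    simp only [Finset.mul_sum]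
    rw [Finset.sum_comm]
  rw [e]
  simp only [kernel hm]
  calc ∑ y : Fin m → Bool, ∑ y' : Fin m → Bool,
        (2 * (m:ℝ)) ^ n * ∑ S : Finset (Fin n), (tau y y' / m) ^ #S * fc h S ^ 2
      ≤ ∑ y : Fin m → Bool, ∑ y' : Fin m → Bool,
        (2 * (m:ℝ)) ^ n * ((tau y y' ^ 2 / M + M) / (2 * m) * 4 ^ n) :=
        Finset.sum_le_sum fun y _ => Finset.sum_le_sum fun y' _ =>
          mul_le_mul_of_nonneg_left (hpt y y') (by positivity)
    _ = (2 * (m:ℝ)) ^ n * (((∑ y : Fin m → Bool, ∑ y' : Fin m → Bool, tau y y' ^ 2) / M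
          + 2 ^ m * (2 ^ m * M)) / (2 * m) * 4 ^ n) := by
        simp only [← Finset.mul_sum, ← Finset.sum_mul, ← Finset.sum_div, Finset.sum_add_distrib,
          sum_const_cube, Fintype.card_fin]
    _ = 4 ^ n * ((2 * (m:ℝ)) ^ n * (4 ^ m * (1 / M))) := by
        rw [tau_moments.1, show (4:ℝ) ^ m = 2 ^ m * 2 ^ m by rw [← mul_pow]; norm_num]
        set T : ℝ := 2 ^ m
        set U : ℝ := (2 * (m:ℝ)) ^ n
        rw [hmM]
        field_simp
        ring

/-- Bound for the degree at most one Fourier weight on the random subcube. -/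
lemma bound_deg_one {n M : ℕ} (hM : 0 < M) (h : (Fin n → Bool) → ℝ) (hb : ∀ x, h x ^ 2 ≤ 1)
    (h0 : ∑ x, h x = 0) (h1 : ∀ i, ∑ x, h x * sg (x i) = 0) :
    ∑ p : Fin n → Fin (M * M) × Bool,
        ((∑ y, h (emb p y)) ^ 2 + ∑ j, (∑ y, h (emb p y) * sg (y j)) ^ 2)
      ≤ (2 * (M * M : ℕ)) ^ n * (4 ^ (M * M) * (3 / M)) := by
  set m := M * M with hmdef
  have hm : 0 < m := Nat.mul_pos hM hM
  have hM' : (0:ℝ) < M := by positivity
  have hM1 : (1:ℝ) ≤ M := by exact_mod_cast hM
  have hm' : (0:ℝ) < m := by positivity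
  have hmM : (m:ℝ) = M * M := by rw [hmdef]; push_cast; ring
  have hA : ∑ S : Finset (Fin n), fc h S ^ 2 ≤ 4 ^ n := by
    rw [parseval, show (4:ℝ) ^ n = 2 ^ n * 2 ^ n by rw [← mul_pow]; norm_num]
    refine mul_le_mul_of_nonneg_left ?_ (by positivity)
    have := sum_const_cube (ι := Fin n) 1
    rw [Fintype.card_fin, mul_one] at this
    rw [← this]
    exact Finset.sum_le_sum fun x _ => hb x
  have hpt : ∀ y y' : Fin m → Bool,
      (1 + tau y y') * ∑ S : Finset (Fin n), (tau y y' / m) ^ #S * fc h S ^ 2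
      ≤ (tau y y' ^ 2 + (M * tau y y' ^ 2 + tau y y' ^ 4 / M) / 2) / m ^ 2 * 4 ^ n := by
    intro y y'
    have hρ : |tau y y' / m| ≤ 1 := by
      rw [abs_div, abs_of_pos hm', div_le_one hm']; exact abs_tau_le y y'
    have hρ2 : (1 + |tau y y'|) * |tau y y' / m| ^ 2
        ≤ (tau y y' ^ 2 + (M * tau y y' ^ 2 + tau y y' ^ 4 / M) / 2) / m ^ 2 := by
      rw [abs_div, abs_of_pos hm', div_pow, ← mul_div_assoc]
      refine div_le_div_of_nonneg_right ?_ (by positivity)
      have e2 : tau y y' ^ 2 = |tau y y'| ^ 2 := (sq_abs _).symm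
      have e4 : tau y y' ^ 4 = |tau y y'| ^ 4 := by
        rw [show (4:ℕ) = 2 * 2 by norm_num, pow_mul, pow_mul, e2]
      rw [e4, e2]
      set a := |tau y y'|
      have : 2 * a ^ 3 ≤ M * a ^ 2 + a ^ 4 / M := by
        rw [add_div' _ _ _ hM'.ne', le_div_iff₀ hM']
        nlinarith [sq_nonneg (a * (a - M))]
      nlinarith
    refine le_trans ?_ (mul_le_mul_of_nonneg_left hA (by positivity))
    rw [Finset.mul_sum, Finset.mul_sum]
    refine Finset.sum_le_sum fun S _ => ?_
    by_cases hS : #S < 2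
    · have : fc h S = 0 := by
        have hc : #S = 0 ∨ #S = 1 := by omega
        rcases hc with hc | hc
        · rw [Finset.card_eq_zero.mp hc]; simp [fc, h0]
        · obtain ⟨i, rfl⟩ := Finset.card_eq_one.mp hc
          simp [fc, h1]
      simp [this]
    · rw [← mul_assoc]
      refine mul_le_mul_of_nonneg_right ?_ (sq_nonneg _)
      refine (le_abs_self _).trans (le_trans ?_ hρ2)
      rw [abs_mul, abs_pow]
      refine mul_le_mul ?_ ?_ (by positivity) (by positivity)
      · exact (abs_add_le _ _).trans (by simp)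
      · exact pow_le_pow_of_le_one (abs_nonneg _) hρ (not_lt.mp hS)
  have h4 : (0:ℝ) < 4 ^ n := by positivity
  refine le_of_mul_le_mul_left ?_ h4
  have e0 : ∀ p : Fin n → Fin m × Bool,
      (∑ y, h (emb p y)) ^ 2 + ∑ j, (∑ y, h (emb p y) * sg (y j)) ^ 2
      = ∑ y, ∑ y', (1 + tau y y') * (h (emb p y) * h (emb p y')) := by
    intro p
    have a1 : (∑ y, h (emb p y)) ^ 2 = ∑ y, ∑ y', h (emb p y) * h (emb p y') := by
      rw [sq, Finset.sum_mul_sum]
    have a2 : ∑ j, (∑ y, h (emb p y) * sg (y j)) ^ 2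
        = ∑ y, ∑ y', tau y y' * (h (emb p y) * h (emb p y')) := by
      simp only [sq, Finset.sum_mul_sum]
      rw [Finset.sum_comm]
      refine Finset.sum_congr rfl fun y _ => ?_
      rw [Finset.sum_comm]
      refine Finset.sum_congr rfl fun y' _ => ?_
      rw [tau, Finset.sum_mul]
      exact Finset.sum_congr rfl fun j _ => by ring
    rw [a1, a2]
    simp only [add_mul, one_mul, Finset.sum_add_distrib]
  have e : (4:ℝ) ^ n * ∑ p : Fin n → Fin m × Bool,
        ((∑ y, h (emb p y)) ^ 2 + ∑ j, (∑ y, h (emb p y) * sg (y j)) ^ 2)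
      = ∑ y, ∑ y', (1 + tau y y') *
          (4 ^ n * ∑ p : Fin n → Fin m × Bool, h (emb p y) * h (emb p y')) := by
    simp only [e0, Finset.mul_sum]
    rw [Finset.sum_comm]
    refine Finset.sum_congr rfl fun y _ => ?_
    rw [Finset.sum_comm]
    exact Finset.sum_congr rfl fun y' _ => Finset.sum_congr rfl fun j _ => by ring
  rw [e]
  simp only [kernel hm]
  calc ∑ y : Fin m → Bool, ∑ y' : Fin m → Bool, (1 + tau y y') *
        ((2 * (m:ℝ)) ^ n * ∑ S : Finset (Fin n), (tau y y' / m) ^ #S * fc h S ^ 2)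
      ≤ ∑ y : Fin m → Bool, ∑ y' : Fin m → Bool, (2 * (m:ℝ)) ^ n *
          ((tau y y' ^ 2 + (M * tau y y' ^ 2 + tau y y' ^ 4 / M) / 2) / m ^ 2 * 4 ^ n) := by
        refine Finset.sum_le_sum fun y _ => Finset.sum_le_sum fun y' _ => ?_
        rw [mul_left_comm]
        exact mul_le_mul_of_nonneg_left (hpt y y') (by positivity)
    _ = (2 * (m:ℝ)) ^ n * (((∑ y : Fin m → Bool, ∑ y' : Fin m → Bool, tau y y' ^ 2)
          + (M * (∑ y : Fin m → Bool, ∑ y' : Fin m → Bool, tau y y' ^ 2)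
            + (∑ y : Fin m → Bool, ∑ y' : Fin m → Bool, tau y y' ^ 4) / M) / 2) / m ^ 2
              * 4 ^ n) := by
        simp only [← Finset.mul_sum, ← Finset.sum_mul, ← Finset.sum_div, Finset.sum_add_distrib]
    _ ≤ (2 * (m:ℝ)) ^ n * ((4 ^ m * m + (M * (4 ^ m * m) + (4 ^ m * (3 * m ^ 2)) / M) / 2) / m ^ 2
              * 4 ^ n) := by
        rw [tau_moments.1]
        have := tau_moments (m := m) |>.2
        gcongr
    _ ≤ 4 ^ n * ((2 * (m:ℝ)) ^ n * (4 ^ m * (3 / M))) := by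
        set T : ℝ := 4 ^ m with hT
        have hT0 : 0 < T := by positivity
        set U : ℝ := (2 * (m:ℝ)) ^ n with hU
        have hU0 : 0 < U := by positivity
        have : (T * m + (M * (T * m) + (T * (3 * m ^ 2)) / M) / 2) / m ^ 2
            = T * (1 / (M * M) + 2 / M) := by
          rw [hmM]; field_simp; ring
        rw [this]
        have h2 : 1 / ((M:ℝ) * M) + 2 / M ≤ 3 / M := by
          have : 1 / ((M:ℝ) * M) ≤ 1 / M :=
            one_div_le_one_div_of_le hM' (by nlinarith)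
          have e3 : (3:ℝ) / M = 1 / M + 2 / M := by ring
          linarith
        calc U * (T * (1 / (M * M) + 2 / M) * 4 ^ n) ≤ U * (T * (3 / M) * 4 ^ n) := by gcongr
          _ = 4 ^ n * (U * (T * (3 / M))) := by ring

end Pool.Agent.Lib.MP_cd40e2_lc
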