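import Mathlib
import Pool.Agent.Lib.MP_cd40e2_lc.Basic
import Pool.Agent.Lib.MP_cd40e2_lc.Chow
import Pool.Agent.Lib.MP_cd40e2_lc.Restrict
import Pool.Agent.Lib.MP_cd40e2_lc.Dual

set_option autoImplicit false

open Finset
open scoped Classical

namespace Pool.Agent.Lib.MP_cd40e2_lc

/-- If f is far from every halfspace then its restriction to a random signed identification of
variables is a halfspace with probability at most one third. -/
theorem accept_bound (ε : ℝ) (hε : 0 < ε) : ∃ m : ℕ, 0 < m ∧ ∀ (n : ℕ) (f : (Fin n → Bool) → Bool),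
    (∀ (w : Fin n → ℝ) (θ : ℝ), ∃ μ : (Fin n → Bool) → ℝ,
      (∀ x, 0 ≤ μ x) ∧ (∀ x, μ x ≤ 1) ∧ ε * 2 ^ n ≤ ∑ x, μ x ∧
      ∀ x, μ x * sg (f x) * (∑ i, w i * sg (x i) - θ) ≤ 0) →
    ∑ p : Fin n → Fin m × Bool,
      (if ∃ (W : Fin m → ℝ) (θ : ℝ), ∀ y, f (emb p y) = true ↔ θ ≤ ∑ j, W j * sg (y j)
        then (1:ℝ) else 0) ≤ (2 * m) ^ n / 3 := by
  obtain ⟨N, κ, hκ, hchow⟩ := robust_chow (ε / 2) (by positivity)
  obtain ⟨M0, hM0⟩ := exists_nat_ge (3 * (3 / κ ^ 2 + 1 / (ε / 2) ^ 2))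
  set M := M0 + N + 1 with hMdef
  have hM : 0 < M := by omega
  have hM' : (0:ℝ) < M := by positivity
  have hMM : 3 * (3 / κ ^ 2 + 1 / (ε / 2) ^ 2) ≤ (M:ℝ) := by
    refine hM0.trans ?_
    exact_mod_cast (by omega : M0 ≤ M)
  have hNm : N ≤ M * M := by nlinarith
  refine ⟨M * M, Nat.mul_pos hM hM, fun n f hfar => ?_⟩
  obtain ⟨lam, hl0, hl1, hlc, hz0, hz1⟩ := dual_witness f _ hfar
  have hTn : (0:ℝ) < 2 ^ n := by positivity
  set mean : ℝ := (∑ x, lam x) / 2 ^ n with hmean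
  have hmean1 : ε ≤ mean := by rw [hmean, le_div_iff₀ hTn]; exact hlc
  have hmean2 : mean ≤ 1 := by
    rw [hmean, div_le_one hTn]
    have := sum_const_cube (ι := Fin n) 1
    rw [Fintype.card_fin, mul_one] at this
    rw [← this]
    exact Finset.sum_le_sum fun x _ => hl1 x
  have hA := bound_deg_one hM (fun x => lam x * sg (f x))
    (fun x => by rw [mul_pow, sg_sq, mul_one]; nlinarith [hl0 x, hl1 x]) hz0 hz1
  have hB := bound_mean hM (fun x => lam x - mean)
    (fun x => by nlinarith [hl0 x, hl1 x])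
    (by
      rw [Finset.sum_sub_distrib, sum_const_cube, Fintype.card_fin, hmean]
      field_simp
      ring)
  set m := M * M with hm
  set T : ℝ := 2 ^ m with hT
  have hT0 : 0 < T := by positivity
  have h4 : (4:ℝ) ^ m = T ^ 2 := by
    rw [hT, sq, ← mul_pow]; norm_num
  rw [h4] at hA hB
  set U : ℝ := (2 * (m:ℝ)) ^ n with hU
  have hU0 : 0 ≤ U := by positivity
  have hpt : ∀ p : Fin n → Fin m × Bool,
      (if ∃ (W : Fin m → ℝ) (θ : ℝ), ∀ y, f (emb p y) = true ↔ θ ≤ ∑ j, W j * sg (y j)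
        then (1:ℝ) else 0) ≤
      ((∑ y, lam (emb p y) * sg (f (emb p y))) ^ 2
        + ∑ j, (∑ y, lam (emb p y) * sg (f (emb p y)) * sg (y j)) ^ 2) / (κ * T) ^ 2
      + (∑ y, (lam (emb p y) - mean)) ^ 2 / (ε / 2 * T) ^ 2 := by
    intro p
    have p1 : 0 ≤ ((∑ y, lam (emb p y) * sg (f (emb p y))) ^ 2
        + ∑ j, (∑ y, lam (emb p y) * sg (f (emb p y)) * sg (y j)) ^ 2) / (κ * T) ^ 2 :=
      div_nonneg (add_nonneg (sq_nonneg _) (Finset.sum_nonneg fun _ _ => sq_nonneg _))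
        (sq_nonneg _)
    have p2 : 0 ≤ (∑ y, (lam (emb p y) - mean)) ^ 2 / (ε / 2 * T) ^ 2 := by positivity
    split_ifs with h
    · obtain ⟨W, θ, hW⟩ := h
      by_cases hc : ε / 2 * T ≤ ∑ y, lam (emb p y)
      · have := hchow m hNm W θ (fun y => f (emb p y)) hW (fun y => lam (emb p y))
          (fun y => hl0 _) (fun y => hl1 _) hc
        have := (one_le_div (by positivity)).mpr this
        linarith
      · have h1 : ∑ y, (lam (emb p y) - mean) ≤ -(ε / 2 * T) := by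
          rw [Finset.sum_sub_distrib, sum_const_cube, Fintype.card_fin]
          have := not_le.mp hc
          nlinarith
        have h2 : (ε / 2 * T) ^ 2 ≤ (∑ y, (lam (emb p y) - mean)) ^ 2 := by
          have : 0 < ε / 2 * T := by positivity
          nlinarith
        have := (one_le_div (by positivity)).mpr h2
        linarith
    · linarith
  refine (Finset.sum_le_sum fun p _ => hpt p).trans ?_
  rw [Finset.sum_add_distrib, ← Finset.sum_div, ← Finset.sum_div]
  have h5 := div_le_div_of_nonneg_right hA (sq_nonneg (κ * T))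
  have h6 := div_le_div_of_nonneg_right hB (sq_nonneg (ε / 2 * T))
  refine (add_le_add h5 h6).trans ?_
  have e : U * (T ^ 2 * (3 / M)) / (κ * T) ^ 2 + U * (T ^ 2 * (1 / M)) / (ε / 2 * T) ^ 2
      = U * ((3 / κ ^ 2 + 1 / (ε / 2) ^ 2) / M) := by
    field_simp
  rw [e, div_eq_mul_one_div U]
  refine mul_le_mul_of_nonneg_left ?_ hU0
  rw [div_le_div_iff₀ hM' (by norm_num)]
  linarith

end Pool.Agent.Lib.MP_cd40e2_lc
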