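import Mathlib
import Pool.Agent.Lib.MP_cd40e2_lc.Basic
import Pool.Agent.Lib.MP_cd40e2_lc.Chow

set_option autoImplicit false

open Finset

namespace Pool.Agent.Lib.MP_cd40e2_lc.Poly

/-- The average over a finite type. -/
noncomputable def av {α : Type*} [Fintype α] (F : α → ℝ) : ℝ := (∑ x, F x) / Fintype.card α

open Classical in
/-- The indicator of a proposition. -/
noncomputable def ind (P : Prop) : ℝ := if P then 1 else 0

lemma ind_pos {P : Prop} (h : P) : ind P = 1 := by simp [ind, h]
lemma ind_neg {P : Prop} (h : ¬ P) : ind P = 0 := by simp [ind, h]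
lemma ind_nonneg (P : Prop) : 0 ≤ ind P := by unfold ind; split_ifs <;> norm_num
lemma ind_le_one (P : Prop) : ind P ≤ 1 := by unfold ind; split_ifs <;> norm_num
lemma ind_sq (P : Prop) : ind P ^ 2 = ind P := by unfold ind; split_ifs <;> norm_num
lemma ind_mono {P Q : Prop} (h : P → Q) : ind P ≤ ind Q := by
  by_cases hP : P
  · rw [ind_pos hP, ind_pos (h hP)]
  · rw [ind_neg hP]; exact ind_nonneg _
lemma ind_eq_ite (P : Prop) [Decidable P] : ind P = if P then 1 else 0 := by
  by_cases hP : P
  · rw [ind_pos hP, if_pos hP]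
  · rw [ind_neg hP, if_neg hP]
lemma ind_or2 {P Q R : Prop} (h : P → Q ∨ R) : ind P ≤ ind Q + ind R := by
  by_cases hP : P
  · rcases h hP with h | h
    · rw [ind_pos hP, ind_pos h]; linarith [ind_nonneg R]
    · rw [ind_pos hP, ind_pos h]; linarith [ind_nonneg Q]
  · rw [ind_neg hP]; linarith [ind_nonneg R, ind_nonneg Q]

section av
variable {α β : Type*} [Fintype α] [Fintype β]

lemma av_add (F G : α → ℝ) : av (fun x => F x + G x) = av F + av G := by
  simp only [av, Finset.sum_add_distrib, add_div]
lemma av_sub (F G : α → ℝ) : av (fun x => F x - G x) = av F - av G := by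
  simp only [av, Finset.sum_sub_distrib, sub_div]
lemma av_mul (c : ℝ) (F : α → ℝ) : av (fun x => c * F x) = c * av F := by
  simp only [av, ← Finset.mul_sum, mul_div_assoc]
lemma av_mul' (c : ℝ) (F : α → ℝ) : av (fun x => F x * c) = av F * c := by
  simp only [mul_comm _ c, av_mul]
lemma av_div (c : ℝ) (F : α → ℝ) : av (fun x => F x / c) = av F / c := by
  simp only [div_eq_mul_inv, av_mul']
lemma av_const [Nonempty α] (c : ℝ) : av (fun _ : α => c) = c := by
  have : (0:ℝ) < Fintype.card α := by exact_mod_cast Fintype.card_pos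
  simp only [av, Finset.sum_const, Finset.card_univ, nsmul_eq_mul]
  field_simp
lemma av_mono {F G : α → ℝ} (h : ∀ x, F x ≤ G x) : av F ≤ av G :=
  div_le_div_of_nonneg_right (Finset.sum_le_sum fun x _ => h x) (by positivity)
lemma av_nonneg {F : α → ℝ} (h : ∀ x, 0 ≤ F x) : 0 ≤ av F :=
  div_nonneg (Finset.sum_nonneg fun x _ => h x) (by positivity)
lemma av_congr {F G : α → ℝ} (h : ∀ x, F x = G x) : av F = av G := by
  rw [show F = G from funext h]
lemma av_le_const [Nonempty α] {F : α → ℝ} {c : ℝ} (h : ∀ x, F x ≤ c) : av F ≤ c :=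
  (av_mono h).trans (av_const c).le
lemma av_sum {γ : Type*} (s : Finset γ) (F : γ → α → ℝ) :
    av (fun x => ∑ i ∈ s, F i x) = ∑ i ∈ s, av (F i) := by
  simp only [av]
  rw [Finset.sum_comm, Finset.sum_div]
lemma av_comm (F : α → β → ℝ) :
    av (fun x => av (fun y => F x y)) = av (fun y => av (fun x => F x y)) := by
  simp only [av, ← Finset.sum_div]
  rw [Finset.sum_comm, div_div, div_div, mul_comm]
lemma av_abs (F : α → ℝ) : |av F| ≤ av (fun x => |F x|) := by
  simp only [av, abs_div, Nat.abs_cast]
  exact div_le_div_of_nonneg_right (Finset.abs_sum_le_sum_abs _ _) (by positivity)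
lemma av_cs [Nonempty α] (F G : α → ℝ) :
    av (fun x => F x * G x) ^ 2 ≤ av (fun x => F x ^ 2) * av (fun x => G x ^ 2) := by
  have : (0:ℝ) < Fintype.card α := by exact_mod_cast Fintype.card_pos
  simp only [av, div_pow, div_mul_div_comm, ← sq]
  exact div_le_div_of_nonneg_right (Finset.sum_mul_sq_le_sq_mul_sq _ _ _) (by positivity)
lemma exists_le_av [Nonempty α] (F : α → ℝ) : ∃ x, F x ≤ av F := by
  obtain ⟨x, -, hx⟩ := Finset.exists_min_image univ F Finset.univ_nonempty
  exact ⟨x, (av_const (α := α) (F x)).ge.trans (av_mono fun y => hx y (Finset.mem_univ _))⟩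
lemma av_equiv (e : α ≃ β) (F : β → ℝ) : av (fun x => F (e x)) = av F := by
  simp only [av, Equiv.sum_comp e F, Fintype.card_congr e]
lemma av_prod (F : α × β → ℝ) : av F = av (fun x => av (fun y => F (x, y))) := by
  simp only [av, Fintype.sum_prod_type, ← Finset.sum_div, Fintype.card_prod, Nat.cast_mul]
  rw [div_div, mul_comm]
end av

variable {ι : Type*} [Fintype ι] [DecidableEq ι]

/-- The point equal to u on J and to v elsewhere. -/
def mix {α : Type*} (J : Finset ι) (u v : ι → α) : ι → α := fun i => if i ∈ J then u i else v i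

omit [Fintype ι] in
lemma mix_in {α : Type*} {J : Finset ι} (u v : ι → α) {i : ι} (h : i ∈ J) : mix J u v i = u i := by
  simp [mix, h]
omit [Fintype ι] in
lemma mix_out {α : Type*} {J : Finset ι} (u v : ι → α) {i : ι} (h : i ∉ J) :
    mix J u v i = v i := by
  simp [mix, h]
omit [Fintype ι] in
lemma mix_mix {α : Type*} (J : Finset ι) (u v w : ι → α) : mix J (mix J u v) w = mix J u w := by
  funext i; by_cases h : i ∈ J <;> simp [mix, h]

lemma av_mix {α : Type*} [Fintype α] [Nonempty α] (J : Finset ι) (φ : (ι → α) → ℝ) :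
    av (fun u => av (fun v => φ (mix J u v))) = av φ := by
  have hinv : Function.Involutive
      (fun q : (ι → α) × (ι → α) => (mix J q.1 q.2, mix J q.2 q.1)) := by
    rintro ⟨u, v⟩
    ext i <;> by_cases h : i ∈ J <;> simp [mix, h]
  have h1 := av_equiv hinv.toPerm (fun q : (ι → α) × (ι → α) => φ q.1)
  rw [av_prod, av_prod] at h1
  simp only [av_const] at h1
  exact h1

/-- A linear form on the cube. -/
noncomputable def lin (c : ι → ℝ) (y : ι → Bool) : ℝ := ∑ j, c j * sg (y j)

lemma card_cube : (Fintype.card (ι → Bool) : ℝ) = 2 ^ Fintype.card ι := by simp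

lemma av_flip (i : ι) (F : (ι → Bool) → ℝ) : av (fun y => F (flip i y)) = av F := by
  simp only [av, sum_flip]

lemma av_mul_sg_zero (i : ι) (F : (ι → Bool) → ℝ) (hF : ∀ y, F (flip i y) = F y) :
    av (fun y => F y * sg (y i)) = 0 := by
  simp only [av, sum_mul_sg_eq_zero i F hF, zero_div]

lemma av_lin_sq (c : ι → ℝ) : av (fun y => lin c y ^ 2) = ∑ j, c j ^ 2 := by
  simp only [av, lin, (moments c univ).1, card_cube]
  field_simp

lemma av_sg (j : ι) : av (fun y : ι → Bool => sg (y j)) = 0 := by
  have := av_mul_sg_zero j (fun _ => (1:ℝ)) (fun _ => rfl)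
  simpa only [one_mul] using this

lemma av_lin_mul_sg (c : ι → ℝ) (j : ι) : av (fun y => lin c y * sg (y j)) = c j := by
  simp only [lin, Finset.sum_mul, av_sum]
  rw [Finset.sum_eq_single j]
  · simp only [mul_assoc, sg_mul_self, mul_one, av_const]
  · intro i _ hi
    exact av_mul_sg_zero j (fun y => c i * sg (y i)) (fun y => by rw [flip_ne hi])
  · simp

lemma av_mul_lin (k : (ι → Bool) → ℝ) (c : ι → ℝ) :
    av (fun y => k y * lin c y) = ∑ j, c j * av (fun y => k y * sg (y j)) := by
  simp only [lin, Finset.mul_sum, av_sum, ← av_mul]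
  exact Finset.sum_congr rfl fun j _ => av_congr fun y => by ring

lemma bessel (k : (ι → Bool) → ℝ) :
    ∑ j, av (fun y => k y * sg (y j)) ^ 2 ≤ av (fun y => k y ^ 2) := by
  set c : ι → ℝ := fun j => av (fun y => k y * sg (y j)) with hc
  have h1 : av (fun y => k y * lin c y) = ∑ j, c j ^ 2 := by
    rw [av_mul_lin]; exact Finset.sum_congr rfl fun j _ => by rw [sq]
  have h2 := av_cs k (lin c)
  rw [h1, av_lin_sq] at h2
  have h0 : 0 ≤ ∑ j, c j ^ 2 := Finset.sum_nonneg fun j _ => sq_nonneg _
  have h3 : 0 ≤ av (fun y => k y ^ 2) := av_nonneg fun y => sq_nonneg _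
  rcases h0.eq_or_lt with h | h
  · rw [← h]; exact h3
  · nlinarith

lemma cheb (c : ι → ℝ) {r : ℝ} (hr : 0 < r) :
    av (fun y => ind (r ≤ |lin c y|)) ≤ (∑ j, c j ^ 2) / r ^ 2 := by
  rw [← av_lin_sq, ← av_div]
  refine av_mono fun y => ?_
  by_cases h : r ≤ |lin c y|
  · rw [ind_pos h, le_div_iff₀ (by positivity), one_mul, ← sq_abs (lin c y)]
    exact pow_le_pow_left₀ hr.le h 2
  · rw [ind_neg h]; positivity

lemma anti_av (w : ι → ℝ) (θ : ℝ) {r s : ℝ} (hr : 0 < r) (hs : 0 < s)
    (h : s ^ 2 ≤ ∑ i, clip (r / 4) (w i) ^ 2) :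
    av (fun y => ind (|lin w y - θ| < r / 2)) ≤ r / s := by
  have ha := anti w θ r hr
  simp only [← ind_eq_ite] at ha
  set P := ∑ y : ι → Bool, ind (|∑ i, w i * sg (y i) - θ| < r / 2) with hP
  have hP0 : 0 ≤ P := Finset.sum_nonneg fun y _ => ind_nonneg _
  have hT : (0:ℝ) < 2 ^ Fintype.card ι := by positivity
  have h1 : (P * s) ^ 2 ≤ (2 ^ Fintype.card ι * r) ^ 2 := by
    rw [mul_pow]; exact (mul_le_mul_of_nonneg_left h (sq_nonneg _)).trans ha
  have h2 := (abs_le_of_sq_le_sq' h1 (by positivity)).2
  change P / _ ≤ _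
  rw [card_cube, div_le_div_iff₀ hT hs]
  linarith

lemma anti_reg (w : ι → ℝ) (θ : ℝ) (T : Finset ι) {r ρ : ℝ} (hr : 0 < r) (hρ : 4 * ρ ≤ r)
    (h1 : ∑ j ∈ T, w j ^ 2 = 1) (h2 : ∀ j ∈ T, |w j| ≤ ρ) :
    av (fun y => ind (|lin w y - θ| < r / 2)) ≤ r := by
  have := anti_av w θ hr one_pos (by
    rw [one_pow, ← h1]
    refine le_trans (le_of_eq (Finset.sum_congr rfl fun j hj => ?_))
      (Finset.sum_le_sum_of_subset_of_nonneg (Finset.subset_univ T) fun i _ _ => sq_nonneg _)
    rw [clip_of_abs_le (by linarith [h2 j hj])])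
  rwa [div_one] at this

lemma lin_flip (w : ι → ℝ) (i : ι) (y : ι → Bool) :
    lin w (flip i y) = lin w y - 2 * (w i * sg (y i)) := by
  simp only [lin]
  rw [← Finset.add_sum_erase _ _ (Finset.mem_univ i),
    ← Finset.add_sum_erase _ (fun j => w j * sg (y j)) (Finset.mem_univ i), flip_self, sg_not]
  have : ∑ j ∈ univ.erase i, w j * sg (flip i y j) = ∑ j ∈ univ.erase i, w j * sg (y j) :=
    Finset.sum_congr rfl fun j hj => by rw [flip_ne (Finset.ne_of_mem_erase hj)]
  rw [this]; ring

lemma av_mul_sg (k : (ι → Bool) → ℝ) (j : ι) :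
    av (fun y => k y * sg (y j)) = av (fun y => (k y - k (flip j y)) * sg (y j)) / 2 := by
  have e := av_flip j (fun y => k y * sg (y j))
  simp only [flip_self, sg_not] at e
  have e2 : av (fun y => (k y - k (flip j y)) * sg (y j))
      = av (fun y => k y * sg (y j)) + av (fun y => k (flip j y) * -sg (y j)) := by
    rw [← av_add]; exact av_congr fun y => by ring
  rw [e2, e]; ring

/-- The influence of a variable on a halfspace is its degree one coefficient. -/
lemma infl (G : (ι → Bool) → Bool) (W : ι → ℝ) (θ : ℝ)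
    (hG : ∀ y, 0 < sg (G y) * (lin W y - θ)) (j : ι) :
    av (fun y => ind (G y ≠ G (flip j y))) ≤ |av (fun y => sg (G y) * sg (y j))| := by
  rw [av_mul_sg]
  have key : ∀ y, G y ≠ G (flip j y) →
      (0 < W j ∧ (sg (G y) - sg (G (flip j y))) * sg (y j) = 2) ∨
      (W j < 0 ∧ (sg (G y) - sg (G (flip j y))) * sg (y j) = -2) := by
    intro y hy
    have a := hG y
    have b := hG (flip j y)
    rw [lin_flip] at b
    cases h1 : G y <;> cases h2 : G (flip j y) <;> cases h3 : y j <;>
      simp only [h1, h2, h3, sg_true, sg_false, ne_eq, not_true] at a b hy ⊢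
    · left; constructor <;> linarith
    · right; constructor <;> linarith
    · right; constructor <;> linarith
    · left; constructor <;> linarith
  rcases le_total 0 (W j) with h | h
  · refine le_trans ?_ (le_abs_self _)
    rw [← av_div]
    refine av_mono fun y => ?_
    by_cases hy : G y ≠ G (flip j y)
    · rw [ind_pos hy]
      rcases key y hy with ⟨_, e⟩ | ⟨e, _⟩
      · rw [e]; norm_num
      · linarith
    · rw [ind_neg hy, not_not.mp hy]; simp
  · refine le_trans ?_ (neg_le_abs _)
    rw [← neg_div, neg_eq_neg_one_mul, ← av_mul, ← av_div]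
    refine av_mono fun y => ?_
    by_cases hy : G y ≠ G (flip j y)
    · rw [ind_pos hy]
      rcases key y hy with ⟨e, _⟩ | ⟨_, e⟩
      · linarith
      · rw [e]; norm_num
    · rw [ind_neg hy, not_not.mp hy]; simp

lemma hybrid (G : (ι → Bool) → Bool) (D : Finset ι) :
    av (fun z => av (fun y => ind (G y ≠ G (mix D z y))))
      ≤ ∑ j ∈ D, av (fun y => ind (G y ≠ G (flip j y))) := by
  induction D using Finset.induction_on with
  | empty =>
    rw [Finset.sum_empty]
    refine av_le_const fun z => av_le_const fun y => ?_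
    have : mix ∅ z y = y := by funext i; simp [mix]
    rw [this, ind_neg (by simp)]
  | insert j D hj ih =>
    rw [Finset.sum_insert hj, ← av_mix D (fun y => ind (G y ≠ G (flip j y))), add_comm]
    refine le_trans ?_ (add_le_add ih le_rfl)
    rw [← av_add]
    refine av_mono fun z => ?_
    rw [← av_add]
    refine av_mono fun y => ind_or2 fun h => ?_
    by_cases h1 : G y = G (mix D z y)
    · right
      rw [h1] at h
      by_cases h2 : z j = y j
      · exfalso
        apply h
        congr 1
        funext i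
        by_cases hi : i = j
        · subst hi; simp [mix, hj, h2]
        · simp [mix, hi]
      · have : mix (insert j D) z y = flip j (mix D z y) := by
          funext i
          by_cases hi : i = j
          · subst hi
            rw [flip_self, mix_in _ _ (Finset.mem_insert_self _ _), mix_out _ _ hj]
            revert h2
            cases z i <;> cases y i <;> simp
          · rw [flip_ne hi]; simp [mix, hi]
        rwa [this] at h
    · left; exact h1

lemma clip_lip (r a b : ℝ) : |clip r a - clip r b| ≤ |a - b| := by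
  unfold clip
  refine (abs_max_sub_max_le_max _ _ _ _).trans (max_le (by simp) ?_)
  refine (abs_min_sub_min_le_max _ _ _ _).trans (max_le (by simp) le_rfl)

lemma clip_step {r ρ l w : ℝ} (hr : 0 < r) (b : Bool) (hw : |w| ≤ ρ) :
    |(clip r l - clip r (l - 2 * (w * sg b))) * sg b - 2 * w * ind (|l| < r)|
      ≤ 4 * |w| * (ind (|l - r| < 6 * ρ / 2) + ind (|l + r| < 6 * ρ / 2)) := by
  have hs : |w * sg b| = |w| := by rw [abs_mul, abs_sg, mul_one]
  have hw0 := abs_nonneg w
  by_cases h0 : w = 0
  · subst h0; simp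
  have hρ : 0 < ρ := lt_of_lt_of_le (abs_pos.mpr h0) hw
  have hcrude : |(clip r l - clip r (l - 2 * (w * sg b))) * sg b - 2 * w * ind (|l| < r)|
      ≤ 4 * |w| := by
    refine (abs_sub _ _).trans ?_
    have a1 : |(clip r l - clip r (l - 2 * (w * sg b))) * sg b| ≤ 2 * |w| := by
      rw [abs_mul, abs_sg, mul_one]
      refine (clip_lip _ _ _).trans (le_of_eq ?_)
      rw [sub_sub_cancel, abs_mul, hs]; norm_num
    have a2 : |2 * w * ind (|l| < r)| ≤ 2 * |w| := by
      rw [abs_mul, abs_mul, abs_of_nonneg (ind_nonneg _), abs_two]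
      nlinarith [ind_le_one (|l| < r), ind_nonneg (|l| < r)]
    linarith
  by_cases h1 : |l - r| < 6 * ρ / 2
  · rw [ind_pos h1]
    nlinarith [ind_nonneg (|l + r| < 6 * ρ / 2)]
  by_cases h2 : |l + r| < 6 * ρ / 2
  · rw [ind_pos h2]
    nlinarith [ind_nonneg (|l - r| < 6 * ρ / 2)]
  rw [ind_neg h2, ind_neg h1]
  have hb := abs_le.mp (hs.le.trans hw)
  rw [not_lt, le_abs] at h1 h2
  rw [add_zero, mul_zero, abs_nonpos_iff]
  by_cases h3 : |l| < r
  · have h4 := abs_lt.mp h3
    rw [ind_pos h3, clip_of_abs_le h3.le, clip_of_abs_le (abs_le.mpr ⟨by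
      rcases h2 with h | h <;> linarith, by rcases h1 with h | h <;> linarith⟩)]
    have := sg_mul_self b
    linear_combination (2 * w) * this
  · rw [ind_neg h3]
    rw [not_lt, le_abs] at h3
    rcases h3 with h3 | h3
    · rw [clip_of_le hr.le h3, clip_of_le hr.le (by rcases h1 with h | h <;> linarith)]
      ring
    · have a1 := clip_neg hr.le (-l)
      have a2 := clip_neg hr.le (-(l - 2 * (w * sg b)))
      rw [neg_neg] at a1 a2
      rw [a1, a2, clip_of_le hr.le h3, clip_of_le hr.le (by rcases h2 with h | h <;> linarith)]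
      ring

/-- The degree one part of a halfspace on a regular tail is parallel to the weights. -/
lemma parallel (G : (ι → Bool) → Bool) (w : ι → ℝ) (θ : ℝ) (T : Finset ι) {r ρ : ℝ}
    (hr : 0 < r) (hρ : 0 < ρ) (hρr : 2 * ρ ≤ r)
    (hG : ∀ y, 0 < sg (G y) * (lin w y - θ))
    (h1 : ∑ j ∈ T, w j ^ 2 = 1) (h2 : ∀ j ∈ T, |w j| ≤ ρ) :
    ∃ β : ℝ, 0 ≤ β ∧ ∑ j ∈ T, (av (fun y => sg (G y) * sg (y j)) - β * w j) ^ 2
      ≤ 16 * r + 2 * (24 * ρ / r) ^ 2 := by
  set c : (ι → Bool) → ℝ := fun y => clip r (lin w y - θ) / r with hc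
  set P := av (fun y => ind (|lin w y - θ| < r)) with hP
  have hP0 : 0 ≤ P := av_nonneg fun y => ind_nonneg _
  have hP1 : P ≤ 2 * r := by
    have := anti_reg w θ T (r := 2 * r) (ρ := ρ) (by positivity) (by linarith) h1 h2
    rwa [show 2 * r / 2 = r by ring] at this
  refine ⟨P / r, by positivity, ?_⟩
  have hA : ∑ j ∈ T, (av (fun y => sg (G y) * sg (y j)) - av (fun y => c y * sg (y j))) ^ 2
      ≤ 8 * r := by
    have hb := bessel (fun y => sg (G y) - c y)
    have e : ∀ j, av (fun y => sg (G y) * sg (y j)) - av (fun y => c y * sg (y j))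
        = av (fun y => (sg (G y) - c y) * sg (y j)) := by
      intro j; rw [← av_sub]; exact av_congr fun y => by ring
    simp only [e]
    refine (Finset.sum_le_sum_of_subset_of_nonneg (Finset.subset_univ T)
      fun i _ _ => sq_nonneg _).trans (hb.trans ?_)
    have : av (fun y => (sg (G y) - c y) ^ 2) ≤ av (fun y => 4 * ind (|lin w y - θ| < r)) := by
      refine av_mono fun y => ?_
      by_cases h : |lin w y - θ| < r
      · rw [ind_pos h]
        have a1 : |c y| ≤ 1 := by
          simp only [hc]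
          rw [abs_div, abs_of_pos hr, div_le_one hr]
          exact abs_clip_le hr.le _
        have a2 := abs_le.mp a1
        have a3 := abs_le.mp (abs_sg (G y)).le
        nlinarith
      · rw [ind_neg h]
        have a := hG y
        rw [not_lt, le_abs] at h
        have : c y = sg (G y) := by
          simp only [hc]
          cases hy : G y <;> simp only [hy, sg_true, sg_false] at a ⊢
          · have a1 := clip_neg hr.le (-(lin w y - θ))
            rw [neg_neg] at a1
            rw [a1, clip_of_le hr.le (by rcases h with h | h <;> linarith)]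
            field_simp
          · rw [clip_of_le hr.le (by rcases h with h | h <;> linarith)]
            field_simp
        rw [this]; simp
    rw [av_mul] at this
    linarith
  have hB : ∀ j ∈ T, (av (fun y => c y * sg (y j)) - P / r * w j) ^ 2
      ≤ (24 * ρ / r) ^ 2 * w j ^ 2 := by
    intro j hj
    have b1 := anti_reg w (θ + r) T (r := 6 * ρ) (ρ := ρ) (by positivity) (by linarith) h1 h2
    have b2 := anti_reg w (θ - r) T (r := 6 * ρ) (ρ := ρ) (by positivity) (by linarith) h1 h2
    have e : av (fun y => c y * sg (y j)) - P / r * w j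
        = av (fun y => (clip r (lin w y - θ) - clip r (lin w y - θ - 2 * (w j * sg (y j))))
          * sg (y j) - 2 * w j * ind (|lin w y - θ| < r)) / (2 * r) := by
      rw [av_mul_sg, av_sub, av_mul, ← hP]
      have : av (fun y => (c y - c (flip j y)) * sg (y j))
          = av (fun y => (clip r (lin w y - θ) - clip r (lin w y - θ - 2 * (w j * sg (y j))))
            * sg (y j)) / r := by
        rw [← av_div]
        refine av_congr fun y => ?_
        simp only [hc, lin_flip]
        rw [show lin w y - 2 * (w j * sg (y j)) - θ = lin w y - θ - 2 * (w j * sg (y j)) by ring]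
        ring
      rw [this]
      field_simp
    have b3 : |av (fun y => c y * sg (y j)) - P / r * w j| ≤ 24 * ρ / r * |w j| := by
      rw [e, abs_div, abs_of_pos (show 0 < 2 * r by positivity), div_le_iff₀ (by positivity)]
      have hstep : ∀ y : ι → Bool, |(clip r (lin w y - θ)
          - clip r (lin w y - θ - 2 * (w j * sg (y j)))) * sg (y j)
          - 2 * w j * ind (|lin w y - θ| < r)| ≤ 4 * |w j| *
          (ind (|lin w y - θ - r| < 6 * ρ / 2) + ind (|lin w y - θ + r| < 6 * ρ / 2)) :=
        fun y => clip_step hr (y j) (h2 j hj)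
      refine (av_abs _).trans ((av_mono hstep).trans ?_)
      rw [av_mul, av_add]
      simp only [show ∀ y, lin w y - θ - r = lin w y - (θ + r) from fun y => by ring,
        show ∀ y, lin w y - θ + r = lin w y - (θ - r) from fun y => by ring]
      have : 24 * ρ / r * |w j| * (2 * r) = 4 * |w j| * (6 * ρ + 6 * ρ) := by
        field_simp; ring
      rw [this]
      exact mul_le_mul_of_nonneg_left (add_le_add b1 b2) (by positivity)
    rw [← sq_abs, ← sq_abs (w j), ← mul_pow]
    exact pow_le_pow_left₀ (abs_nonneg _) b3 2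
  have hB' := Finset.sum_le_sum hB
  rw [← Finset.mul_sum, h1, mul_one] at hB'
  calc ∑ j ∈ T, (av (fun y => sg (G y) * sg (y j)) - P / r * w j) ^ 2
      ≤ ∑ j ∈ T, (2 * (av (fun y => sg (G y) * sg (y j)) - av (fun y => c y * sg (y j))) ^ 2
        + 2 * (av (fun y => c y * sg (y j)) - P / r * w j) ^ 2) :=
        Finset.sum_le_sum fun j _ => by
          nlinarith [sq_nonneg (av (fun y => sg (G y) * sg (y j))
            - 2 * av (fun y => c y * sg (y j)) + P / r * w j)]
    _ ≤ 16 * r + 2 * (24 * ρ / r) ^ 2 := by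
        rw [Finset.sum_add_distrib, ← Finset.mul_sum, ← Finset.mul_sum]
        linarith

end Pool.Agent.Lib.MP_cd40e2_lc.Poly
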