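import Mathlib
import Pool.Agent.Lib.MP_cd40e2_lc.PolyA

set_option autoImplicit false

open Finset

namespace Pool.Agent.Lib.MP_cd40e2_lc.Poly

variable {ι : Type*} [Fintype ι] [DecidableEq ι]

lemma lin_mix (c : ι → ℝ) (D : Finset ι) (z y : ι → Bool) :
    lin c (mix D z y) = lin (fun j => if j ∈ D then 0 else c j) y + ∑ j ∈ D, c j * sg (z j) := by
  simp only [lin]
  rw [← Fintype.sum_ite_mem D (fun j => c j * sg (z j)), ← Finset.sum_add_distrib]
  refine Finset.sum_congr rfl fun j _ => ?_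
  by_cases h : j ∈ D <;> simp [mix, h]

omit [DecidableEq ι] in
lemma lin_add (a b : ι → ℝ) (y : ι → Bool) : lin (fun j => a j + b j) y = lin a y + lin b y := by
  simp only [lin, add_mul, Finset.sum_add_distrib]

omit [DecidableEq ι] in
lemma lin_smul (c : ℝ) (a : ι → ℝ) (y : ι → Bool) : lin (fun j => c * a j) y = c * lin a y := by
  simp only [lin, Finset.mul_sum, mul_assoc]

lemma amgm {a c : ℝ} (hc : 0 < c) : |a| ≤ (a ^ 2 / c + c) / 2 := by
  rw [← sq_abs a, le_div_iff₀ two_pos, div_add' _ _ _ hc.ne', le_div_iff₀ hc]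
  nlinarith [sq_nonneg (|a| - c)]

lemma clip_of_ge {r s : ℝ} (hr : 0 ≤ r) (h : s ≤ -r) : clip r s = -r := by
  unfold clip
  rw [min_eq_right (by linarith), max_eq_left h]

omit [Fintype ι] [DecidableEq ι] in
lemma sum_abs_le (D : Finset ι) (a : ι → ℝ) {c A B : ℝ} (hc : 0 < c)
    (hA : ∑ j ∈ D, a j ^ 2 ≤ A * c) (hB : (#D : ℝ) * c ≤ B) : ∑ j ∈ D, |a j| ≤ (A + B) / 2 := by
  refine (Finset.sum_le_sum fun j _ => amgm hc).trans ?_
  rw [← Finset.sum_div, Finset.sum_add_distrib, ← Finset.sum_div, Finset.sum_const, nsmul_eq_mul]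
  have : (∑ j ∈ D, a j ^ 2) / c ≤ A := by rwa [div_le_iff₀ hc]
  linarith

lemma coef_close (F G : (ι → Bool) → Bool) :
    ∑ j, (av (fun y => sg (G y) * sg (y j)) - av (fun y => sg (F y) * sg (y j))) ^ 2
      ≤ 4 * av (fun y => ind (F y ≠ G y)) := by
  have hb := bessel (fun y => sg (G y) - sg (F y))
  have e : ∀ j, av (fun y => sg (G y) * sg (y j)) - av (fun y => sg (F y) * sg (y j))
      = av (fun y => (sg (G y) - sg (F y)) * sg (y j)) := by
    intro j; rw [← av_sub]; exact av_congr fun y => by ring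
  simp only [e]
  refine hb.trans ?_
  rw [← av_mul]
  refine av_mono fun y => ?_
  by_cases h : F y = G y
  · rw [h, ind_neg (by simp)]; simp
  · rw [ind_pos h]
    cases G y <;> cases F y <;> norm_num [sg]

/-- The conclusion of the structure lemma. -/
def Good (x : ℝ) (F : (ι → Bool) → Bool) (H : Finset ι) (u : ι → ℝ) : Prop :=
  ∃ (t : ι → ℝ) (θ : ℝ), (∀ j, j ∉ H → t j = 0) ∧
    av (fun y => ind (sg (F y) * (clip (1 / x) (lin t y - θ) + lin u y) ≤ 2 * x ^ 3)) ≤ 80 * x

lemma cheb_u {x : ℝ} (hx : 0 < x) (u : ι → ℝ) (hu : ∑ j, u j ^ 2 ≤ 1 / x) :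
    av (fun y => ind (1 / (2 * x) ≤ |lin u y|)) ≤ 4 * x := by
  refine (cheb u (by positivity)).trans ?_
  rw [div_le_iff₀ (by positivity)]
  refine hu.trans (le_of_eq ?_)
  field_simp
  norm_num

lemma finish_junta {x : ℝ} (hx : 0 < x) (hx1 : x ≤ 1 / 1000) (F G : (ι → Bool) → Bool)
    (H D : Finset ι) (u : ι → ℝ) (hu : ∑ j, u j ^ 2 ≤ 1 / x)
    (hFG : av (fun y => ind (F y ≠ G y)) ≤ x)
    (hD : av (fun z => av (fun y => ind (G y ≠ G (mix D z y)))) ≤ 5 * x)
    (hd : ι → ℝ) (θ : ℝ) (hhd : ∀ j, j ∉ H → j ∉ D → hd j = 0)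
    (h1 : av (fun y => ind (G y ≠ decide (θ ≤ lin hd y))) ≤ 3 * x) : Good x F H u := by
  rw [← av_mix D (fun y => ind (G y ≠ decide (θ ≤ lin hd y)))] at h1
  have h2 := add_le_add hD h1
  rw [← av_add] at h2
  obtain ⟨z, hz⟩ := exists_le_av (fun z => av (fun y => ind (G y ≠ G (mix D z y)))
    + av (fun y => ind (G (mix D z y) ≠ decide (θ ≤ lin hd (mix D z y)))))
  have hz2 := hz.trans h2
  set t0 : ι → ℝ := fun j => if j ∈ D then 0 else hd j with ht0
  set c := ∑ j ∈ D, hd j * sg (z j) with hc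
  obtain ⟨θ', δ, hδ, hgap⟩ := exists_gap (lin t0) (θ - c)
  refine ⟨fun j => 1 / (x * δ) * t0 j, 1 / (x * δ) * θ', fun j hj => ?_, ?_⟩
  · by_cases h : j ∈ D
    · simp [ht0, h]
    · simp [ht0, h, hhd j hj h]
  have hc4 := cheb_u hx u hu
  have hsum : av (fun y => ind (F y ≠ G y) + (ind (G y ≠ G (mix D z y))
      + (ind (G (mix D z y) ≠ decide (θ ≤ lin hd (mix D z y)))
      + ind (1 / (2 * x) ≤ |lin u y|)))) ≤ 80 * x := by
    rw [av_add, av_add, av_add]; linarith
  refine le_trans (av_mono fun y => ?_) hsum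
  refine (ind_or2 (Q := F y ≠ G y) (R := G y ≠ G (mix D z y) ∨
    G (mix D z y) ≠ decide (θ ≤ lin hd (mix D z y)) ∨ 1 / (2 * x) ≤ |lin u y|) ?_).trans
    (add_le_add le_rfl ((ind_or2 id).trans (add_le_add le_rfl (ind_or2 id))))
  intro hb
  by_contra hcon
  simp only [not_or, not_not, not_le] at hcon
  obtain ⟨a1, a2, a3, a4⟩ := hcon
  rw [lin_smul, ← mul_sub, a1, a2, a3, lin_mix] at hb
  have a5 := abs_lt.mp a4
  have hx3 : 2 * x ^ 3 < 1 / (2 * x) := by
    rw [lt_div_iff₀ (by positivity)]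
    have : x ^ 4 ≤ (1 / 1000) ^ 4 := pow_le_pow_left₀ hx.le hx1 4
    nlinarith
  have e2 : 1 / x = 1 / (2 * x) + 1 / (2 * x) := by field_simp; norm_num
  have hxi : 0 ≤ 1 / x := by positivity
  have e3 : 1 / (x * δ) * δ = 1 / x := by field_simp
  have hk : 0 < 1 / (x * δ) := by positivity
  by_cases h : θ - c ≤ lin t0 y
  · have b1 := mul_le_mul_of_nonneg_left ((hgap y).1 h) hk.le
    rw [clip_of_le hxi (by linarith), decide_eq_true (by linarith), sg_true] at hb
    linarith
  · have b1 := mul_le_mul_of_nonneg_left ((hgap y).2 h) hk.le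
    rw [clip_of_ge hxi (by linarith), decide_eq_false (by intro h'; exact h (by linarith)), sg_false] at hb
    linarith

lemma finish_reg {x : ℝ} (hx : 0 < x) (hx1 : x ≤ 1 / 1000) (F G : (ι → Bool) → Bool)
    (H D T : Finset ι) (hT : ∀ j, j ∈ T ↔ j ∉ H ∧ j ∉ D) (hDH : ∀ j ∈ D, j ∉ H)
    (u : ι → ℝ) (hu : ∑ j, u j ^ 2 ≤ 1 / x)
    (hFG : av (fun y => ind (F y ≠ G y)) ≤ x)
    (hD : av (fun z => av (fun y => ind (G y ≠ G (mix D z y)))) ≤ 5 * x)
    (w : ι → ℝ) (θ β : ℝ) (hG : ∀ y, 0 < sg (G y) * (lin w y - θ))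
    (h1 : ∑ j ∈ T, w j ^ 2 = 1) (h2 : ∀ j ∈ T, |w j| ≤ x ^ 11) (hβ : x ^ 2 ≤ β)
    (h3 : ∑ j ∈ D, u j ^ 2 ≤ x ^ 7) (h4 : ∑ j ∈ T, (β * w j - u j) ^ 2 ≤ 55 * x ^ 7) :
    Good x F H u := by
  obtain ⟨z, hz⟩ := exists_le_av (fun z => av (fun y => ind (G y ≠ G (mix D z y))))
  have hz2 := hz.trans hD
  set w' : ι → ℝ := fun j => if j ∈ D then 0 else w j with hw'
  set c := ∑ j ∈ D, w j * sg (z j) with hc
  set t : ι → ℝ := fun j => if j ∈ H then β * w j - u j else 0 with ht
  set e : ι → ℝ := fun j => if j ∈ H then 0 else β * w' j - u j with he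
  have hlin : ∀ y, β * lin w' y = lin t y + lin u y + lin e y := by
    intro y
    rw [← lin_smul, ← lin_add, ← lin_add]
    congr 1
    funext j
    by_cases h : j ∈ H
    · have : j ∉ D := fun h' => hDH j h' h
      simp [ht, he, hw', h, this]
    · simp [ht, he, h]
  have hwT : ∀ j ∈ T, w' j = w j := fun j hj => by simp [hw', ((hT j).1 hj).2]
  have he2 : ∑ j, e j ^ 2 ≤ 56 * x ^ 7 := by
    have : ∀ j, e j ^ 2 = (if j ∈ D then u j ^ 2 else 0)
        + (if j ∈ T then (β * w j - u j) ^ 2 else 0) := by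
      intro j
      by_cases h : j ∈ H
      · have a : j ∉ D := fun h' => hDH j h' h
        have b : j ∉ T := fun h' => ((hT j).1 h').1 h
        simp [he, h, a, b]
      · by_cases h' : j ∈ D
        · have b : j ∉ T := fun h'' => ((hT j).1 h'').2 h'
          simp [he, hw', h, h', b]
        · have b : j ∈ T := (hT j).2 ⟨h, h'⟩
          simp [he, hw', h, h', b]
    simp only [this, Finset.sum_add_distrib, Fintype.sum_ite_mem]
    linarith
  have hx10 : x ^ 11 ≤ x := by
    have : x ^ 11 ≤ x ^ 1 := pow_le_pow_of_le_one hx.le (by linarith) (by norm_num)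
    rwa [pow_one] at this
  have b1 := anti_reg w' (θ - c) T (r := 8 * x) (ρ := x ^ 11) (by positivity) (by linarith)
    (by rw [← h1]; exact Finset.sum_congr rfl fun j hj => by rw [hwT j hj])
    (fun j hj => by rw [hwT j hj]; exact h2 j hj)
  have b2 : av (fun y => ind (x ^ 3 ≤ |lin e y|)) ≤ 56 * x := by
    refine (cheb e (by positivity)).trans ?_
    rw [div_le_iff₀ (by positivity)]
    exact he2.trans (le_of_eq (by ring))
  have hc4 := cheb_u hx u hu
  refine ⟨t, β * (θ - c), fun j hj => by simp [ht, hj], ?_⟩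
  have hsum : av (fun y => ind (F y ≠ G y) + (ind (G y ≠ G (mix D z y))
      + (ind (|lin w' y - (θ - c)| < 8 * x / 2) + (ind (x ^ 3 ≤ |lin e y|)
      + ind (1 / (2 * x) ≤ |lin u y|))))) ≤ 80 * x := by
    rw [av_add, av_add, av_add, av_add]; linarith
  refine le_trans (av_mono fun y => ?_) hsum
  refine (ind_or2 (Q := F y ≠ G y) (R := G y ≠ G (mix D z y) ∨
    |lin w' y - (θ - c)| < 8 * x / 2 ∨ x ^ 3 ≤ |lin e y| ∨ 1 / (2 * x) ≤ |lin u y|) ?_).trans
    (add_le_add le_rfl ((ind_or2 id).trans (add_le_add le_rfl ((ind_or2 id).trans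
      (add_le_add le_rfl (ind_or2 id))))))
  intro hb
  by_contra hcon
  simp only [not_or, not_not, not_le, not_lt] at hcon
  obtain ⟨a1, a2, a3, a4, a5⟩ := hcon
  have g1 := hG (mix D z y)
  rw [lin_mix, ← a2, ← a1] at g1
  have g2 : 4 * x ≤ sg (F y) * (lin w' y - (θ - c)) := by
    have : |sg (F y) * (lin w' y - (θ - c))| = |lin w' y - (θ - c)| := by
      rw [abs_mul, abs_sg, one_mul]
    have g0 : 0 < sg (F y) * (lin w' y - (θ - c)) := by
      rw [show lin w' y - (θ - c) = lin w' y + c - θ by ring]; exact g1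
    rw [← this, abs_of_pos g0] at a3
    linarith
  have hβ0 : 0 < β := lt_of_lt_of_le (by positivity) hβ
  have g3 : 4 * x ^ 3 ≤ sg (F y) * ((lin t y - β * (θ - c)) + lin u y + lin e y) := by
    have : sg (F y) * ((lin t y - β * (θ - c)) + lin u y + lin e y)
        = β * (sg (F y) * (lin w' y - (θ - c))) := by
      have := hlin y
      linear_combination (-sg (F y)) * this
    rw [this]
    calc 4 * x ^ 3 = x ^ 2 * (4 * x) := by ring
      _ ≤ _ := mul_le_mul hβ g2 (by positivity) hβ0.le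
  have a4' := abs_lt.mp a4
  have a5' := abs_lt.mp a5
  have hx3 : 2 * x ^ 3 < 1 / (2 * x) := by
    rw [lt_div_iff₀ (by positivity)]
    have : x ^ 4 ≤ (1 / 1000) ^ 4 := pow_le_pow_left₀ hx.le hx1 4
    nlinarith
  have hx30 : 0 < x ^ 3 := by positivity
  have e2 : 1 / x = 1 / (2 * x) + 1 / (2 * x) := by field_simp; norm_num
  have hxi : 0 ≤ 1 / x := by positivity
  set Tt := lin t y - β * (θ - c)
  rcases le_total (1 / x) Tt with h | h
  · rw [clip_of_le hxi h] at hb
    cases hF : F y <;> simp only [hF, sg_true, sg_false] at hb g3 <;> linarith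
  rcases le_total Tt (-(1 / x)) with h' | h'
  · rw [clip_of_ge hxi h'] at hb
    cases hF : F y <;> simp only [hF, sg_true, sg_false] at hb g3 <;> linarith
  · rw [clip_of_abs_le (abs_le.mpr ⟨h', h⟩)] at hb
    cases hF : F y <;> simp only [hF, sg_true, sg_false] at hb g3 <;> linarith

lemma lin_split (w : ι → ℝ) (T : Finset ι) (y : ι → Bool) :
    lin w y = lin (fun j => if j ∈ T then 0 else w j) y
      + lin (fun j => if j ∈ T then w j else 0) y := by
  rw [← lin_add]
  congr 1
  funext j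
  by_cases h : j ∈ T <;> simp [h]

lemma differ {G : Bool} {a b θ : ℝ} (hG : 0 < sg G * (a + b - θ)) (h : G ≠ decide (θ ≤ a)) :
    |a + b - θ| ≤ |b| ∧ (sg G - sg (decide (θ ≤ a))) * b = 2 * |b| := by
  by_cases h1 : θ ≤ a
  · rw [decide_eq_true h1] at h ⊢
    have : G = false := by simpa using h
    subst this
    simp only [sg_true, sg_false] at hG ⊢
    rw [abs_of_neg (show a + b - θ < 0 by linarith), abs_of_neg (show b < 0 by linarith)]
    constructor <;> linarith
  · rw [decide_eq_false h1] at h ⊢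
    have : G = true := by simpa using h
    subst this
    simp only [sg_true, sg_false] at hG ⊢
    rw [not_le] at h1
    rw [abs_of_pos (show 0 < a + b - θ by linarith), abs_of_pos (show 0 < b by linarith)]
    constructor <;> linarith

lemma struct_norm {x : ℝ} (hx : 0 < x) (hx1 : x ≤ 1 / 1000) (F G : (ι → Bool) → Bool)
    (H K : Finset ι) (hK : (#K : ℝ) * x ^ 26 = 1)
    (u : ι → ℝ) (hu : ∑ j, u j ^ 2 ≤ 1 / x) (h3 : ∀ j, |u j| ≤ x ^ 27)
    (hFG : av (fun y => ind (F y ≠ G y)) ≤ x ^ 28)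
    (h2 : ∑ j ∈ Hᶜ, (av (fun y => sg (F y) * sg (y j)) - u j) ^ 2 ≤ x ^ 28)
    (hD : av (fun z => av (fun y => ind (G y ≠ G (mix (K \ H) z y)))) ≤ 5 * x)
    (w : ι → ℝ) (θ : ℝ) (hG : ∀ y, 0 < sg (G y) * (lin w y - θ))
    (htop : ∀ i ∈ K, ∀ j ∈ (H ∪ K)ᶜ, w j ≠ 0 → |w j| ≤ |w i|)
    (h1 : ∑ j ∈ (H ∪ K)ᶜ, w j ^ 2 = 1) : Good x F H u := by
  set T := (H ∪ K)ᶜ with hTdef
  set D := K \ H with hDdef
  have hT : ∀ j, j ∈ T ↔ j ∉ H ∧ j ∉ D := by
    intro j; simp only [hTdef, hDdef, Finset.mem_compl, Finset.mem_union, Finset.mem_sdiff]; tauto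
  have hDH : ∀ j ∈ D, j ∉ H := fun j hj => (Finset.mem_sdiff.mp hj).2
  have hpw : ∀ a b : ℕ, a ≤ b → x ^ b ≤ x ^ a := fun a b h =>
    pow_le_pow_of_le_one hx.le (by linarith) h
  have hx28 : x ^ 28 ≤ x := by simpa using hpw 1 28 (by norm_num)
  set hd : ι → ℝ := fun j => if j ∈ T then 0 else w j with hhd
  set tl : ι → ℝ := fun j => if j ∈ T then w j else 0 with htl
  have hsp : ∀ y, lin w y = lin hd y + lin tl y := lin_split w T
  have htl2 : ∑ j, tl j ^ 2 = 1 := by
    rw [← h1, ← Fintype.sum_ite_mem T]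
    exact Finset.sum_congr rfl fun j _ => by by_cases h : j ∈ T <;> simp [htl, h]
  have hfin : av (fun y => ind (G y ≠ decide (θ ≤ lin hd y))) ≤ 3 * x → Good x F H u :=
    finish_junta hx hx1 F G H D u hu (hFG.trans hx28) hD hd θ
      (fun j a b => by simp [hhd, (hT j).2 ⟨a, b⟩])
  have hx11 : 0 < x ^ 11 := by positivity
  by_cases hreg : ∀ j ∈ T, |w j| ≤ x ^ 11
  swap
  · push Not at hreg
    obtain ⟨j, hj, hjw⟩ := hreg
    apply hfin
    have a1 := anti_av w θ (r := 2 / x) (s := 1 / x ^ 2) (by positivity) (by positivity) (by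
      have b1 : ∑ i ∈ K, (x ^ 11) ^ 2 ≤ ∑ i ∈ K, clip (2 / x / 4) (w i) ^ 2 := by
        refine Finset.sum_le_sum fun i hi => ?_
        have b2 := htop i hi j hj (abs_pos.mp (hx11.trans hjw))
        have b3 : x ^ 11 ≤ 2 / x / 4 := by
          rw [div_div, le_div_iff₀ (by positivity)]
          have := hpw 0 12 (by norm_num)
          have e : x ^ 11 * (x * 4) = 4 * x * x ^ 11 := by ring
          nlinarith [hpw 0 11 (by norm_num)]
        rw [← sq_abs (clip _ _)]
        refine pow_le_pow_left₀ hx11.le ?_ 2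
        rcases le_total 0 (w i) with h | h
        · rw [abs_of_nonneg h] at b2
          refine le_trans ?_ (le_abs_self _)
          have := clip_mono (2 / x / 4) (show x ^ 11 ≤ w i by linarith)
          rwa [clip_of_abs_le (by rwa [abs_of_pos hx11])] at this
        · rw [abs_of_nonpos h] at b2
          refine le_trans ?_ (neg_le_abs _)
          have := clip_mono (2 / x / 4) (show w i ≤ -x ^ 11 by linarith)
          rw [clip_of_abs_le (s := -x ^ 11) (by rwa [abs_neg, abs_of_pos hx11])] at this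
          linarith
      refine le_trans (le_of_eq ?_) (b1.trans (Finset.sum_le_sum_of_subset_of_nonneg
        (Finset.subset_univ K) fun i _ _ => sq_nonneg _))
      rw [Finset.sum_const, nsmul_eq_mul]
      have : (#K : ℝ) = 1 / x ^ 26 := by rw [eq_div_iff (by positivity)]; exact hK
      rw [this]
      field_simp)
    have a2 := cheb tl (r := 1 / x) (by positivity)
    rw [htl2] at a2
    have e1 : 2 / x / (1 / x ^ 2) = 2 * x := by field_simp
    have e2 : 1 / (1 / x) ^ 2 = x ^ 2 := by field_simp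
    have e3 : 2 / x / 2 = 1 / x := by field_simp
    rw [e1, e3] at a1
    rw [e2] at a2
    have a3 : x ^ 2 ≤ x := by simpa using hpw 1 2 (by norm_num)
    have a4 := add_le_add a1 a2
    rw [← av_add] at a4
    refine le_trans (av_mono fun y => ind_or2 fun h => ?_) (a4.trans (by linarith))
    have g := hG y
    rw [hsp] at g ⊢
    have := (differ g h).1
    by_cases h' : |lin hd y + lin tl y - θ| < 1 / x
    · exact Or.inl h'
    · exact Or.inr ((not_lt.mp h').trans this)
  obtain ⟨β, hβ0, hβ⟩ := parallel G w θ T (r := x ^ 7) (ρ := x ^ 11) (by positivity) hx11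
    (by
      have : x ^ 11 = x ^ 7 * x ^ 4 := by ring
      have h4 : x ^ 4 ≤ x := by simpa using hpw 1 4 (by norm_num)
      have : 0 < x ^ 7 := by positivity
      nlinarith) hG h1 hreg
  have hx7 : 0 < x ^ 7 := by positivity
  have hβ' : ∑ j ∈ T, (av (fun y => sg (G y) * sg (y j)) - β * w j) ^ 2 ≤ 18 * x ^ 7 := by
    refine hβ.trans ?_
    have : (24 * x ^ 11 / x ^ 7) ^ 2 = 576 * x * x ^ 7 := by field_simp; norm_num
    rw [this]
    nlinarith
  by_cases hβ2 : x ^ 2 ≤ β
  · refine finish_reg hx hx1 F G H D T hT hDH u hu (hFG.trans hx28) hD w θ β hG h1 hreg hβ2 ?_ ?_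
    · have a1 : ∑ j ∈ D, u j ^ 2 ≤ ∑ _j ∈ K, (x ^ 27) ^ 2 := by
        refine (Finset.sum_le_sum_of_subset_of_nonneg Finset.sdiff_subset
          fun i _ _ => sq_nonneg _).trans (Finset.sum_le_sum fun j _ => ?_)
        rw [← sq_abs]
        exact pow_le_pow_left₀ (abs_nonneg _) (h3 j) 2
      rw [Finset.sum_const, nsmul_eq_mul] at a1
      have : (#K : ℝ) * (x ^ 27) ^ 2 = (#K * x ^ 26) * x ^ 28 := by ring
      rw [this, hK, one_mul] at a1
      exact a1.trans (hpw 7 28 (by norm_num))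
    · have a1 := (Finset.sum_le_sum_of_subset_of_nonneg (Finset.subset_univ T)
        fun i _ _ => sq_nonneg _).trans (coef_close F G)
      have a2 := (Finset.sum_le_sum_of_subset_of_nonneg (s := T) (t := Hᶜ)
        (fun j hj => Finset.mem_compl.mpr ((hT j).1 hj).1) fun i _ _ => sq_nonneg _).trans h2
      have a3 : 5 * x ^ 28 * 3 ≤ x ^ 7 := by
        have : x ^ 28 = x ^ 7 * x ^ 21 := by ring
        have h4 : x ^ 21 ≤ x := by simpa using hpw 1 21 (by norm_num)
        nlinarith
      calc ∑ j ∈ T, (β * w j - u j) ^ 2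
          ≤ ∑ j ∈ T, (3 * (av (fun y => sg (G y) * sg (y j)) - β * w j) ^ 2
            + 3 * (av (fun y => sg (G y) * sg (y j)) - av (fun y => sg (F y) * sg (y j))) ^ 2
            + 3 * (av (fun y => sg (F y) * sg (y j)) - u j) ^ 2) := by
            refine Finset.sum_le_sum fun j _ => ?_
            set a := av (fun y => sg (G y) * sg (y j)) - β * w j
            set b := av (fun y => sg (G y) * sg (y j)) - av (fun y => sg (F y) * sg (y j))
            set c := av (fun y => sg (F y) * sg (y j)) - u j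
            have : β * w j - u j = -a + b + c := by simp only [a, b, c]; ring
            rw [this]
            nlinarith [sq_nonneg (a + b), sq_nonneg (a + c), sq_nonneg (b - c)]
        _ ≤ 55 * x ^ 7 := by
            rw [Finset.sum_add_distrib, Finset.sum_add_distrib, ← Finset.mul_sum,
              ← Finset.mul_sum, ← Finset.mul_sum]
            linarith
  · apply hfin
    rw [not_le] at hβ2
    have hx2 : 0 < x ^ 2 := by positivity
    have a1 : av (fun y => sg (G y) * lin tl y) ≤ 2 * x ^ 2 := by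
      rw [av_mul_lin]
      have e : ∑ j, tl j * av (fun y => sg (G y) * sg (y j))
          = ∑ j ∈ T, w j * av (fun y => sg (G y) * sg (y j)) := by
        rw [← Fintype.sum_ite_mem T]
        exact Finset.sum_congr rfl fun j _ => by by_cases h : j ∈ T <;> simp [htl, h]
      rw [e]
      calc ∑ j ∈ T, w j * av (fun y => sg (G y) * sg (y j))
          ≤ ∑ j ∈ T, ((β + x ^ 2 / 2) * w j ^ 2
            + (av (fun y => sg (G y) * sg (y j)) - β * w j) ^ 2 / (2 * x ^ 2)) := by
            refine Finset.sum_le_sum fun j _ => ?_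
            set a := av (fun y => sg (G y) * sg (y j)) - β * w j with ha
            have e1 : av (fun y => sg (G y) * sg (y j)) = a + β * w j := by rw [ha]; ring
            rw [e1]
            have : w j * a ≤ x ^ 2 / 2 * w j ^ 2 + a ^ 2 / (2 * x ^ 2) := by
              rw [add_div' _ _ _ (by positivity), le_div_iff₀ (by positivity)]
              nlinarith [sq_nonneg (x ^ 2 * w j - a)]
            nlinarith
        _ ≤ 2 * x ^ 2 := by
            rw [Finset.sum_add_distrib, ← Finset.mul_sum, ← Finset.sum_div, h1]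
            have : (∑ j ∈ T, (av (fun y => sg (G y) * sg (y j)) - β * w j) ^ 2) / (2 * x ^ 2)
                ≤ x ^ 2 / 2 := by
              rw [div_le_iff₀ (by positivity)]
              refine hβ'.trans ?_
              have e : x ^ 7 = x ^ 4 * x ^ 3 := by ring
              have h4 : x ^ 3 ≤ x := by simpa using hpw 1 3 (by norm_num)
              have : 0 < x ^ 4 := by positivity
              nlinarith
            linarith
    have a2 : av (fun y => sg (decide (θ ≤ lin hd y)) * lin tl y) = 0 := by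
      rw [av_mul_lin]
      refine Finset.sum_eq_zero fun j _ => ?_
      by_cases h : j ∈ T
      · rw [av_mul_sg_zero j (fun y => sg (decide (θ ≤ lin hd y))) (fun y => by
          simp [lin_flip, hhd, h]), mul_zero]
      · simp [htl, h]
    have a3 := anti_reg tl 0 T (r := 2 * x) (ρ := x ^ 11) (by positivity)
      (by
        have : x ^ 11 = x * x ^ 10 := by ring
        have h4 : x ^ 10 ≤ x := by simpa using hpw 1 10 (by norm_num)
        nlinarith)
      (by rw [← h1]; exact Finset.sum_congr rfl fun j hj => by simp [htl, hj])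
      (fun j hj => by simpa [htl, hj] using hreg j hj)
    have a4 : av (fun y => 2 * x * ind (G y ≠ decide (θ ≤ lin hd y)))
        ≤ av (fun y => (sg (G y) * lin tl y - sg (decide (θ ≤ lin hd y)) * lin tl y)
          + 2 * x * ind (|lin tl y - 0| < 2 * x / 2)) := by
      refine av_mono fun y => ?_
      have i0 := ind_nonneg (|lin tl y - 0| < 2 * x / 2)
      by_cases h : G y ≠ decide (θ ≤ lin hd y)
      · have g := hG y
        rw [hsp] at g
        have := (differ g h).2
        rw [ind_pos h, ← sub_mul, this]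
        by_cases h' : |lin tl y - 0| < 2 * x / 2
        · rw [ind_pos h']; linarith [abs_nonneg (lin tl y)]
        · rw [ind_neg h']; rw [sub_zero, not_lt] at h'; linarith
      · rw [ind_neg h, not_not.mp h]
        nlinarith
    rw [av_mul, av_add, av_sub, av_mul, a2] at a4
    have : 2 * x * av (fun y => ind (G y ≠ decide (θ ≤ lin hd y))) ≤ 2 * x * (3 * x) := by
      nlinarith
    exact le_of_mul_le_mul_left this (by positivity)

/-- The structure lemma. -/
theorem struct {x : ℝ} (hx : 0 < x) (hx1 : x ≤ 1 / 1000) (F G : (ι → Bool) → Bool)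
    (H : Finset ι) (N : ℕ) (hN : (N : ℝ) * x ^ 26 = 1) (hNc : N ≤ Fintype.card ι)
    (u : ι → ℝ) (hu : ∑ j, u j ^ 2 ≤ 1 / x) (h3 : ∀ j, |u j| ≤ x ^ 27)
    (hFG : av (fun y => ind (F y ≠ G y)) ≤ x ^ 28)
    (h2 : ∑ j ∈ Hᶜ, (av (fun y => sg (F y) * sg (y j)) - u j) ^ 2 ≤ x ^ 28)
    (W : ι → ℝ) (θ : ℝ) (hG : ∀ y, 0 < sg (G y) * (lin W y - θ)) : Good x F H u := by
  obtain ⟨K, hK, htop⟩ := exists_top (fun j => if j ∈ H then -1 else |W j|) N hNc
  have htop' : ∀ i ∈ K, ∀ j ∈ (H ∪ K)ᶜ, W j ≠ 0 → |W j| ≤ |W i| := by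
    intro i hi j hj h0
    rw [Finset.mem_compl, Finset.mem_union, not_or] at hj
    have := htop i hi j hj.2
    simp only [hj.1, if_false] at this
    split_ifs at this
    · linarith [abs_nonneg (W j)]
    · exact this
  have hKx : (#K : ℝ) * x ^ 26 = 1 := by rw [hK]; exact hN
  have hD : av (fun z => av (fun y => ind (G y ≠ G (mix (K \ H) z y)))) ≤ 5 * x := by
    refine (hybrid G _).trans ((Finset.sum_le_sum fun j _ => infl G W θ hG j).trans ?_)
    have hc : (#(K \ H) : ℝ) * x ^ 27 ≤ x := by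
      have : (#(K \ H) : ℝ) ≤ #K := by exact_mod_cast Finset.card_le_card Finset.sdiff_subset
      calc (#(K \ H) : ℝ) * x ^ 27 ≤ #K * x ^ 27 := by gcongr
        _ = (#K * x ^ 26) * x := by ring
        _ = x := by rw [hKx, one_mul]
    have a1 := sum_abs_le (K \ H)
      (fun j => av (fun y => sg (G y) * sg (y j)) - av (fun y => sg (F y) * sg (y j)))
      (c := x ^ 27) (A := 4 * x) (by positivity)
      (((Finset.sum_le_sum_of_subset_of_nonneg (Finset.subset_univ _)
        fun i _ _ => sq_nonneg _).trans (coef_close F G)).trans (by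
          have : 4 * x * x ^ 27 = 4 * x ^ 28 := by ring
          linarith)) hc
    have a2 := sum_abs_le (K \ H) (fun j => av (fun y => sg (F y) * sg (y j)) - u j)
      (c := x ^ 27) (A := x) (by positivity)
      (((Finset.sum_le_sum_of_subset_of_nonneg
        (fun j hj => Finset.mem_compl.mpr (Finset.mem_sdiff.mp hj).2)
        fun i _ _ => sq_nonneg _).trans h2).trans (le_of_eq (by ring))) hc
    have a3 : ∑ j ∈ K \ H, |u j| ≤ x := by
      refine (Finset.sum_le_sum fun j _ => h3 j).trans ?_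
      rwa [Finset.sum_const, nsmul_eq_mul]
    calc ∑ j ∈ K \ H, |av (fun y => sg (G y) * sg (y j))|
        ≤ ∑ j ∈ K \ H, (|av (fun y => sg (G y) * sg (y j)) - av (fun y => sg (F y) * sg (y j))|
          + |av (fun y => sg (F y) * sg (y j)) - u j| + |u j|) := by
          refine Finset.sum_le_sum fun j _ => le_trans (le_of_eq ?_) (abs_add_three _ _ _)
          congr 1; ring
      _ ≤ 5 * x := by
          rw [Finset.sum_add_distrib, Finset.sum_add_distrib]; linarith
  have h0 : 0 ≤ ∑ j ∈ (H ∪ K)ᶜ, W j ^ 2 := Finset.sum_nonneg fun j _ => sq_nonneg _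
  rcases h0.eq_or_lt with h | h
  · have hz := (Finset.sum_eq_zero_iff_of_nonneg fun j _ => sq_nonneg (W j)).mp h.symm
    have hx28 : x ^ 28 ≤ x := by
      simpa using pow_le_pow_of_le_one hx.le (by linarith) (show 1 ≤ 28 by norm_num)
    refine finish_junta hx hx1 F G H (K \ H) u hu (hFG.trans hx28) hD W θ (fun j a b => ?_) ?_
    · refine pow_eq_zero_iff two_ne_zero |>.mp (hz j ?_)
      simp only [Finset.mem_sdiff, not_and, not_not] at b
      simp only [Finset.mem_compl, Finset.mem_union, not_or]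
      exact ⟨a, fun h' => a (b h')⟩
    · refine (av_le_const fun y => ?_).trans (show 0 ≤ 3 * x by positivity)
      refine (ind_neg fun h' => ?_).le
      have g := hG y
      have := (differ (b := 0) (by rwa [add_zero]) h').1
      rw [add_zero, abs_zero, abs_nonpos_iff] at this
      rw [this, mul_zero] at g
      exact lt_irrefl _ g
  · set σ := √(∑ j ∈ (H ∪ K)ᶜ, W j ^ 2) with hσ
    have hσ0 : 0 < σ := Real.sqrt_pos.mpr h
    have hσ2 : σ ^ 2 = ∑ j ∈ (H ∪ K)ᶜ, W j ^ 2 := Real.sq_sqrt h0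
    have hi : 0 < 1 / σ := by positivity
    refine struct_norm hx hx1 F G H K hKx u hu h3 hFG h2 hD (fun j => 1 / σ * W j) (1 / σ * θ)
      (fun y => ?_) (fun i hi' j hj h' => ?_) ?_
    · rw [lin_smul, ← mul_sub, mul_left_comm]
      exact mul_pos hi (hG y)
    · rw [abs_mul, abs_mul]
      exact mul_le_mul_of_nonneg_left (htop' i hi' j hj (right_ne_zero_of_mul h')) (abs_nonneg _)
    · simp only [mul_pow]
      rw [← Finset.mul_sum, ← hσ2]
      field_simp

end Pool.Agent.Lib.MP_cd40e2_lc.Poly
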