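import Mathlib
import Pool.Agent.Lib.MP_cd40e2_lc.Restrict
import Pool.Agent.Lib.MP_cd40e2_lc.PolyS

set_option autoImplicit false

open Finset

namespace Pool.Agent.Lib.MP_cd40e2_lc.Poly

lemma av_mul_av {α β : Type*} [Fintype α] [Fintype β] (F : α → ℝ) (G : β → ℝ) :
    av F * av G = av (fun x => av (fun y => F x * G y)) := by
  simp only [av_mul, av_mul']

lemma av_lin_four {ι : Type*} [Fintype ι] [DecidableEq ι] (c : ι → ℝ) :
    av (fun y => lin c y ^ 4) ≤ 3 * (∑ j, c j ^ 2) ^ 2 := by
  have := (moments c univ).2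
  simp only [av, lin, card_cube]
  rw [div_le_iff₀ (by positivity)]
  linarith

lemma av_coord {ι α : Type*} [Fintype ι] [DecidableEq ι] [Fintype α] [Nonempty α] (i : ι)
    (ψ : α → ℝ) : av (fun u : ι → α => ψ (u i)) = av ψ := by
  have := av_equiv (Equiv.funSplitAt i α) (fun q => ψ q.1)
  rw [av_prod] at this
  simp only [av_const] at this
  exact this

/-- The function depends only on the coordinates in J. -/
def Dep {ι γ : Type*} (J : Finset ι) (φ : (ι → Bool) → γ) : Prop :=
  ∀ x x', (∀ i ∈ J, x i = x' i) → φ x = φ x'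

/-- The conditional average given the coordinates in J. -/
noncomputable def cond {ι : Type*} [Fintype ι] [DecidableEq ι] (J : Finset ι)
    (k : (ι → Bool) → ℝ) (y : ι → Bool) : ℝ := av (fun z => k (mix J y z))

section cond
variable {ι : Type*} [Fintype ι] [DecidableEq ι]

lemma dep_cond (J : Finset ι) (k : (ι → Bool) → ℝ) : Dep J (cond J k) := by
  intro x x' h
  unfold cond
  refine av_congr fun z => ?_
  congr 1
  funext i
  by_cases hi : i ∈ J
  · rw [mix_in _ _ hi, mix_in _ _ hi, h i hi]
  · rw [mix_out _ _ hi, mix_out _ _ hi]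

lemma cond_pair (J : Finset ι) (k V : (ι → Bool) → ℝ) (hV : Dep J V) :
    av (fun y => k y * V y) = av (fun y => cond J k y * V y) := by
  rw [← av_mix J (fun y => k y * V y)]
  refine av_congr fun y => ?_
  unfold cond
  rw [← av_mul']
  refine av_congr fun z => ?_
  rw [hV (mix J y z) y fun i hi => mix_in _ _ hi]

end cond

variable {n m : ℕ} [NeZero m]

omit [NeZero m] in
lemma card_seed : (Fintype.card (Fin n → Fin m × Bool) : ℝ) = (2 * m) ^ n := by
  simp [mul_comm]

lemma kernel_av (h : (Fin n → Bool) → ℝ) (y y' : Fin m → Bool) :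
    av (fun p : Fin n → Fin m × Bool => h (emb p y) * h (emb p y'))
      = ∑ S : Finset (Fin n), (tau y y' / m) ^ #S * (fc h S / 2 ^ n) ^ 2 := by
  have hm : 0 < m := Nat.pos_of_ne_zero (NeZero.ne m)
  have hk := kernel hm h y y'
  have h4 : (4:ℝ) ^ n = (2 ^ n) ^ 2 := by rw [sq, ← mul_pow]; norm_num
  have hU : (0:ℝ) < (2 * m) ^ n := by positivity
  have e : ∀ S : Finset (Fin n), (tau y y' / m) ^ #S * (fc h S / 2 ^ n) ^ 2
      = (tau y y' / m) ^ #S * fc h S ^ 2 / (2 ^ n) ^ 2 := fun S => by rw [div_pow (fc h S)]; ring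
  simp only [av, card_seed, e, ← Finset.sum_div]
  rw [div_eq_div_iff hU.ne' (by positivity), ← h4]
  linarith

lemma parseval_av (h : (Fin n → Bool) → ℝ) :
    ∑ S : Finset (Fin n), (fc h S / 2 ^ n) ^ 2 = av (fun x => h x ^ 2) := by
  simp only [div_pow, ← Finset.sum_div, parseval, av, card_cube, Fintype.card_fin]
  field_simp

lemma fc_empty (h : (Fin n → Bool) → ℝ) : fc h ∅ / 2 ^ n = av h := by
  simp [fc, av]

lemma fc_single (h : (Fin n → Bool) → ℝ) (i : Fin n) :
    fc h {i} / 2 ^ n = av (fun x => h x * sg (x i)) := by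
  simp [fc, av]

lemma rho_le (y y' : Fin m → Bool) : |tau y y' / m| ≤ 1 := by
  have hm : (0:ℝ) < m := by exact_mod_cast Nat.pos_of_ne_zero (NeZero.ne m)
  rw [abs_div, abs_of_pos hm, div_le_one hm]; exact abs_tau_le y y'

lemma kern1 (h : (Fin n → Bool) → ℝ) (h0 : av h = 0) (y y' : Fin m → Bool) :
    av (fun p : Fin n → Fin m × Bool => h (emb p y) * h (emb p y'))
      ≤ |tau y y'| / m * av (fun x => h x ^ 2) := by
  rw [kernel_av, ← parseval_av, Finset.mul_sum]
  refine Finset.sum_le_sum fun S _ => ?_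
  rcases S.eq_empty_or_nonempty with rfl | hS
  · rw [fc_empty, h0]; simp
  · refine mul_le_mul_of_nonneg_right ((le_abs_self _).trans ?_) (sq_nonneg _)
    rw [abs_pow]
    refine (pow_le_of_le_one (abs_nonneg _) (rho_le y y') (Finset.card_pos.mpr hS).ne').trans ?_
    rw [abs_div, Nat.abs_cast]

lemma kern2 (h : (Fin n → Bool) → ℝ) (h0 : av h = 0) (h1 : ∀ i, av (fun x => h x * sg (x i)) = 0)
    (y y' : Fin m → Bool) :
    tau y y' * av (fun p : Fin n → Fin m × Bool => h (emb p y) * h (emb p y'))
      ≤ |tau y y'| ^ 3 / m ^ 2 * av (fun x => h x ^ 2) := by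
  rw [kernel_av, ← parseval_av, Finset.mul_sum, Finset.mul_sum]
  refine Finset.sum_le_sum fun S _ => ?_
  by_cases hS : #S < 2
  · have : fc h S / 2 ^ n = 0 := by
      have hc : #S = 0 ∨ #S = 1 := by omega
      rcases hc with hc | hc
      · rw [Finset.card_eq_zero.mp hc, fc_empty, h0]
      · obtain ⟨i, rfl⟩ := Finset.card_eq_one.mp hc
        rw [fc_single, h1]
    simp [this]
  · rw [← mul_assoc]
    refine mul_le_mul_of_nonneg_right ((le_abs_self _).trans ?_) (sq_nonneg _)
    rw [abs_mul, abs_pow]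
    refine (mul_le_mul_of_nonneg_left (pow_le_pow_of_le_one (abs_nonneg _) (rho_le y y')
      (not_lt.mp hS)) (abs_nonneg _)).trans (le_of_eq ?_)
    rw [abs_div, Nat.abs_cast]
    ring

omit [NeZero m] in
lemma av_seed (F : (Fin n → Fin m × Bool) → ℝ) :
    av F = av (fun π : Fin n → Fin m => av (fun s : Fin n → Bool => F (fun i => (π i, s i)))) := by
  rw [← av_equiv (Equiv.arrowProdEquivProdArrow (Fin n) (fun _ => Fin m) (fun _ => Bool)).symm F,
    av_prod]
  rfl

lemma unif (k : (Fin n → Bool) → ℝ) (y : Fin m → Bool) :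
    av (fun p : Fin n → Fin m × Bool => k (emb p y)) = av k := by
  have hinv : Function.Involutive (fun p : Fin n → Fin m × Bool =>
      fun i => ((p i).1, ((p i).2 == y (p i).1))) := by
    intro p
    funext i
    ext
    · rfl
    · simp only []
      cases (p i).2 <;> cases y (p i).1 <;> rfl
  have h1 := av_equiv hinv.toPerm (fun p : Fin n → Fin m × Bool => k (fun i => (p i).2))
  rw [av_seed (fun p : Fin n → Fin m × Bool => k (fun i => (p i).2))] at h1
  simp only [av_const] at h1
  exact h1

lemma pair {i i' : Fin n} (h : i ≠ i') :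
    av (fun π : Fin n → Fin m => ind (π i = π i')) = 1 / m := by
  rw [← av_mix {i}, av_comm]
  refine (av_congr fun v => ?_).trans (av_const _)
  have e : ∀ u : Fin n → Fin m, ind (mix {i} u v i = mix {i} u v i') = ind (u i = v i') := by
    intro u
    rw [mix_in _ _ (Finset.mem_singleton_self i), mix_out _ _ (by simpa using h.symm)]
  simp only [e]
  rw [av_coord i (fun c => ind (c = v i'))]
  simp [av, ind_eq_ite]

/-- The weights induced on the blocks. -/
noncomputable def sk (a : Fin n → ℝ) (p : Fin n → Fin m × Bool) (j : Fin m) : ℝ :=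
  ∑ i, if (p i).1 = j then a i * sg (p i).2 else 0

omit [NeZero m] in
lemma lin_emb (a : Fin n → ℝ) (p : Fin n → Fin m × Bool) (y : Fin m → Bool) :
    lin a (emb p y) = lin (sk a p) y := by
  simp only [lin, sk, Finset.sum_mul]
  rw [Finset.sum_comm]
  refine Finset.sum_congr rfl fun i _ => ?_
  simp only [ite_mul, zero_mul, Finset.sum_ite_eq, Finset.mem_univ, if_true]
  rw [sg_emb, mul_assoc]

lemma sk_two (a : Fin n → ℝ) :
    av (fun p : Fin n → Fin m × Bool => ∑ j, sk a p j ^ 2) = ∑ i, a i ^ 2 := by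
  simp only [← av_lin_sq, ← lin_emb]
  rw [av_comm]
  simp only [unif (fun x => lin a x ^ 2), av_const]

lemma sk_four (a : Fin n → ℝ) {τ : ℝ} (h1 : ∑ i, a i ^ 2 ≤ 1) (h2 : ∀ i, a i ^ 2 ≤ τ) :
    av (fun p : Fin n → Fin m × Bool => ∑ j, sk a p j ^ 4) ≤ 3 * (τ * (∑ i, a i ^ 2) + 1 / m) := by
  have hm : (0:ℝ) < m := by exact_mod_cast Nat.pos_of_ne_zero (NeZero.ne m)
  rw [av_seed]
  have a1 : ∀ π : Fin n → Fin m,
      av (fun s : Fin n → Bool => ∑ j, sk a (fun i => (π i, s i)) j ^ 4)
      ≤ 3 * ∑ i, ∑ i', a i ^ 2 * a i' ^ 2 * ind (π i = π i') := by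
    intro π
    rw [av_sum]
    have b1 : ∀ j, av (fun s : Fin n → Bool => sk a (fun i => (π i, s i)) j ^ 4)
        ≤ 3 * (∑ i, (if π i = j then a i else 0) ^ 2) ^ 2 := by
      intro j
      refine le_trans (le_of_eq (av_congr fun s => ?_))
        (av_lin_four (fun i => if π i = j then a i else 0))
      simp only [sk, lin, ite_mul, zero_mul]
    refine (Finset.sum_le_sum fun j _ => b1 j).trans (le_of_eq ?_)
    rw [← Finset.mul_sum]
    congr 1
    simp only [sq (∑ i, _), Finset.sum_mul_sum]
    rw [Finset.sum_comm]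
    refine Finset.sum_congr rfl fun i _ => ?_
    rw [Finset.sum_comm]
    refine Finset.sum_congr rfl fun i' _ => ?_
    rw [Finset.sum_eq_single (π i)]
    · by_cases h : π i = π i'
      · simp [h, ind_pos]
      · rw [ind_neg h, if_neg (fun h' : π i' = π i => h h'.symm)]; simp
    · intro j _ hj
      rw [if_neg (fun h' : π i = j => hj h'.symm)]; simp
    · simp
  refine (av_mono a1).trans ?_
  rw [av_mul]
  refine mul_le_mul_of_nonneg_left ?_ (by norm_num)
  simp only [av_sum, av_mul]
  have h0 : 0 ≤ ∑ i, a i ^ 2 := Finset.sum_nonneg fun i _ => sq_nonneg _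
  calc ∑ i, ∑ i', a i ^ 2 * a i' ^ 2 * av (fun π : Fin n → Fin m => ind (π i = π i'))
      ≤ ∑ i, ∑ i', ((if i = i' then τ * a i ^ 2 else 0) + a i ^ 2 * a i' ^ 2 * (1 / m)) := by
        refine Finset.sum_le_sum fun i _ => Finset.sum_le_sum fun i' _ => ?_
        by_cases h : i = i'
        · subst h
          rw [if_pos rfl, av_congr (fun π : Fin n → Fin m => ind_pos (P := π i = π i) rfl),
            av_const]
          have : 0 ≤ a i ^ 2 * a i ^ 2 * (1 / (m:ℝ)) := by positivity
          nlinarith [h2 i, sq_nonneg (a i)]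
        · rw [if_neg h, pair h, zero_add]
    _ = τ * (∑ i, a i ^ 2) + (∑ i, a i ^ 2) * (∑ i, a i ^ 2) * (1 / m) := by
        simp only [Finset.sum_add_distrib, Finset.sum_ite_eq, Finset.mem_univ, if_true]
        rw [Finset.sum_mul_sum, Finset.mul_sum, Finset.sum_mul]
        simp only [Finset.sum_mul]
    _ ≤ _ := by
        have : (∑ i, a i ^ 2) * (∑ i, a i ^ 2) ≤ 1 := by nlinarith
        have h3 : 0 < 1 / (m:ℝ) := by positivity
        nlinarith

lemma deg_one {M : ℝ} (hM : 0 < M) (hmM : (m:ℝ) = M * M) (h : (Fin n → Bool) → ℝ)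
    (h0 : av h = 0) (h1 : ∀ i, av (fun x => h x * sg (x i)) = 0) :
    av (fun p : Fin n → Fin m × Bool => ∑ j, av (fun y => h (emb p y) * sg (y j)) ^ 2)
      ≤ 2 / M * av (fun x => h x ^ 2) := by
  have e : ∀ p : Fin n → Fin m × Bool, ∑ j, av (fun y => h (emb p y) * sg (y j)) ^ 2
      = av (fun y => av (fun y' => tau y y' * (h (emb p y) * h (emb p y')))) := by
    intro p
    simp only [sq, av_mul_av, ← av_sum, tau, Finset.sum_mul]
    exact av_congr fun y => av_congr fun y' => Finset.sum_congr rfl fun j _ => by ring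
  simp only [e]
  rw [av_comm]
  refine av_le_const fun y => ?_
  rw [av_comm]
  simp only [av_mul]
  refine (av_mono fun y' => kern2 h h0 h1 y y').trans ?_
  rw [av_mul']
  refine mul_le_mul_of_nonneg_right ?_ (av_nonneg fun x => sq_nonneg _)
  rw [av_div, div_le_iff₀ (by rw [hmM]; positivity)]
  have t2 := av_lin_sq (fun j => sg (y j))
  have t4 := av_lin_four (fun j => sg (y j))
  simp only [sg_sq, Finset.sum_const, Finset.card_univ, Fintype.card_fin, nsmul_eq_mul,
    mul_one] at t2 t4
  have a1 : av (fun y' => |tau y y'| ^ 3) ≤ av (fun y' => M / 2 * lin (fun j => sg (y j)) y' ^ 2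
      + 1 / (2 * M) * lin (fun j => sg (y j)) y' ^ 4) := by
    refine av_mono fun y' => ?_
    change |lin (fun j => sg (y j)) y'| ^ 3 ≤ _
    set a := lin (fun j => sg (y j)) y'
    rw [← sq_abs a, show a ^ 4 = |a| ^ 4 by rw [show (4:ℕ) = 2 * 2 by norm_num, pow_mul, pow_mul,
      sq_abs]]
    have : 0 ≤ 1 / (2 * M) * (|a| * (|a| - M)) ^ 2 := by positivity
    have e : 1 / (2 * M) * (|a| * (|a| - M)) ^ 2
        = M / 2 * |a| ^ 2 + 1 / (2 * M) * |a| ^ 4 - |a| ^ 3 := by field_simp; ring
    linarith
  rw [av_add, av_mul, av_mul, t2] at a1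
  refine a1.trans ((add_le_add le_rfl (mul_le_mul_of_nonneg_left t4 (by positivity))).trans
    (le_of_eq ?_))
  rw [hmM]
  field_simp
  ring

/-- The blocks met by J. -/
def img (J : Finset (Fin n)) (p : Fin n → Fin m × Bool) : Finset (Fin m) :=
  J.image fun i => (p i).1

/-- The conditional energy of h on the random subcube given the blocks met by J. -/
noncomputable def Qf (J : Finset (Fin n)) (h : (Fin n → Bool) → ℝ) (p : Fin n → Fin m × Bool) :
    ℝ := av (fun y => cond (img J p) (fun y => h (emb p y)) y ^ 2)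

omit [NeZero m] in
lemma dep_emb {γ : Type*} {J : Finset (Fin n)} {φ : (Fin n → Bool) → γ} (hφ : Dep J φ)
    (p : Fin n → Fin m × Bool) : Dep (img J p) (fun y => φ (emb p y)) := by
  intro y y' h
  refine hφ _ _ fun i hi => ?_
  simp only [emb]
  rw [h _ (Finset.mem_image_of_mem _ hi)]

lemma Qf_bound {M : ℝ} (hM : 0 < M) (hmM : (m:ℝ) = M * M) (J : Finset (Fin n))
    (h : (Fin n → Bool) → ℝ) (h0 : ∀ a, cond J h a = 0) :
    av (fun p : Fin n → Fin m × Bool => Qf J h p) ≤ (#J + M) / m * av (fun x => h x ^ 2) := by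
  have hm : (0:ℝ) < m := by rw [hmM]; positivity
  have e : ∀ p : Fin n → Fin m × Bool, Qf J h p
      = av (fun y => av (fun z => h (emb p y) * h (emb p (mix (img J p) y z)))) := by
    intro p
    unfold Qf
    simp only [sq]
    rw [← cond_pair _ _ _ (dep_cond _ _)]
    refine av_congr fun y => ?_
    rw [av_mul]
    rfl
  simp only [e]
  rw [← av_mix J]
  have e2 : ∀ (p0 p : Fin n → Fin m × Bool) (y z : Fin m → Bool),
      h (emb (mix J p0 p) y) * h (emb (mix J p0 p) (mix (img J (mix J p0 p)) y z))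
      = h (mix J (emb p0 y) (emb p y)) * h (mix J (emb p0 y) (emb p (mix (img J p0) y z))) := by
    intro p0 p y z
    have a1 : img J (mix J p0 p) = img J p0 :=
      Finset.image_congr fun i hi => by simp only [mix_in _ _ (Finset.mem_coe.mp hi)]
    rw [a1]
    congr 2
    · funext i
      by_cases hi : i ∈ J <;> simp [emb, mix, hi]
    · funext i
      by_cases hi : i ∈ J
      · have : (p0 i).1 ∈ img J p0 := Finset.mem_image_of_mem _ hi
        simp [emb, mix, hi, this]
      · simp [emb, mix, hi]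
  simp only [e2]
  have a2 : ∀ (p0 : Fin n → Fin m × Bool),
      av (fun p : Fin n → Fin m × Bool => av (fun y => av (fun z =>
        h (mix J (emb p0 y) (emb p y)) * h (mix J (emb p0 y) (emb p (mix (img J p0) y z))))))
      ≤ av (fun y => (#J + M) / m * av (fun x => h (mix J (emb p0 y) x) ^ 2)) := by
    intro p0
    rw [av_comm]
    refine av_mono fun y => ?_
    rw [av_comm]
    refine (av_mono fun z => kern1 (fun x => h (mix J (emb p0 y) x)) (h0 _) y
      (mix (img J p0) y z)).trans ?_
    rw [av_mul', av_div]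
    refine mul_le_mul_of_nonneg_right (div_le_div_of_nonneg_right ?_ hm.le)
      (av_nonneg fun x => sq_nonneg _)
    set c : Fin m → ℝ := fun j => if j ∈ img J p0 then 0 else sg (y j) with hc
    have b1 : ∀ z, |tau y (mix (img J p0) y z)| ≤ #J + (lin c z ^ 2 / M + M) / 2 := by
      intro z
      change |lin (fun j => sg (y j)) (mix (img J p0) y z)| ≤ _
      rw [lin_mix]
      simp only [sg_mul_self, Finset.sum_const, nsmul_eq_mul, mul_one]
      have b2 : (#(img J p0) : ℝ) ≤ #J := by exact_mod_cast Finset.card_image_le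
      refine (abs_add_le _ _).trans ?_
      rw [Nat.abs_cast]
      linarith [amgm (a := lin c z) hM]
    refine (av_mono b1).trans ?_
    rw [av_add, av_const, av_div, av_add, av_const, av_div, av_lin_sq]
    have b3 : ∑ j, c j ^ 2 ≤ m := by
      have : ∑ j, c j ^ 2 ≤ ∑ _j : Fin m, (1:ℝ) := Finset.sum_le_sum fun j _ => by
        by_cases hj : j ∈ img J p0 <;> simp [hc, hj, sg_sq]
      simpa using this
    have : (∑ j, c j ^ 2) / M ≤ M := by rw [div_le_iff₀ hM]; linarith
    linarith
  refine (av_mono a2).trans (le_of_eq ?_)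
  rw [av_comm]
  simp only [av_mul, unif (fun a => av (fun x => h (mix J a x) ^ 2)), av_const]
  rw [av_mix J (fun x => h x ^ 2)]

omit [NeZero m] in
lemma inj_transfer (p : Fin n → Fin m × Bool) (J : Finset (Fin n)) :
    ∀ φ : (Fin n → Bool) → ℝ, Dep J φ → (∀ i ∈ J, ∀ i' ∈ J, (p i).1 = (p i').1 → i = i') →
      av (fun y => φ (emb p y)) = av φ := by
  induction J using Finset.induction_on with
  | empty =>
    intro φ hφ _
    have : ∀ x, φ x = φ (fun _ => true) := fun x => hφ _ _ (by simp)
    rw [av_congr this, av_congr (fun y => this (emb p y)), av_const, av_const]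
  | insert i0 J hi0 ih =>
    intro φ hφ hinj
    have hd : Dep J (fun x => (φ x + φ (flip i0 x)) / 2) := by
      intro x x' h
      have hne : ∀ i ∈ J, i ≠ i0 := fun i hi h' => hi0 (h' ▸ hi)
      by_cases h0 : x i0 = x' i0
      · have a1 : φ x = φ x' := hφ _ _ fun i hi => by
          rcases Finset.mem_insert.mp hi with rfl | hi
          · exact h0
          · exact h i hi
        have a2 : φ (flip i0 x) = φ (flip i0 x') := hφ _ _ fun i hi => by
          rcases Finset.mem_insert.mp hi with rfl | hi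
          · rw [flip_self, flip_self, h0]
          · rw [flip_ne (hne i hi), flip_ne (hne i hi), h i hi]
        simp only [a1, a2]
      · have a1 : φ x = φ (flip i0 x') := hφ _ _ fun i hi => by
          rcases Finset.mem_insert.mp hi with rfl | hi
          · rw [flip_self]; revert h0; cases x i <;> cases x' i <;> simp
          · rw [flip_ne (hne i hi), h i hi]
        have a2 : φ (flip i0 x) = φ x' := hφ _ _ fun i hi => by
          rcases Finset.mem_insert.mp hi with rfl | hi
          · rw [flip_self]; revert h0; cases x i <;> cases x' i <;> simp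
          · rw [flip_ne (hne i hi), h i hi]
        simp only [a1, a2, add_comm]
    have h1 := ih _ hd fun i hi i' hi' =>
      hinj i (Finset.mem_insert_of_mem hi) i' (Finset.mem_insert_of_mem hi')
    rw [av_div, av_div, av_add, av_add, av_flip] at h1
    have h2 : av (fun y => φ (flip i0 (emb p y))) = av (fun y => φ (emb p y)) := by
      rw [← av_flip (p i0).1 (fun y => φ (emb p y))]
      refine av_congr fun y => hφ _ _ fun i hi => ?_
      by_cases h : i = i0
      · subst h
        rw [flip_self]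
        simp only [emb, flip_self]
        cases (p i).2 <;> cases y (p i).1 <;> rfl
      · rw [flip_ne h]
        simp only [emb]
        rw [flip_ne fun h' => h (hinj i hi i0 (Finset.mem_insert_self _ _) h')]
    linarith

omit [NeZero m] in
lemma transfer (p : Fin n → Fin m × Bool) (J : Finset (Fin n))
    (hinj : ∀ i ∈ J, ∀ i' ∈ J, (p i).1 = (p i').1 → i = i') (S : Finset ℤ)
    (D : ℤ → (Fin n → Bool) → ℝ) (k : (Fin n → Bool) → ℤ) (hk : Dep J k) (hS : ∀ x, k x ∈ S)
    {x0 : ℝ} (hx : 0 < x0) (hQ : ∑ s ∈ S, Qf J (fun x => D s x - cond J (D s) x) p ≤ x0 ^ 2) :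
    av (fun x => D (k x) x) ≤ av (fun y => D (k (emb p y)) (emb p y)) + x0 := by
  have e : ∀ x, D (k x) x = ∑ s ∈ S, D s x * ind (k x = s) := by
    intro x
    simp only [ind_eq_ite, mul_ite, mul_one, mul_zero, Finset.sum_ite_eq, hS x, if_true]
  have hV : ∀ s, Dep J (fun x => ind (k x = s)) := fun s x x' h => by simp only [hk x x' h]
  have a1 : ∀ s ∈ S, av (fun x => D s x * ind (k x = s))
      ≤ av (fun y => D s (emb p y) * ind (k (emb p y) = s))
        + (Qf J (fun x => D s x - cond J (D s) x) p / x0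
          + x0 * av (fun y => ind (k (emb p y) = s))) / 2 := by
    intro s _
    rw [cond_pair J _ _ (hV s), ← inj_transfer p J (fun x => cond J (D s) x * ind (k x = s))
      (fun x x' h => by simp only [dep_cond J (D s) x x' h, hk x x' h]) hinj]
    have b1 : av (fun y => cond J (D s) (emb p y) * ind (k (emb p y) = s))
        = av (fun y => D s (emb p y) * ind (k (emb p y) = s))
          - av (fun y => (D s (emb p y) - cond J (D s) (emb p y)) * ind (k (emb p y) = s)) := by
      rw [← av_sub]; exact av_congr fun y => by ring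
    rw [b1, cond_pair (img J p) (fun y => D s (emb p y) - cond J (D s) (emb p y)) _
      (dep_emb (hV s) p)]
    have b2 : av (fun y => -(cond (img J p) (fun y => D s (emb p y) - cond J (D s) (emb p y)) y
        * ind (k (emb p y) = s))) ≤ av (fun y =>
        (cond (img J p) (fun y => D s (emb p y) - cond J (D s) (emb p y)) y ^ 2 / x0
          + x0 * ind (k (emb p y) = s)) / 2) := by
      refine av_mono fun y => ?_
      set c := cond (img J p) (fun y => D s (emb p y) - cond J (D s) (emb p y)) y
      by_cases h : k (emb p y) = s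
      · rw [ind_pos h, mul_one, mul_one]
        exact (neg_le_abs c).trans (amgm hx)
      · rw [ind_neg h, mul_zero, mul_zero, neg_zero]; positivity
    rw [av_div, av_add, av_div, av_mul] at b2
    simp only [neg_eq_neg_one_mul (_ * _), av_mul] at b2
    unfold Qf
    linarith
  simp only [e, av_sum]
  refine (Finset.sum_le_sum a1).trans ?_
  rw [Finset.sum_add_distrib, ← Finset.sum_div, Finset.sum_add_distrib, ← Finset.sum_div,
    ← Finset.mul_sum, ← av_sum S (fun s y => ind (k (emb p y) = s))]
  have a2 : av (fun y => ∑ s ∈ S, ind (k (emb p y) = s)) = 1 := by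
    refine (av_congr fun y => ?_).trans (av_const 1)
    simp only [ind_eq_ite, Finset.sum_ite_eq, hS _, if_true]
  have a3 : (∑ s ∈ S, Qf J (fun x => D s x - cond J (D s) x) p) / x0 ≤ x0 := by
    rw [div_le_iff₀ hx, ← sq]; exact hQ
  rw [a2]
  linarith

end Pool.Agent.Lib.MP_cd40e2_lc.Poly
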