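import Mathlib
import Pool.Agent.Lib.MP_cd40e2_lc.PolyB

set_option autoImplicit false

open Finset

namespace Pool.Agent.Lib.MP_cd40e2_lc.Poly

/-- Halfspaces on a finite cube. -/
def LTF {ι : Type*} [Fintype ι] (g : (ι → Bool) → Bool) : Prop :=
  ∃ (w : ι → ℝ) (θ : ℝ), ∀ x, g x = true ↔ θ ≤ lin w x

lemma LTF.strict {ι : Type*} [Fintype ι] [DecidableEq ι] {g : (ι → Bool) → Bool} (h : LTF g) :
    ∃ (w : ι → ℝ) (θ : ℝ), ∀ x, 0 < sg (g x) * (lin w x - θ) := by
  obtain ⟨w, θ, hw⟩ := h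
  obtain ⟨θ', δ, hδ, hgap⟩ := exists_gap (lin w) θ
  refine ⟨w, θ', fun x => ?_⟩
  by_cases h : θ ≤ lin w x
  · rw [(hw x).2 h, sg_true]; linarith [(hgap x).1 h]
  · have : g x = false := by
      cases hg : g x
      · rfl
      · exact absurd ((hw x).1 hg) h
    rw [this, sg_false]; linarith [(hgap x).2 h]

variable {n m : ℕ}

lemma lift {x : ℝ} (hx : 0 < x) (hx1 : x ≤ 1 / 1000) (K : ℕ) (hK : (K : ℝ) * x ^ 4 = 1)
    (f : (Fin n → Bool) → Bool) (J : Finset (Fin n)) (a : Fin n → ℝ) (ha : ∑ i, a i ^ 2 ≤ 1)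
    (p : Fin n → Fin m × Bool) (hinj : ∀ i ∈ J, ∀ i' ∈ J, (p i).1 = (p i').1 → i = i')
    (hgood : Good x (fun y => f (emb p y)) (img J p) (sk a p))
    (hQ : ∑ s ∈ Finset.Icc (-(K : ℤ)) K,
      Qf J (fun z => ind (sg (f z) * (s * x ^ 3 + lin a z) ≤ x ^ 3)
        - cond J (fun z => ind (sg (f z) * (s * x ^ 3 + lin a z) ≤ x ^ 3)) z) p ≤ x ^ 2) :
    ∃ g, LTF g ∧ av (fun z => ind (f z ≠ g z)) ≤ 85 * x := by
  obtain ⟨t, θ, ht0, ht⟩ := hgood
  set t' : Fin n → ℝ := fun i => if i ∈ J then t (p i).1 * sg (p i).2 else 0 with ht'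
  have hsk : sk t' p = t := by
    funext j
    unfold sk
    by_cases hj : j ∈ img J p
    · obtain ⟨i0, hi0, rfl⟩ := Finset.mem_image.mp hj
      rw [Finset.sum_eq_single i0]
      · simp [ht', hi0, mul_assoc, sg_mul_self]
      · intro i _ hi
        by_cases h : i ∈ J
        · rw [if_neg fun h' => hi (hinj i h i0 hi0 h')]
        · simp [ht', h]
      · simp
    · rw [ht0 j hj]
      refine Finset.sum_eq_zero fun i _ => ?_
      by_cases h : i ∈ J
      · rw [if_neg fun h' => hj (Finset.mem_image.mpr ⟨i, h, h'⟩)]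
      · simp [ht', h]
  have hx3 : 0 < x ^ 3 := by positivity
  have hxi : 0 ≤ 1 / x := by positivity
  set k : (Fin n → Bool) → ℤ := fun z => ⌊clip (1 / x) (lin t' z - θ) / x ^ 3⌋ with hk
  have hdep : Dep J k := by
    intro z z' h
    have : lin t' z = lin t' z' := Finset.sum_congr rfl fun i _ => by
      by_cases hi : i ∈ J
      · rw [h i hi]
      · simp [ht', hi]
    simp only [hk, this]
  have hKx : (K : ℝ) * x ^ 3 = 1 / x := by
    rw [eq_div_iff hx.ne']; linear_combination hK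
  have hS : ∀ z, k z ∈ Finset.Icc (-(K : ℤ)) K := by
    intro z
    have a1 := abs_le.mp (abs_clip_le hxi (lin t' z - θ))
    rw [Finset.mem_Icc]
    constructor
    · refine Int.le_floor.mpr ?_
      rw [le_div_iff₀ hx3]; push_cast; linarith
    · refine Int.floor_le_iff.mpr ?_
      rw [div_lt_iff₀ hx3]; push_cast; linarith
  have hrd : ∀ z, (k z : ℝ) * x ^ 3 ≤ clip (1 / x) (lin t' z - θ) ∧
      clip (1 / x) (lin t' z - θ) ≤ k z * x ^ 3 + x ^ 3 := by
    intro z
    have a1 := Int.floor_le (clip (1 / x) (lin t' z - θ) / x ^ 3)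
    have a2 := Int.lt_floor_add_one (clip (1 / x) (lin t' z - θ) / x ^ 3)
    rw [le_div_iff₀ hx3] at a1
    rw [div_lt_iff₀ hx3] at a2
    exact ⟨a1, by linarith⟩
  have htr := transfer p J hinj _
    (fun s z => ind (sg (f z) * (s * x ^ 3 + lin a z) ≤ x ^ 3)) k hdep hS hx hQ
  have h1 : av (fun y => ind (sg (f (emb p y)) * (k (emb p y) * x ^ 3 + lin a (emb p y)) ≤ x ^ 3))
      ≤ 80 * x := by
    refine le_trans (av_mono fun y => ind_mono fun h => ?_) ht
    have a1 := hrd (emb p y)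
    rw [lin_emb, hsk] at a1
    rw [lin_emb] at h
    cases hF : f (emb p y) <;> simp only [hF, sg_true, sg_false] at h ⊢ <;> linarith
  have h2 := cheb_u hx a (ha.trans (by rw [le_div_iff₀ hx]; linarith))
  refine ⟨fun z => decide (θ ≤ lin (fun i => t' i + a i) z),
    ⟨fun i => t' i + a i, θ, fun z => decide_eq_true_iff⟩, ?_⟩
  have h3 := add_le_add (htr.trans (add_le_add h1 le_rfl)) h2
  rw [← av_add] at h3
  refine le_trans (av_mono fun z => ind_or2 fun h => ?_) (h3.trans (by linarith))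
  by_contra hcon
  simp only [not_or, not_le] at hcon
  obtain ⟨a1, a2⟩ := hcon
  have a3 := hrd z
  have a4 := abs_lt.mp a2
  have e2 : 1 / x = 1 / (2 * x) + 1 / (2 * x) := by field_simp; norm_num
  have e3 : 0 < 1 / (2 * x) := by positivity
  simp only [lin_add] at h
  apply h
  have key : 0 < sg (f z) * (lin t' z - θ + lin a z) := by
    rcases le_total (1 / x) (lin t' z - θ) with h' | h'
    · rw [clip_of_le hxi h'] at a3
      cases hF : f z <;> simp only [hF, sg_true, sg_false] at a1 ⊢ <;> linarith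
    rcases le_total (lin t' z - θ) (-(1 / x)) with h'' | h''
    · rw [clip_of_ge hxi h''] at a3
      cases hF : f z <;> simp only [hF, sg_true, sg_false] at a1 ⊢ <;> linarith
    · rw [clip_of_abs_le (abs_le.mpr ⟨h'', h'⟩)] at a3
      cases hF : f z <;> simp only [hF, sg_true, sg_false] at a1 ⊢ <;> linarith
  cases hF : f z <;> simp only [hF, sg_true, sg_false] at key ⊢
  · exact (decide_eq_false (by linarith)).symm
  · exact (decide_eq_true (by linarith)).symm

lemma av_lin {ι : Type*} [Fintype ι] [DecidableEq ι] (c : ι → ℝ) : av (lin c) = 0 := by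
  have := av_mul_lin (fun _ => (1:ℝ)) c
  simpa only [one_mul, av_sg, mul_zero, Finset.sum_const_zero] using this

lemma av_ind_le {α : Type*} [Fintype α] [Nonempty α] (P : α → Prop) :
    av (fun x => ind (P x)) ≤ 1 := av_le_const fun _ => ind_le_one _

theorem seeds [NeZero m] {x : ℝ} (hx : 0 < x) (hx1 : x ≤ 1 / 1000) (K N : ℕ)
    (hK : (K : ℝ) * x ^ 4 = 1) (hN : (N : ℝ) * x ^ 26 = 1) (hm : (m : ℝ) * x ^ 222 = 1)
    (hNm : N ≤ m) (f : (Fin n → Bool) → Bool)
    (hfar : ∀ g, LTF g → 85 * x < av (fun z => ind (f z ≠ g z))) :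
    av (fun p : Fin n → Fin m × Bool =>
      ind (∃ g, LTF g ∧ av (fun y => ind (f (emb p y) ≠ g y)) ≤ x ^ 28)) ≤ 1 / 6 := by
  have hpw : ∀ a b : ℕ, a ≤ b → x ^ b ≤ x ^ a := fun a b h =>
    pow_le_pow_of_le_one hx.le (by linarith) h
  have hp1 : ∀ b : ℕ, 1 ≤ b → x ^ b ≤ x := fun b h => by simpa using hpw 1 b h
  set a : Fin n → ℝ := fun i => av (fun z => sg (f z) * sg (z i)) with ha
  set a0 := av (fun z => sg (f z)) with ha0
  have ha1 : ∑ i, a i ^ 2 ≤ 1 := by
    have := bessel (fun z => sg (f z))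
    simpa only [sg_sq, av_const] using this
  set J : Finset (Fin n) := univ.filter fun i => x ^ 110 ≤ a i ^ 2 with hJ
  have hJc : (#J : ℝ) * x ^ 110 ≤ 1 := by
    have : ∑ _i ∈ J, x ^ 110 ≤ ∑ i ∈ J, a i ^ 2 :=
      Finset.sum_le_sum fun i hi => (Finset.mem_filter.mp hi).2
    rw [Finset.sum_const, nsmul_eq_mul] at this
    exact this.trans ((Finset.sum_le_sum_of_subset_of_nonneg (Finset.subset_univ J)
      fun i _ _ => sq_nonneg _).trans ha1)
  set a' : Fin n → ℝ := fun i => if i ∈ J then 0 else a i with ha'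
  have ha'1 : ∑ i, a' i ^ 2 ≤ 1 := by
    refine le_trans (Finset.sum_le_sum fun i _ => ?_) ha1
    by_cases h : i ∈ J <;> simp [ha', h, sq_nonneg]
  have ha'2 : ∀ i, a' i ^ 2 ≤ x ^ 110 := by
    intro i
    by_cases h : i ∈ J
    · simp only [ha', h, if_true]; norm_num; positivity
    · simp only [ha', h, if_false]
      simp only [hJ, Finset.mem_filter, Finset.mem_univ, true_and, not_le] at h
      exact h.le
  set h : (Fin n → Bool) → ℝ := fun z => sg (f z) - a0 - lin a z with hh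
  have hh0 : av h = 0 := by
    simp only [hh, av_sub, av_const, av_lin]
    rw [← ha0]; ring
  have hh1 : ∀ i, av (fun z => h z * sg (z i)) = 0 := by
    intro i
    simp only [hh, sub_mul, av_sub, av_mul, av_sg, av_lin_mul_sg]
    simp only [ha]; ring
  have hh2 : av (fun z => h z ^ 2) ≤ 9 := by
    have b0 : |a0| ≤ 1 := (av_abs _).trans (av_le_const fun z => (abs_sg _).le)
    have b1 : a0 ^ 2 ≤ 1 := by rw [← sq_abs]; nlinarith [abs_nonneg a0]
    have : av (fun z => h z ^ 2) ≤ av (fun z => 6 + 3 * lin a z ^ 2) := av_mono fun z => by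
      simp only [hh]
      nlinarith [sg_sq (f z), sq_nonneg (sg (f z) + a0), sq_nonneg (sg (f z) + lin a z),
        sq_nonneg (a0 - lin a z)]
    rw [av_add, av_const, av_mul, av_lin_sq] at this
    linarith
  set M : ℝ := 1 / x ^ 111 with hM
  have hM0 : 0 < M := by positivity
  have hm' : (m : ℝ) = 1 / x ^ 222 := by rw [eq_div_iff (by positivity)]; exact hm
  have hmM : (m : ℝ) = M * M := by rw [hm', hM]; field_simp
  set r : ℤ → (Fin n → Bool) → ℝ := fun s z => ind (sg (f z) * (s * x ^ 3 + lin a' z) ≤ x ^ 3)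
    - cond J (fun z => ind (sg (f z) * (s * x ^ 3 + lin a' z) ≤ x ^ 3)) z with hr
  set A1 : (Fin n → Fin m × Bool) → ℝ :=
    fun p => ∑ i ∈ J, ∑ i' ∈ J, ind (i ≠ i' ∧ (p i).1 = (p i').1) with hA1
  set A2 : (Fin n → Fin m × Bool) → ℝ :=
    fun p => ∑ j, av (fun y => h (emb p y) * sg (y j)) ^ 2 with hA2
  set A3 : (Fin n → Fin m × Bool) → ℝ := fun p => ∑ j, sk a' p j ^ 4 with hA3
  set A4 : (Fin n → Fin m × Bool) → ℝ :=
    fun p => ∑ s ∈ Finset.Icc (-(K : ℤ)) K, Qf J (r s) p with hA4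
  set A5 : (Fin n → Fin m × Bool) → ℝ := fun p => ∑ j, sk a' p j ^ 2 with hA5
  have c1 : av A1 ≤ x := by
    simp only [hA1, av_sum]
    have : ∀ i i' : Fin n, av (fun p : Fin n → Fin m × Bool => ind (i ≠ i' ∧ (p i).1 = (p i').1))
        ≤ x ^ 222 := by
      intro i i'
      by_cases hi : i = i'
      · exact av_le_const fun p => by rw [ind_neg (fun h' => h'.1 hi)]; positivity
      · refine (av_mono fun p => ind_mono And.right).trans (le_of_eq ?_)
        rw [av_seed]
        simp only [av_const]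
        rw [pair hi, hm', one_div_one_div]
    refine (Finset.sum_le_sum fun i _ => Finset.sum_le_sum fun i' _ => this i i').trans ?_
    simp only [Finset.sum_const, nsmul_eq_mul]
    have e : (#J : ℝ) * (#J * x ^ 222) = (#J * x ^ 110) * (#J * x ^ 110) * x ^ 2 := by ring
    have e0 : 0 ≤ (#J : ℝ) * x ^ 110 := by positivity
    have e1 : (#J * x ^ 110) * (#J * x ^ 110) ≤ (1:ℝ) := by nlinarith
    rw [e]
    nlinarith [hp1 2 (by norm_num), sq_nonneg x]
  have c2 : av A2 / x ^ 28 ≤ 18 * x := by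
    rw [div_le_iff₀ (by positivity)]
    refine (deg_one hM0 hmM h hh0 hh1).trans ?_
    have e : 2 / M = 2 * x ^ 111 := by rw [hM]; field_simp
    have e2 : 18 * x * x ^ 28 = 18 * x ^ 29 := by ring
    have e3 : 0 < x ^ 111 := by positivity
    rw [e, e2]
    nlinarith [hpw 29 111 (by norm_num)]
  have c3 : av A3 / x ^ 108 ≤ 6 * x := by
    rw [div_le_iff₀ (by positivity)]
    refine (sk_four a' ha'1 ha'2).trans ?_
    have e2 : 6 * x * x ^ 108 = 6 * x ^ 109 := by ring
    have e3 : 0 < x ^ 110 := by positivity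
    rw [hm', one_div_one_div, e2]
    nlinarith [hpw 109 110 (by norm_num), hpw 109 222 (by norm_num)]
  have c4 : av A4 / x ^ 2 ≤ 6 * x := by
    rw [div_le_iff₀ (by positivity)]
    simp only [hA4, av_sum]
    have b1 : ∀ s, av (fun p : Fin n → Fin m × Bool => Qf J (r s) p) ≤ 2 * x ^ 111 := by
      intro s
      refine (Qf_bound hM0 hmM J (r s) fun b => ?_).trans ?_
      · simp only [hr]
        rw [cond, av_sub, sub_eq_zero]
        refine ((av_congr fun z => ?_).trans (av_const _)).symm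
        exact dep_cond J _ _ _ fun i hi => mix_in _ _ hi
      · have b2 : av (fun z => r s z ^ 2) ≤ 1 := av_le_const fun z => by
          simp only [hr]
          have d1 : 0 ≤ cond J (fun z => ind (sg (f z) * (s * x ^ 3 + lin a' z) ≤ x ^ 3)) z :=
            av_nonneg fun _ => ind_nonneg _
          have d2 : cond J (fun z => ind (sg (f z) * (s * x ^ 3 + lin a' z) ≤ x ^ 3)) z ≤ 1 :=
            av_le_const fun _ => ind_le_one _
          nlinarith [ind_nonneg (sg (f z) * (s * x ^ 3 + lin a' z) ≤ x ^ 3),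
            ind_le_one (sg (f z) * (s * x ^ 3 + lin a' z) ≤ x ^ 3)]
        have b3 : (#J + M) / m ≤ 2 * x ^ 111 := by
          have e : (#J + M) / m = (#J * x ^ 110) * x ^ 112 + x ^ 111 := by
            rw [hm', hM]; field_simp
          have e3 : 0 < x ^ 112 := by positivity
          rw [e]
          nlinarith [hpw 111 112 (by norm_num)]
        calc _ ≤ (#J + M) / m * 1 := mul_le_mul_of_nonneg_left b2 (by positivity)
          _ ≤ _ := by rw [mul_one]; exact b3
    refine (Finset.sum_le_sum fun s _ => b1 s).trans ?_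
    rw [Finset.sum_const, nsmul_eq_mul, Int.card_Icc]
    have e : (((K : ℤ) + 1 - -(K : ℤ)).toNat : ℝ) = 2 * K + 1 := by
      have : ((K : ℤ) + 1 - -(K : ℤ)).toNat = 2 * K + 1 := by omega
      rw [this]; push_cast; ring
    have e2 : (2 * (K : ℝ) + 1) * (2 * x ^ 111) = 4 * (K * x ^ 4) * x ^ 107 + 2 * x ^ 111 := by
      ring
    have e3 : 6 * x * x ^ 2 = 6 * x ^ 3 := by ring
    rw [e, e2, hK, e3]
    linarith [hpw 3 107 (by norm_num), hpw 3 111 (by norm_num)]
  have c5 : av A5 * x ≤ x := by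
    have : av A5 ≤ 1 := (sk_two a').le.trans ha'1
    nlinarith
  have hZ : av (fun p => A1 p + (A2 p / x ^ 28 + (A3 p / x ^ 108 + (A4 p / x ^ 2 + A5 p * x))))
      ≤ 1 / 6 := by
    rw [av_add, av_add, av_add, av_add, av_div, av_div, av_div, av_mul']
    linarith
  refine le_trans (av_mono fun p => ?_) hZ
  have n1 : 0 ≤ A1 p := Finset.sum_nonneg fun _ _ => Finset.sum_nonneg fun _ _ => ind_nonneg _
  have n2 : 0 ≤ A2 p / x ^ 28 :=
    div_nonneg (Finset.sum_nonneg fun _ _ => sq_nonneg _) (by positivity)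
  have n3 : 0 ≤ A3 p / x ^ 108 :=
    div_nonneg (Finset.sum_nonneg fun _ _ => by positivity) (by positivity)
  have n4 : 0 ≤ A4 p / x ^ 2 :=
    div_nonneg (Finset.sum_nonneg fun _ _ => av_nonneg fun _ => sq_nonneg _) (by positivity)
  have n5 : 0 ≤ A5 p * x := mul_nonneg (Finset.sum_nonneg fun _ _ => sq_nonneg _) hx.le
  by_cases hP : ∃ g, LTF g ∧ av (fun y => ind (f (emb p y) ≠ g y)) ≤ x ^ 28
  swap
  · rw [ind_neg hP]; linarith
  rw [ind_pos hP]
  by_contra hcon
  rw [not_le] at hcon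
  obtain ⟨g, hg, hfg⟩ := hP
  obtain ⟨W, θ, hW⟩ := hg.strict
  have hinj : ∀ i ∈ J, ∀ i' ∈ J, (p i).1 = (p i').1 → i = i' := by
    intro i hi i' hi' he
    by_contra hne
    have b1 : ind (i ≠ i' ∧ (p i).1 = (p i').1)
        ≤ ∑ i' ∈ J, ind (i ≠ i' ∧ (p i).1 = (p i').1) :=
      Finset.single_le_sum (f := fun i' => ind (i ≠ i' ∧ (p i).1 = (p i').1))
        (fun _ _ => ind_nonneg _) hi'
    have b2 : ∑ i' ∈ J, ind (i ≠ i' ∧ (p i).1 = (p i').1) ≤ A1 p :=
      Finset.single_le_sum (f := fun i => ∑ i' ∈ J, ind (i ≠ i' ∧ (p i).1 = (p i').1))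
        (fun _ _ => Finset.sum_nonneg fun _ _ => ind_nonneg _) hi
    rw [ind_pos ⟨hne, he⟩] at b1
    linarith
  have d2 : A2 p ≤ x ^ 28 := (div_le_one (by positivity)).mp (by linarith)
  have d3 : A3 p ≤ x ^ 108 := (div_le_one (by positivity)).mp (by linarith)
  have d4 : A4 p ≤ x ^ 2 := (div_le_one (by positivity)).mp (by linarith)
  have d5 : A5 p ≤ 1 / x := by rw [le_div_iff₀ hx]; linarith
  have hgood : Good x (fun y => f (emb p y)) (img J p) (sk a' p) := by
    refine struct hx hx1 _ g _ N hN (by simpa using hNm) _ d5 (fun j => ?_) hfg ?_ W θ hW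
    · have b1 : sk a' p j ^ 4 ≤ A3 p :=
        Finset.single_le_sum (f := fun j => sk a' p j ^ 4) (fun _ _ => by positivity)
          (Finset.mem_univ j)
      refine le_of_pow_le_pow_left₀ (n := 4) (by norm_num) (by positivity) ?_
      rw [← abs_pow, abs_of_nonneg (by positivity), ← pow_mul]
      exact b1.trans d3
    · refine le_trans (le_of_eq (Finset.sum_congr rfl fun j hj => ?_))
        ((Finset.sum_le_sum_of_subset_of_nonneg (Finset.subset_univ (img J p)ᶜ)
          fun i _ _ => sq_nonneg _).trans d2)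
      have b1 : sk a' p j = sk a p j := by
        refine Finset.sum_congr rfl fun i _ => ?_
        by_cases hi : i ∈ J
        · have : (p i).1 ≠ j := fun h' =>
            Finset.mem_compl.mp hj (Finset.mem_image.mpr ⟨i, hi, h'⟩)
          rw [if_neg this, if_neg this]
        · simp [ha', hi]
      simp only [hh, sub_mul, av_sub, av_mul, av_sg, lin_emb, av_lin_mul_sg, b1]
      ring
  obtain ⟨g', hg', hd⟩ := lift hx hx1 K hK f J a' ha'1 p hinj hgood d4
  linarith [hfar g' hg']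

end Pool.Agent.Lib.MP_cd40e2_lc.Poly
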