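import Mathlib
import Pool.Agent.Lib.MP_cd40e2_lc.PolyC

set_option autoImplicit false

open Finset
open scoped Classical

namespace Pool.Agent.Lib.MP_cd40e2_lc.Poly

lemma sg_ind (b : Bool) : sg b = 2 * ind (b = true) - 1 := by
  cases b
  · rw [ind_neg (by simp), sg_false]; ring
  · rw [ind_pos rfl, sg_true]; ring

lemma sg_sg_ind (a b : Bool) :
    sg a * sg b = 4 * ind (a = true ∧ b = true) - 2 * ind (a = true) - sg b - 0 := by
  cases a <;> cases b <;> simp [ind, sg] <;> norm_num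

lemma av_ind_card {α : Type*} [Fintype α] (P : α → Prop) :
    av (fun x => ind (P x)) = (#(univ.filter P) : ℝ) / Fintype.card α := by
  simp only [av, ind_eq_ite, Finset.sum_boole]

/-- The number of halfspaces on the m-cube, by Chow's theorem. -/
lemma count_ltf (m : ℕ) :
    #(univ.filter fun g : (Fin m → Bool) → Bool => LTF g) ≤ (2 ^ m + 1) ^ (m + 1) := by
  let c : ((Fin m → Bool) → Bool) → Option (Fin m) → ℕ := fun g o =>
    #(univ.filter fun y : Fin m → Bool => g y = true ∧ ∀ j, o = some j → y j = true)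
  have hc : #(Fintype.piFinset fun _ : Option (Fin m) => Finset.range (2 ^ m + 1))
      = (2 ^ m + 1) ^ (m + 1) := by
    simp [Fintype.card_piFinset]
  rw [← hc]
  refine Finset.card_le_card_of_injOn c (fun g _ => ?_) (fun g hg g' hg' h => ?_)
  · refine Finset.mem_coe.mpr (Fintype.mem_piFinset.mpr fun o => Finset.mem_range.mpr ?_)
    refine Nat.lt_succ_of_le ((Finset.card_filter_le _ _).trans ?_)
    simp
  · obtain ⟨W, θ, hW⟩ := (Finset.mem_filter.mp (Finset.mem_coe.mp hg)).2.strict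
    have h0 : av (fun y => ind (g y = true)) = av (fun y => ind (g' y = true)) := by
      rw [av_ind_card, av_ind_card]
      have := congrFun h none
      simp only [c, reduceCtorEq, false_imp_iff, implies_true, and_true] at this
      convert congrArg (fun k : ℕ => (k : ℝ) / Fintype.card (Fin m → Bool)) this
    have h1 : ∀ j, av (fun y => ind (g y = true ∧ y j = true))
        = av (fun y => ind (g' y = true ∧ y j = true)) := by
      intro j
      rw [av_ind_card, av_ind_card]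
      have := congrFun h (some j)
      simp only [c, Option.some.injEq, forall_eq'] at this
      convert congrArg (fun k : ℕ => (k : ℝ) / Fintype.card (Fin m → Bool)) this
    have h2 : av (fun y => sg (g y) * (lin W y - θ)) = av (fun y => sg (g' y) * (lin W y - θ)) := by
      simp only [mul_sub, av_sub, av_mul_lin, av_mul']
      congr 1
      · refine Finset.sum_congr rfl fun j _ => ?_
        simp only [sg_sg_ind (g _), sg_sg_ind (g' _), av_sub, av_mul, h0, h1]
      · simp only [sg_ind, av_sub, av_mul, h0]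
    have h3 : ∀ y, 0 ≤ sg (g y) * (lin W y - θ) - sg (g' y) * (lin W y - θ) := by
      intro y
      have := hW y
      cases h1 : g y <;> cases h2 : g' y <;> simp only [h1, sg_true, sg_false] at this ⊢ <;>
        linarith
    have h4 : ∑ y, (sg (g y) * (lin W y - θ) - sg (g' y) * (lin W y - θ)) = 0 := by
      have h5 := sub_eq_zero.mpr h2
      rw [← av_sub, av, div_eq_zero_iff] at h5
      refine h5.resolve_right ?_
      exact_mod_cast Fintype.card_ne_zero
    have h5 := (Finset.sum_eq_zero_iff_of_nonneg fun y _ => h3 y).mp h4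
    funext y
    have h6 := h5 y (Finset.mem_univ _)
    have := hW y
    cases h1 : g y <;> cases h2 : g' y <;> simp only [h1, h2, sg_true, sg_false] at this h6 ⊢ <;>
      linarith

lemma av_pi_prod {α : Type*} [Fintype α] (q : ℕ) (φ : α → ℝ) :
    av (fun ys : Fin q → α => ∏ k, φ (ys k)) = av φ ^ q := by
  simp only [av]
  rw [← Fintype.prod_sum (fun (_ : Fin q) (y : α) => φ y)]
  simp [div_pow]

lemma sample {m : ℕ} (q : ℕ) {η : ℝ} (hq : ((m : ℝ) + 1) ^ 2 + 3 ≤ η * q)
    (F : (Fin m → Bool) → Bool) (hF : ∀ g, LTF g → η < av (fun y => ind (F y ≠ g y))) :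
    av (fun ys : Fin q → Fin m → Bool => ind (∃ g, LTF g ∧ ∀ k, g (ys k) = F (ys k))) ≤ 1 / 6 := by
  set L := univ.filter fun g : (Fin m → Bool) → Bool => LTF g with hL
  have a1 : ∀ ys : Fin q → Fin m → Bool, ind (∃ g, LTF g ∧ ∀ k, g (ys k) = F (ys k))
      ≤ ∑ g ∈ L, ∏ k, ind (g (ys k) = F (ys k)) := by
    intro ys
    have hn : ∀ g ∈ L, 0 ≤ ∏ k, ind (g (ys k) = F (ys k)) :=
      fun g _ => Finset.prod_nonneg fun _ _ => ind_nonneg _
    by_cases h : ∃ g, LTF g ∧ ∀ k, g (ys k) = F (ys k)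
    · rw [ind_pos h]
      obtain ⟨g, hg, hk⟩ := h
      refine le_trans (le_of_eq ?_) (Finset.single_le_sum hn
        (Finset.mem_filter.mpr ⟨Finset.mem_univ g, hg⟩))
      exact (Finset.prod_eq_one fun k _ => ind_pos (hk k)).symm
    · rw [ind_neg h]; exact Finset.sum_nonneg hn
  have a2 : ∀ g ∈ L, av (fun ys : Fin q → Fin m → Bool => ∏ k, ind (g (ys k) = F (ys k)))
      ≤ Real.exp (-(η * q)) := by
    intro g hg
    rw [av_pi_prod q (fun y => ind (g y = F y))]
    have b1 := hF g (Finset.mem_filter.mp hg).2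
    have b2 : av (fun y => ind (g y = F y)) = 1 - av (fun y => ind (F y ≠ g y)) := by
      rw [← av_const (α := Fin m → Bool) 1, ← av_sub]
      refine av_congr fun y => ?_
      by_cases h : g y = F y
      · rw [ind_pos h, ind_neg (by simp [h])]; ring
      · rw [ind_neg h, ind_pos (fun h' => h h'.symm)]; ring
    have b3 : av (fun y => ind (g y = F y)) ≤ Real.exp (-η) := by
      have := Real.add_one_le_exp (-η)
      linarith
    refine (pow_le_pow_left₀ (av_nonneg fun _ => ind_nonneg _) b3 q).trans (le_of_eq ?_)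
    rw [← Real.exp_nat_mul]; congr 1; ring
  refine (av_mono a1).trans ?_
  rw [av_sum]
  refine (Finset.sum_le_sum a2).trans ?_
  rw [Finset.sum_const, nsmul_eq_mul]
  have a3 : (#L : ℝ) ≤ Real.exp (((m : ℝ) + 1) ^ 2) := by
    have b1 : (#L : ℝ) ≤ (2 ^ m + 1) ^ (m + 1) := by exact_mod_cast count_ltf m
    have b2 : (2:ℝ) ^ m + 1 ≤ Real.exp ((m : ℝ) + 1) := by
      have c1 : (2:ℝ) ≤ Real.exp 1 := by linarith [Real.add_one_le_exp 1]
      have c2 : (2:ℝ) ^ (m + 1) ≤ Real.exp 1 ^ (m + 1) := pow_le_pow_left₀ (by norm_num) c1 _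
      rw [← Real.exp_nat_mul, mul_one, pow_succ] at c2
      have c3 : (1:ℝ) ≤ 2 ^ m := one_le_pow₀ (by norm_num)
      push_cast at c2
      linarith
    refine b1.trans ((pow_le_pow_left₀ (by positivity) b2 _).trans (le_of_eq ?_))
    rw [← Real.exp_nat_mul]; congr 1; push_cast; ring
  have a4 : Real.exp (((m : ℝ) + 1) ^ 2) * Real.exp (-(η * q)) ≤ Real.exp (-3) := by
    rw [← Real.exp_add]; exact Real.exp_le_exp.mpr (by linarith)
  have a5 : Real.exp (-3) ≤ 1 / 6 := by
    rw [Real.exp_neg, ← one_div]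
    refine one_div_le_one_div_of_le (by norm_num) ?_
    have c1 : (2:ℝ) ≤ Real.exp 1 := by linarith [Real.add_one_le_exp 1]
    have c2 : (2:ℝ) ^ 3 ≤ Real.exp 1 ^ 3 := pow_le_pow_left₀ (by norm_num) c1 _
    rw [← Real.exp_nat_mul] at c2
    norm_num at c2
    linarith
  exact (mul_le_mul_of_nonneg_right a3 (Real.exp_pos _).le).trans (a4.trans a5)

/-- The polynomial one-sided tester. -/
theorem poly_tester (ε : ℝ) (hε : 0 < ε) (hε1 : ε ≤ 1) : ∃ m q : ℕ, 0 < m ∧
    (q : ℝ) ≤ (2000 / ε) ^ 473 ∧ ∀ (n : ℕ) (f : (Fin n → Bool) → Bool),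
      (∀ g, LTF g → ε ≤ av (fun z => ind (f z ≠ g z))) →
      av (fun s : (Fin n → Fin m × Bool) × (Fin q → Fin m → Bool) =>
        ind (∃ g, LTF g ∧ ∀ k, g (s.2 k) = f (emb s.1 (s.2 k)))) ≤ 1 / 3 := by
  set E := ⌈1000 / ε⌉₊ with hE
  have h1 : 1000 / ε ≤ E := Nat.le_ceil _
  have h2 : 1000 ≤ 1000 / ε := by rw [le_div_iff₀ hε]; linarith
  have h3 : (E : ℝ) ≤ 2000 / ε := by
    have := Nat.ceil_lt_add_one (show 0 ≤ 1000 / ε by positivity)
    have e : 2000 / ε = 1000 / ε + 1000 / ε := by ring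
    linarith
  have hE0 : (1000 : ℝ) ≤ E := h2.trans h1
  have hEp : (0 : ℝ) < E := by linarith
  have hEn : 1 ≤ E := by exact_mod_cast (show (1:ℝ) ≤ E by linarith)
  clear_value E
  have hx : 0 < 1 / (E : ℝ) := by positivity
  have hx1 : 1 / (E : ℝ) ≤ 1 / 1000 := one_div_le_one_div_of_le (by norm_num) hE0
  have hp : ∀ a : ℕ, ((E ^ a : ℕ) : ℝ) * (1 / (E : ℝ)) ^ a = 1 := by
    intro a; push_cast; rw [← mul_pow, mul_one_div_cancel hEp.ne', one_pow]
  have hm0 : 0 < E ^ 222 := by positivity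
  refine ⟨E ^ 222, E ^ 473, hm0, ?_, fun n f hf => ?_⟩
  · push_cast; exact pow_le_pow_left₀ hEp.le h3 _
  have : NeZero (E ^ 222) := ⟨hm0.ne'⟩
  have hs := seeds (m := E ^ 222) hx hx1 (E ^ 4) (E ^ 26) (hp 4) (hp 26) (hp 222)
    (Nat.pow_le_pow_right hEn (by norm_num)) f (fun g hg => lt_of_lt_of_le (by
      rw [div_le_iff₀ hε] at h1
      rw [mul_one_div, div_lt_iff₀ hEp]
      nlinarith) (hf g hg))
  have hq : (((E ^ 222 : ℕ) : ℝ) + 1) ^ 2 + 3 ≤ (1 / (E : ℝ)) ^ 28 * (E ^ 473 : ℕ) := by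
    have e : (1 / (E : ℝ)) ^ 28 * (E ^ 473 : ℕ) = E * ((E : ℝ) ^ 222) ^ 2 := by
      push_cast; field_simp
    have b : (1:ℝ) ≤ (E : ℝ) ^ 222 := one_le_pow₀ (by linarith)
    rw [e]
    push_cast
    generalize (E : ℝ) ^ 222 = T at b ⊢
    nlinarith [mul_le_mul_of_nonneg_right hE0 (sq_nonneg T)]
  rw [av_prod]
  have h6 := add_le_add hs (le_refl (1 / 6 : ℝ))
  rw [← av_const (α := Fin n → Fin (E ^ 222) × Bool) (1 / 6 : ℝ), ← av_add, av_const] at h6
  refine le_trans (av_mono fun p => ?_) (h6.trans (by norm_num))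
  by_cases hP : ∃ g, LTF g ∧ av (fun y => ind (f (emb p y) ≠ g y)) ≤ (1 / (E : ℝ)) ^ 28
  · rw [ind_pos hP]
    exact (av_ind_le _).trans (by norm_num)
  · rw [ind_neg hP, zero_add]
    push Not at hP
    exact sample (E ^ 473) hq (fun y => f (emb p y)) hP

end Pool.Agent.Lib.MP_cd40e2_lc.Poly
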